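import Mathlib

/-!
# Jack–Laurent symmetric functions (MP_9e047e_al): common definitions

`Lau F N` = Laurent polynomials in `x_0,…,x_{N-1}`; everything is 0-indexed.
-/

namespace Pool.Agent.JL

open Finset

/-- Laurent polynomials in `N` variables over `F`. -/
abbrev Lau (F : Type*) [Field F] (N : ℕ) := AddMonoidAlgebra F (Fin N → ℤ)

variable {F : Type*} [Field F] {N : ℕ}

/-- The monomial `x^η`. -/
noncomputable def mon (η : Fin N → ℤ) : Lau F N := AddMonoidAlgebra.single η 1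

/-- The variable `x_i`. -/
noncomputable def xv (i : Fin N) : Lau F N := mon (Pi.single i 1)

/-- Action of permutations on exponent vectors, `(σ η)_{σ i} = η_i`. -/
def permE (σ : Equiv.Perm (Fin N)) : (Fin N → ℤ) ≃+ (Fin N → ℤ) where
  toFun η := fun i => η (σ.symm i)
  invFun η := fun i => η (σ i)
  left_inv η := by ext i; simp
  right_inv η := by ext i; simp
  map_add' η ζ := rfl

/-- Action of permutations on Laurent polynomials, `σ x_i = x_{σ i}`. -/
noncomputable def act (σ : Equiv.Perm (Fin N)) : Lau F N ≃ₐ[F] Lau F N :=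
  AddMonoidAlgebra.domCongr F F (permE σ)

/-- Symmetric Laurent polynomials. -/
def IsSymm (f : Lau F N) : Prop := ∀ σ : Equiv.Perm (Fin N), act σ f = f

/-- The Euler operator `x_i ∂/∂x_i`. -/
noncomputable def eul (i : Fin N) : Lau F N →ₗ[F] Lau F N where
  toFun f := ⟨Finsupp.onFinset f.coeff.support (fun η => (η i : F) * f.coeff η)
    (fun η h => by
      rw [Finsupp.mem_support_iff]
      intro h0
      exact h (by rw [h0, mul_zero]))⟩
  map_add' f g := by
    ext η
    simp [mul_add]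
  map_smul' c f := by
    ext η
    simp [mul_left_comm]

@[simp] lemma coeff_eul (i : Fin N) (f : Lau F N) (η : Fin N → ℤ) :
    (eul i f).coeff η = (η i : F) * f.coeff η := rfl

/-- `IsCMS k f g` : `g` is the image of `f` under the trigonometric Calogero–Moser–Sutherland operator
`∑ (x_i ∂_i)² - k ∑_{i<j} (x_i+x_j)/(x_i-x_j) (x_i ∂_i - x_j ∂_j)`; the quotient
`(x_i ∂_i f - x_j ∂_j f)/(x_i-x_j)` is the Laurent polynomial `D i j`. -/
def IsCMS (k : F) (f g : Lau F N) : Prop :=
  ∃ D : Fin N → Fin N → Lau F N,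
    (∀ i j, (xv i - xv j) * D i j = eul i f - eul j f) ∧
    g = ∑ i, eul i (eul i f) - k • ∑ i, ∑ j ∈ Ioi i, (xv i + xv j) * D i j

/-- `Dom η χ`: for `χ` non-increasing, the non-increasing rearrangement of `η` is below `χ` in the
dominance order. -/
def Dom (η χ : Fin N → ℤ) : Prop :=
  ∑ i, η i = ∑ i, χ i ∧
  ∀ I : Finset (Fin N), ∑ i ∈ I, η i ≤ ∑ i ∈ univ.filter (fun i : Fin N => (i : ℕ) < I.card), χ i

/-- `P` is the Jack (Laurent) polynomial `P_χ^{(k)}`: symmetric, `m_χ + (terms lower in dominance order)`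
and an eigenfunction of the CMS operator. -/
def IsJack (k : F) (χ : Fin N → ℤ) (P : Lau F N) : Prop :=
  IsSymm P ∧ P.coeff χ = 1 ∧ (∀ η, P.coeff η ≠ 0 → Dom η χ) ∧ ∃ c : F, IsCMS k P (c • P)

/-- The eigenvalue `E_χ = ∑ χ_i (χ_i + k (2i+1-N))` (0-indexed). -/
def Ev (k : F) (χ : Fin N → ℤ) : F := ∑ i, (χ i : F) * ((χ i : F) + k * (2 * (i : ℕ) + 1 - N))

/-- index set of the power sums `p_a`, `a ≠ 0`. -/
abbrev Idx := {a : ℤ // a ≠ 0}

/-- the ring `Λ^±` over `F[p₀]`. -/
abbrev Stab (F : Type*) [Field F] := MvPolynomial Idx (Polynomial F)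

/-- the power sum `p_a(x_0,…,x_{N-1})`. -/
noncomputable def psum (N : ℕ) (a : ℤ) : Lau F N := ∑ i : Fin N, mon (Pi.single i a)

/-- `φ_N`, with `p₀ ↦ N`. -/
noncomputable def phi (N : ℕ) : Stab F →+* Lau F N :=
  MvPolynomial.eval₂Hom ((algebraMap F (Lau F N)).comp (Polynomial.evalRingHom (N : F)))
    (fun a => psum N a.1)

/-- the sequence `(λ_1,…,λ_l,0,…,0,-μ_m,…,-μ_1)` of length `N`. -/
def chi (lam mu : YoungDiagram) (N : ℕ) (i : Fin N) : ℤ :=
  (lam.rowLen i : ℤ) - (mu.rowLen (N - 1 - i) : ℤ)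

/-- `Rep k λ μ D` : some element of `Λ^±[p₀]` specialises to `D(N) P_χ` for all large `N`. -/
def Rep (k : F) (lam mu : YoungDiagram) (D : Polynomial F) : Prop :=
  ∃ Q : Stab F, ∃ N₀ : ℕ, ∀ N ≥ N₀, ∀ P : Lau F N, IsJack k (chi lam mu N) P →
    phi N Q = (D.eval (N : F)) • P

/-! ## Dunkl operators -/

/-- transposition of two exponents. -/
def swE (i j : Fin N) (η : Fin N → ℤ) : Fin N → ℤ := fun l => η (Equiv.swap i j l)

/-- `G_{ij} f = x_i (f - s_{ij} f)/(x_i - x_j)` on monomials. -/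
noncomputable def Gmon (i j : Fin N) (η : Fin N → ℤ) : Lau F N :=
  if η j ≤ η i then ∑ t ∈ range (η i - η j).toNat, mon (η - (t : ℤ) • (Pi.single i 1 - Pi.single j 1))
  else - ∑ t ∈ range (η j - η i).toNat, mon (swE i j η - (t : ℤ) • (Pi.single i 1 - Pi.single j 1))

/-- `G_{ij} f = x_i (f - s_{ij} f)/(x_i - x_j)`. -/
noncomputable def G (i j : Fin N) : Lau F N →ₗ[F] Lau F N where
  toFun f := f.coeff.sum (fun η a => a • Gmon i j η)
  map_add' f g := by
    rw [AddMonoidAlgebra.coeff_add, Finsupp.sum_add_index'] <;> intros <;> simp [add_smul]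
  map_smul' c f := by
    rw [AddMonoidAlgebra.coeff_smul, Finsupp.sum_smul_index' (by intro; simp), Finsupp.smul_sum]
    simp [mul_smul]

/-- `θ_i = x_i ∂_i - k ∑_{j ≠ i} G_{ij}`. -/
noncomputable def th (k : F) (i : Fin N) : Module.End F (Lau F N) :=
  eul i - k • ∑ j ∈ univ.erase i, G i j

/-- `Y_i = θ_i - k ∑_{j<i} s_{ij}`. -/
noncomputable def Y (k : F) (i : Fin N) : Module.End F (Lau F N) :=
  th k i - k • ∑ j ∈ Iio i, (act (Equiv.swap i j)).toLinearMap

/-- `C(u) = ∏_i (u - Y_i)`. -/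
noncomputable def Cop (k u : F) : Module.End F (Lau F N) :=
  (List.ofFn (fun i : Fin N => u • (1 : Module.End F (Lau F N)) - Y k i)).prod

/-- chosen Jack polynomial (`0` if `χ` is not non-increasing). -/
noncomputable def jackP (k : F) (χ : Fin N → ℤ) : Lau F N :=
  open Classical in if h : ∃ P, IsJack k χ P then h.choose else 0

end Pool.Agent.JL
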