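import Mathlib
import Pool.Agent.JL.Defs

/-!
# Jack–Laurent symmetric functions: definitions for the two moves
-/

namespace Pool.Agent.JL

open Finset

variable {F : Type*} [Field F] {N : ℕ}

/-- the linear form `a_{i,j} = λ_i + j + k (i + μ'_j - p₀)` (0-indexed; `A` is its product). -/
noncomputable def lf (k : F) (a b : ℤ) : Polynomial F :=
  Polynomial.C ((a : F) + k * (b : F)) - Polynomial.C k * Polynomial.X

noncomputable def A2 (k : F) (lam mu : YoungDiagram) : Polynomial F :=
  ∏ i ∈ range (lam.colLen 0), ∏ j ∈ range (mu.rowLen 0),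
    lf k ((lam.rowLen i : ℤ) + j) ((i : ℤ) + mu.colLen j)

/-- `λ` is obtained from `λ'` by adding the cell at the end of row `r`. -/
def AddCell (lam' lam : YoungDiagram) (r : ℕ) : Prop :=
  lam.cells = insert (r, lam'.rowLen r) lam'.cells

/-- columns `j` of `μ` containing a corner. -/
def cornerCols (mu : YoungDiagram) : Finset ℕ :=
  (range (mu.rowLen 0)).filter (fun j => mu.colLen (j + 1) < mu.colLen j)

end Pool.Agent.JL
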