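import Mathlib
import Pool.Agent.JL.Defs

/-! Dominance order lemmas and symmetric Laurent polynomials. -/

namespace Pool.Agent.JL

open Finset

variable {F : Type*} [Field F] {N : ℕ}

lemma IsSymm.coeff_comp {f : Lau F N} (hf : IsSymm f) (σ : Equiv.Perm (Fin N)) (η : Fin N → ℤ) :
    f.coeff (fun i => η (σ i)) = f.coeff η := by
  have h := hf σ
  have h2 : (act σ f).coeff η = f.coeff ((permE σ).symm η) := by
    unfold act
    rw [AddMonoidAlgebra.coeff_domCongr]
  rw [h] at h2
  rw [h2]
  rfl

lemma isSymm_iff_coeff {f : Lau F N} :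
    IsSymm f ↔ ∀ (σ : Equiv.Perm (Fin N)) (η : Fin N → ℤ), f.coeff (fun i => η (σ i)) = f.coeff η := by
  constructor
  · intro h σ η; exact h.coeff_comp σ η
  · intro h σ
    ext η
    unfold act
    rw [AddMonoidAlgebra.coeff_domCongr]
    exact h σ η

lemma IsSymm.zero : IsSymm (0 : Lau F N) := fun σ => by simp

lemma IsSymm.add {f g : Lau F N} (hf : IsSymm f) (hg : IsSymm g) : IsSymm (f + g) := fun σ => by
  rw [map_add, hf σ, hg σ]

lemma IsSymm.sub {f g : Lau F N} (hf : IsSymm f) (hg : IsSymm g) : IsSymm (f - g) := fun σ => by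
  rw [map_sub, hf σ, hg σ]

lemma IsSymm.smul {f : Lau F N} (c : F) (hf : IsSymm f) : IsSymm (c • f) := fun σ => by
  rw [map_smul, hf σ]

lemma IsSymm.mul {f g : Lau F N} (hf : IsSymm f) (hg : IsSymm g) : IsSymm (f * g) := fun σ => by
  rw [map_mul, hf σ, hg σ]

lemma IsSymm.sum {ι : Type*} (s : Finset ι) (f : ι → Lau F N) (hf : ∀ i ∈ s, IsSymm (f i)) :
    IsSymm (∑ i ∈ s, f i) := fun σ => by
  rw [map_sum]
  exact Finset.sum_congr rfl (fun i hi => hf i hi σ)

/-- `Dom` only depends on the orbit of `η`. -/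
lemma Dom.comp {η χ : Fin N → ℤ} (h : Dom η χ) (σ : Equiv.Perm (Fin N)) :
    Dom (fun i => η (σ i)) χ := by
  refine ⟨?_, fun I => ?_⟩
  · rw [← h.1]; exact Equiv.sum_comp σ η
  · have := h.2 (I.map σ.toEmbedding)
    rw [Finset.sum_map, Finset.card_map] at this
    simpa using this

lemma dom_comp_iff {η χ : Fin N → ℤ} (σ : Equiv.Perm (Fin N)) :
    Dom (fun i => η (σ i)) χ ↔ Dom η χ := by
  constructor
  · intro h
    have := h.comp σ.symm
    simpa using this
  · intro h; exact h.comp σ

/-- partial sum of the first `m` entries. -/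
def psm (η : Fin N → ℤ) (m : ℕ) : ℤ := ∑ i ∈ univ.filter (fun i : Fin N => (i : ℕ) < m), η i

lemma card_filter_lt (m : ℕ) (hm : m ≤ N) : (univ.filter (fun i : Fin N => (i : ℕ) < m)).card = m := by
  rw [Fin.card_filter_val_lt]
  exact min_eq_right hm

lemma Dom.psm_le {η χ : Fin N → ℤ} (h : Dom η χ) (m : ℕ) : psm η m ≤ psm χ m := by
  by_cases hm : m ≤ N
  · have := h.2 (univ.filter (fun i : Fin N => (i : ℕ) < m))
    rwa [card_filter_lt m hm] at this
  · have h1 : (univ.filter (fun i : Fin N => (i : ℕ) < m)) = univ := by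
      ext i
      simp only [mem_filter, mem_univ, true_and, iff_true]
      have := i.2
      omega
    unfold psm
    rw [h1]
    exact le_of_eq h.1

lemma psm_succ (η : Fin N → ℤ) (i : Fin N) : psm η ((i : ℕ) + 1) = psm η i + η i := by
  unfold psm
  have : (univ.filter (fun j : Fin N => (j : ℕ) < (i : ℕ) + 1))
      = insert i (univ.filter (fun j : Fin N => (j : ℕ) < (i : ℕ))) := by
    ext j
    simp only [mem_filter, mem_univ, true_and, mem_insert, Fin.ext_iff]
    omega
  rw [this, Finset.sum_insert (by simp)]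
  ring

/-- For antitone `η`, sums over `I` are bounded by partial sums. -/
lemma sum_le_psm {η : Fin N → ℤ} (hη : Antitone η) (I : Finset (Fin N)) :
    ∑ i ∈ I, η i ≤ psm η I.card := by
  classical
  -- compare I with the initial segment J of the same size
  set J := univ.filter (fun i : Fin N => (i : ℕ) < I.card) with hJ
  have hcard : J.card = I.card := card_filter_lt _ (by simpa using Finset.card_le_univ I)
  have h1 : ∑ i ∈ I, η i = ∑ i ∈ I ∩ J, η i + ∑ i ∈ I \ J, η i := by
    exact (Finset.sum_inter_add_sum_sdiff I J η).symm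
  have h2 : ∑ i ∈ J, η i = ∑ i ∈ I ∩ J, η i + ∑ i ∈ J \ I, η i := by
    rw [Finset.inter_comm]
    exact (Finset.sum_inter_add_sum_sdiff J I η).symm
  have hc : (I \ J).card = (J \ I).card := by
    have e1 := Finset.card_sdiff_add_card_inter I J
    have e2 := Finset.card_sdiff_add_card_inter J I
    rw [Finset.inter_comm] at e2
    omega
  unfold psm
  rw [← hJ, h1, h2]
  have key : ∑ i ∈ I \ J, η i ≤ ∑ i ∈ J \ I, η i := by
    by_cases hne : (I \ J).Nonempty
    · -- every element of I\J is ≥ every element of J\I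
      have hcpos : 0 < (J \ I).card := by rw [← hc]; exact hne.card_pos
      have hIcard : 0 < I.card := by
        obtain ⟨x, hx⟩ := hne
        exact Finset.card_pos.2 ⟨x, (Finset.mem_sdiff.1 hx).1⟩
      have hN : I.card - 1 < N := by
        have : I.card ≤ N := by simpa using Finset.card_le_univ I
        omega
      set c := η ⟨I.card - 1, hN⟩
      have hA : ∀ i ∈ I \ J, η i ≤ c := by
        intro i hi
        apply hη
        simp only [hJ, mem_sdiff, mem_filter, mem_univ, true_and, not_lt] at hi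
        rw [Fin.le_def]
        simp only
        omega
      have hB : ∀ i ∈ J \ I, c ≤ η i := by
        intro i hi
        apply hη
        simp only [hJ, mem_sdiff, mem_filter, mem_univ, true_and] at hi
        rw [Fin.le_def]
        simp only
        omega
      calc ∑ i ∈ I \ J, η i ≤ (I \ J).card • c := Finset.sum_le_card_nsmul _ _ _ hA
        _ = (J \ I).card • c := by rw [hc]
        _ ≤ ∑ i ∈ J \ I, η i := Finset.card_nsmul_le_sum _ _ _ hB
    · rw [Finset.not_nonempty_iff_eq_empty] at hne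
      have : J \ I = ∅ := by
        rw [← Finset.card_eq_zero, ← hc, hne]; simp
      rw [hne, this]
  linarith

lemma dom_refl {χ : Fin N → ℤ} (hχ : Antitone χ) : Dom χ χ := ⟨rfl, fun I => sum_le_psm hχ I⟩

lemma dom_self_antitone {χ : Fin N → ℤ} (h : Dom χ χ) : Antitone χ := by
  intro i j hij
  rcases eq_or_lt_of_le hij with h0 | h0
  · rw [h0]
  set J := univ.filter (fun l : Fin N => (l : ℕ) < (i : ℕ)) with hJ
  have hjJ : j ∉ J := by
    simp only [hJ, mem_filter, mem_univ, true_and, not_lt]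
    exact hij
  have hc : (insert j J).card = (i : ℕ) + 1 := by
    rw [Finset.card_insert_of_notMem hjJ, hJ, card_filter_lt _ i.2.le]
  have h1 := h.2 (insert j J)
  rw [hc, Finset.sum_insert hjJ] at h1
  have h2 := psm_succ χ i
  unfold psm at h2
  rw [← hJ] at h2
  rw [h2] at h1
  linarith

lemma dom_antitone_iff {η χ : Fin N → ℤ} (hη : Antitone η) :
    Dom η χ ↔ (∑ i, η i = ∑ i, χ i ∧ ∀ m, psm η m ≤ psm χ m) := by
  constructor
  · intro h; exact ⟨h.1, h.psm_le⟩
  · rintro ⟨h1, h2⟩
    exact ⟨h1, fun I => (sum_le_psm hη I).trans (h2 _)⟩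

lemma dom_trans {η ρ χ : Fin N → ℤ} (h1 : Dom η ρ) (h2 : Dom ρ χ) : Dom η χ :=
  ⟨h1.1.trans h2.1, fun I => (h1.2 I).trans (h2.psm_le _)⟩

/-- strictly monotone weight. -/
def wt (η : Fin N → ℤ) : ℤ := ∑ i : Fin N, psm η i

lemma Dom.wt_le {η χ : Fin N → ℤ} (h : Dom η χ) : wt η ≤ wt χ :=
  Finset.sum_le_sum (fun i _ => h.psm_le i)

lemma Dom.eq_of_wt {η χ : Fin N → ℤ} (h : Dom η χ) (hw : wt χ ≤ wt η) : η = χ := by
  have h1 : ∀ i ∈ (univ : Finset (Fin N)), psm η i = psm χ i := by
    exact (Finset.sum_eq_sum_iff_of_le (fun (i : Fin N) _ => h.psm_le i)).1 (le_antisymm h.wt_le hw)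
  have h2 : ∀ m ≤ N, psm η m = psm χ m := by
    intro m hm
    rcases Nat.lt_or_ge m N with hlt | hge
    · exact h1 ⟨m, hlt⟩ (mem_univ _)
    · have hmN : m = N := le_antisymm hm hge
      have h1 : (univ.filter (fun i : Fin N => (i : ℕ) < m)) = univ := by
        ext i
        simp only [mem_filter, mem_univ, true_and, iff_true]
        have := i.2
        omega
      unfold psm
      rw [h1]
      exact h.1
  ext i
  have e1 := psm_succ η i
  have e2 := psm_succ χ i
  have e3 := h2 ((i : ℕ) + 1) i.2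
  have e4 := h2 i i.2.le
  linarith

/-- sorting. -/
lemma exists_sort (η : Fin N → ℤ) : ∃ σ : Equiv.Perm (Fin N), Antitone (fun i => η (σ i)) := by
  refine ⟨(Tuple.sort (fun i => - η i)), ?_⟩
  have h := Tuple.monotone_sort (fun i => - η i)
  intro i j hij
  have := h hij
  simp only [Function.comp_apply, neg_le_neg_iff] at this
  exact this

lemma finite_dom (χ : Fin N → ℤ) : {η : Fin N → ℤ | Dom η χ}.Finite := by
  classical
  rcases Nat.eq_zero_or_pos N with h0 | hpos
  · subst h0
    exact Set.toFinite _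
  set M := psm χ 1
  set T := ∑ i, χ i
  have hub : ∀ η : Fin N → ℤ, Dom η χ → ∀ i, η i ≤ M := by
    intro η h i
    have := h.2 {i}
    rw [Finset.sum_singleton, Finset.card_singleton] at this
    exact this
  apply (Set.finite_Icc (fun _ : Fin N => T - (N - 1) * M) (fun _ => M)).subset
  intro η h
  refine ⟨fun i => ?_, fun i => hub η h i⟩
  have h1 : ∑ j, η j = T := h.1
  have h2 : ∑ j ∈ univ.erase i, η j ≤ (univ.erase i).card • M :=
    Finset.sum_le_card_nsmul _ _ _ (fun j _ => hub η h j)
  rw [Finset.card_erase_of_mem (mem_univ i), Finset.card_univ, Fintype.card_fin] at h2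
  have h3 := Finset.add_sum_erase univ η (mem_univ i)
  have h4 : ((N - 1 : ℕ) : ℤ) = (N : ℤ) - 1 := by omega
  rw [nsmul_eq_mul, h4] at h2
  simp only
  linarith

end Pool.Agent.JL
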