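import Mathlib
import Pool.Agent.JL.Defs
import Pool.Agent.JL.N2a

/-! The stable CMS operator and the symmetry `x → 1/x`. -/

namespace Pool.Agent.JL

open Finset

variable {F : Type*} [Field F] {N : ℕ}

lemma mon_zero : (mon (0 : Fin N → ℤ) : Lau F N) = 1 := rfl

lemma mon_mul (η ζ : Fin N → ℤ) : (mon η * mon ζ : Lau F N) = mon (η + ζ) := by
  unfold mon
  rw [AddMonoidAlgebra.single_mul_single, one_mul]

lemma coeff_mon' (η ζ : Fin N → ℤ) : (mon η : Lau F N).coeff ζ = if η = ζ then 1 else 0 := by
  classical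
  unfold mon
  rw [AddMonoidAlgebra.coeff_single, Finsupp.single_apply]

/-- induction on Laurent polynomials. -/
lemma lau_induction {p : Lau F N → Prop} (hm : ∀ η, p (mon η)) (h0 : p 0) (ha : ∀ f g, p f → p g → p (f + g))
    (hs : ∀ (c : F) f, p f → p (c • f)) (f : Lau F N) : p f := by
  classical
  have h1 := AddMonoidAlgebra.sum_coeff_single f
  rw [← h1]
  conv => 
    rw [Finsupp.sum]
  have : ∀ s : Finset (Fin N → ℤ), p (∑ η ∈ s, AddMonoidAlgebra.single η (f.coeff η)) := by
    intro s
    induction s using Finset.induction_on with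
    | empty => simpa using h0
    | insert a s has ih =>
      rw [Finset.sum_insert has]
      apply ha _ _ _ ih
      have : (AddMonoidAlgebra.single a (f.coeff a) : Lau F N) = f.coeff a • mon a := by
        unfold mon
        rw [AddMonoidAlgebra.smul_single, smul_eq_mul, mul_one]
      rw [this]
      exact hs _ _ (hm a)
  exact this _

/-- two linear maps agreeing on monomials are equal. -/
lemma lau_ext {M : Type*} [AddCommMonoid M] [Module F M] {S T : Lau F N →ₗ[F] M} (h : ∀ η, S (mon η) = T (mon η)) :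
    S = T := by
  refine LinearMap.ext (fun f => ?_)
  exact lau_induction (p := fun f => S f = T f) h (by rw [map_zero, map_zero])
    (fun f g hf hg => by rw [map_add, map_add, hf, hg]) (fun c f hf => by rw [map_smul, map_smul, hf]) f

lemma eul_mon (i : Fin N) (η : Fin N → ℤ) : eul i (mon η : Lau F N) = (η i : F) • mon η := by
  ext ζ
  rw [coeff_eul, AddMonoidAlgebra.coeff_smul, Finsupp.smul_apply, coeff_mon', smul_eq_mul]
  by_cases h : η = ζ
  · rw [h]
  · rw [if_neg h, mul_zero, mul_zero]

lemma eul_mul (i : Fin N) (f g : Lau F N) : eul i (f * g) = eul i f * g + f * eul i g := by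
  revert f
  apply lau_induction
  · intro η
    revert g
    apply lau_induction
    · intro ζ
      rw [mon_mul, eul_mon, eul_mon, eul_mon, Algebra.smul_mul_assoc, Algebra.mul_smul_comm, mon_mul, ← add_smul]
      congr 1
      rw [Pi.add_apply]
      push_cast
      ring
    · simp
    · intro g h hg hh
      rw [mul_add, map_add, hg, hh, map_add]; ring
    · intro c g hg
      rw [Algebra.mul_smul_comm, map_smul, hg, map_smul, smul_add, Algebra.mul_smul_comm, Algebra.mul_smul_comm]
  · simp
  · intro f h hf hh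
    rw [add_mul, map_add, hf, hh, map_add]; ring
  · intro c f hf
    rw [Algebra.smul_mul_assoc, map_smul, hf, map_smul, smul_add, Algebra.smul_mul_assoc, Algebra.smul_mul_assoc]

lemma eul_one (i : Fin N) : eul i (1 : Lau F N) = 0 := by
  rw [← mon_zero, eul_mon]; simp

lemma eul_algebraMap (i : Fin N) (c : F) : eul i (algebraMap F (Lau F N) c) = 0 := by
  rw [Algebra.algebraMap_eq_smul_one, map_smul, eul_one, smul_zero]

/-- the power sum in the stable ring, with `p_0 = X`. -/
noncomputable def pS (F : Type*) [Field F] (a : ℤ) : Stab F :=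
  if h : a = 0 then MvPolynomial.C Polynomial.X else MvPolynomial.X ⟨a, h⟩

lemma psum_zero : (psum N 0 : Lau F N) = algebraMap F (Lau F N) (N : F) := by
  unfold psum
  simp only [Pi.single_zero, mon_zero, Finset.sum_const, Finset.card_univ, Fintype.card_fin, map_natCast,
    nsmul_eq_mul, mul_one]

lemma phi_X (N : ℕ) (a : Idx) : (phi N (MvPolynomial.X a : Stab F)) = psum N a.1 := by
  unfold phi
  rw [MvPolynomial.coe_eval₂Hom, MvPolynomial.eval₂_X]

lemma phi_C (N : ℕ) (c : Polynomial F) : (phi N (MvPolynomial.C c : Stab F)) = algebraMap F (Lau F N) (c.eval (N : F)) := by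
  unfold phi
  rw [MvPolynomial.coe_eval₂Hom, MvPolynomial.eval₂_C]
  rfl

lemma phi_pS (N : ℕ) (a : ℤ) : phi N (pS F a) = psum N a := by
  unfold pS
  split_ifs with h
  · rw [phi_C, h, psum_zero, Polynomial.eval_X]
  · rw [phi_X]

lemma eul_psum (i : Fin N) (a : ℤ) : eul i (psum N a : Lau F N) = (a : F) • mon (Pi.single i a) := by
  unfold psum
  rw [map_sum, Finset.sum_eq_single i]
  · rw [eul_mon, Pi.single_eq_same]
  · intro j _ hj
    rw [eul_mon, Pi.single_eq_of_ne (Ne.symm hj)]
    simp
  · intro h; exact absurd (mem_univ i) h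

lemma single_add_single (i : Fin N) (a b : ℤ) : (Pi.single i a + Pi.single i b : Fin N → ℤ) = Pi.single i (a + b) := by
  rw [← Pi.single_add]

/-- the carré du champ of `f, h` is stable. -/
def Gam (f h : Stab F) : Prop :=
  ∃ g : Stab F, ∀ N : ℕ, ∑ i : Fin N, eul i (phi N f) * eul i (phi N h) = phi N g

lemma Gam.symm {f h : Stab F} (H : Gam f h) : Gam h f := by
  obtain ⟨g, hg⟩ := H
  refine ⟨g, fun N => ?_⟩
  rw [← hg]
  exact Finset.sum_congr rfl (fun i _ => mul_comm _ _)

lemma Gam.C (c : Polynomial F) (h : Stab F) : Gam (MvPolynomial.C c) h := by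
  refine ⟨0, fun N => ?_⟩
  rw [map_zero]
  apply Finset.sum_eq_zero
  intro i _
  rw [phi_C, eul_algebraMap, zero_mul]

lemma Gam.add {f f' h : Stab F} (H : Gam f h) (H' : Gam f' h) : Gam (f + f') h := by
  obtain ⟨g, hg⟩ := H
  obtain ⟨g', hg'⟩ := H'
  refine ⟨g + g', fun N => ?_⟩
  rw [map_add, map_add, ← hg, ← hg', ← Finset.sum_add_distrib]
  apply Finset.sum_congr rfl
  intro i _
  rw [map_add]; ring

lemma Gam.mul {f f' h : Stab F} (H : Gam f h) (H' : Gam f' h) : Gam (f * f') h := by
  obtain ⟨g, hg⟩ := H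
  obtain ⟨g', hg'⟩ := H'
  refine ⟨g * f' + f * g', fun N => ?_⟩
  rw [map_add, map_mul, map_mul, map_mul, ← hg, ← hg', Finset.sum_mul, Finset.mul_sum, ← Finset.sum_add_distrib]
  apply Finset.sum_congr rfl
  intro i _
  rw [eul_mul]; ring

lemma Gam.X (a b : Idx) : Gam (MvPolynomial.X a : Stab F) (MvPolynomial.X b) := by
  refine ⟨MvPolynomial.C (Polynomial.C ((a.1 : F) * (b.1 : F))) * pS F (a.1 + b.1), fun N => ?_⟩
  rw [map_mul, phi_C, phi_pS, phi_X, phi_X, Polynomial.eval_C]
  simp only [eul_psum]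
  rw [← Algebra.smul_def]
  conv_rhs => rw [psum]
  rw [Finset.smul_sum]
  apply Finset.sum_congr rfl
  intro i _
  rw [Algebra.smul_mul_assoc, Algebra.mul_smul_comm, mon_mul, single_add_single, smul_smul]

lemma gam_all (f h : Stab F) : Gam f h := by
  have h1 : ∀ (a : Idx) (h : Stab F), Gam (MvPolynomial.X a) h := by
    intro a h
    apply Gam.symm
    induction h using MvPolynomial.induction_on with
    | C c => exact Gam.C c _
    | add f1 f2 h1 h2 => exact h1.add h2
    | mul_X f1 b h1 => exact h1.mul (Gam.X b a)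
  induction f using MvPolynomial.induction_on with
  | C c => exact Gam.C c _
  | add f1 f2 h1 h2 => exact h1.add h2
  | mul_X f1 b h2 => exact h2.mul (h1 b h)

/-- inversion `x → 1/x`. -/
noncomputable def inv : Lau F N ≃ₐ[F] Lau F N := AddMonoidAlgebra.domCongr F F (AddEquiv.neg (Fin N → ℤ))

lemma coeff_inv (f : Lau F N) (η : Fin N → ℤ) : (inv f).coeff η = f.coeff (-η) := by
  unfold inv
  rw [AddMonoidAlgebra.coeff_domCongr]
  rfl

lemma inv_mon (η : Fin N → ℤ) : inv (mon η : Lau F N) = mon (-η) := by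
  ext ζ
  rw [coeff_inv, coeff_mon', coeff_mon']
  simp only [neg_eq_iff_eq_neg]

lemma inv_inv (f : Lau F N) : inv (inv f) = f := by
  ext ζ
  rw [coeff_inv, coeff_inv, neg_neg]

lemma eul_inv (i : Fin N) (f : Lau F N) : eul i (inv f) = - inv (eul i f) := by
  ext ζ
  rw [coeff_eul, coeff_inv, AddMonoidAlgebra.coeff_neg, Finsupp.neg_apply, coeff_inv, coeff_eul, Pi.neg_apply]
  push_cast
  ring

lemma xv_mul_inv (i : Fin N) : (xv i : Lau F N) * inv (xv i) = 1 := by
  unfold xv
  rw [inv_mon, mon_mul, add_neg_cancel, mon_zero]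

/-- the CMS operator commutes with inversion. -/
lemma IsCMS.inv {k : F} {f g : Lau F N} (h : IsCMS k f g) : IsCMS k (inv f) (inv g) := by
  obtain ⟨D, hD, rfl⟩ := h
  refine ⟨fun i j => JL.inv (xv i * xv j * D i j), ?_, ?_⟩
  · intro i j
    show (xv i - xv j) * JL.inv (xv i * xv j * D i j) = _
    rw [eul_inv, eul_inv, map_mul, map_mul]
    have h1 := congrArg JL.inv (hD i j)
    rw [map_mul, map_sub, map_sub] at h1
    have h2 := xv_mul_inv (F := F) i
    have h3 := xv_mul_inv (F := F) j
    linear_combination (-1) * h1 + (JL.inv (xv j) * JL.inv (D i j)) * h2 - (JL.inv (xv i) * JL.inv (D i j)) * h3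
  · simp only [map_sub, map_smul, map_sum]
    congr 1
    · apply Finset.sum_congr rfl
      intro i _
      rw [eul_inv, map_neg, eul_inv, neg_neg]
    · congr 1
      apply Finset.sum_congr rfl
      intro i _
      apply Finset.sum_congr rfl
      intro j _
      rw [map_mul, map_mul, map_mul, map_add]
      have h2 := xv_mul_inv (F := F) i
      have h3 := xv_mul_inv (F := F) j
      linear_combination (-(JL.inv (xv j) * JL.inv (D i j))) * h2 - (JL.inv (xv i) * JL.inv (D i j)) * h3

lemma IsCMS.add {k : F} {f g f' g' : Lau F N} (h : IsCMS k f g) (h' : IsCMS k f' g') :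
    IsCMS k (f + f') (g + g') := by
  obtain ⟨D, hD, rfl⟩ := h
  obtain ⟨D', hD', rfl⟩ := h'
  refine ⟨fun i j => D i j + D' i j, ?_, ?_⟩
  · intro i j
    rw [mul_add, hD, hD', map_add, map_add]; ring
  · simp only [map_add, mul_add, Finset.sum_add_distrib, smul_add]
    ring

lemma IsCMS.smul {k : F} {f g : Lau F N} (c : F) (h : IsCMS k f g) : IsCMS k (c • f) (c • g) := by
  obtain ⟨D, hD, rfl⟩ := h
  refine ⟨fun i j => c • D i j, ?_, ?_⟩
  · intro i j
    rw [Algebra.mul_smul_comm, hD, map_smul, map_smul, smul_sub]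
  · simp only [map_smul, Algebra.mul_smul_comm, ← Finset.smul_sum, smul_sub]
    rw [smul_comm k c]

lemma IsCMS.sub {k : F} {f g f' g' : Lau F N} (h : IsCMS k f g) (h' : IsCMS k f' g') :
    IsCMS k (f - f') (g - g') := by
  have := h.add (h'.smul (-1))
  rwa [neg_one_smul, neg_one_smul, ← sub_eq_add_neg, ← sub_eq_add_neg] at this

lemma IsCMS.mul {k : F} {f g f' g' : Lau F N} (h : IsCMS k f g) (h' : IsCMS k f' g') :
    IsCMS k (f * f') (f * g' + g * f' + 2 * ∑ i, eul i f * eul i f') := by
  obtain ⟨D, hD, rfl⟩ := h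
  obtain ⟨D', hD', rfl⟩ := h'
  refine ⟨fun i j => f * D' i j + D i j * f', ?_, ?_⟩
  · intro i j
    rw [eul_mul, eul_mul]
    linear_combination f * hD' i j + f' * hD i j
  · rw [mul_sub, sub_mul, Finset.mul_sum, Finset.sum_mul, Algebra.mul_smul_comm, Algebra.smul_mul_assoc,
      Finset.mul_sum, Finset.mul_sum, Finset.sum_mul]
    have e1 : ∑ i : Fin N, eul i (eul i (f * f'))
        = ∑ i, f * eul i (eul i f') + ∑ i, eul i (eul i f) * f' + ∑ i, 2 * (eul i f * eul i f') := by
      rw [← Finset.sum_add_distrib, ← Finset.sum_add_distrib]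
      apply Finset.sum_congr rfl
      intro i _
      rw [eul_mul, map_add, eul_mul, eul_mul]; ring
    have e2 : ∑ i : Fin N, ∑ j ∈ Ioi i, (xv i + xv j) * (f * D' i j + D i j * f')
        = ∑ i : Fin N, f * ∑ j ∈ Ioi i, (xv i + xv j) * D' i j + ∑ i : Fin N, (∑ j ∈ Ioi i, (xv i + xv j) * D i j) * f' := by
      rw [← Finset.sum_add_distrib]
      apply Finset.sum_congr rfl
      intro i _
      rw [Finset.mul_sum, Finset.sum_mul, ← Finset.sum_add_distrib]
      apply Finset.sum_congr rfl
      intro j _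
      ring
    rw [e1, e2, smul_add]
    ring

lemma IsCMS.const (k : F) (c : F) : IsCMS k (algebraMap F (Lau F N) c) 0 := by
  refine ⟨fun _ _ => 0, ?_, ?_⟩
  · intro i j
    rw [eul_algebraMap, eul_algebraMap, sub_self, mul_zero]
  · simp only [eul_algebraMap, map_zero, mul_zero, Finset.sum_const_zero, smul_zero, sub_zero]

lemma sum_pairs {M : Type*} [AddCommGroup M] (A : Fin N → Fin N → M) :
    ∑ i, ∑ j ∈ Ioi i, (A i j + A j i) = ∑ i, ∑ j, A i j - ∑ i, A i i := by
  have h1 : ∀ i : Fin N, ∑ j, A i j = ∑ j ∈ Ioi i, A i j + ∑ j ∈ Iio i, A i j + A i i := by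
    intro i
    have hd : Disjoint (Ioi i) (Iio i) := by
      rw [Finset.disjoint_left]
      intro a ha hb
      rw [mem_Ioi] at ha
      rw [mem_Iio] at hb
      exact absurd ha (not_lt.2 hb.le)
    have hu : (univ : Finset (Fin N)) = insert i (Ioi i ∪ Iio i) := by
      ext a
      simp only [mem_univ, mem_insert, mem_union, mem_Ioi, mem_Iio, true_iff]
      rcases lt_trichotomy a i with h | h | h
      · exact Or.inr (Or.inr h)
      · exact Or.inl h
      · exact Or.inr (Or.inl h)
    rw [hu, Finset.sum_insert (by simp), Finset.sum_union hd, add_comm]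
  have h2 : ∑ i : Fin N, ∑ j ∈ Iio i, A i j = ∑ i : Fin N, ∑ j ∈ Ioi i, A j i := by
    apply Finset.sum_comm'
    intro x y
    simp
  simp only [h1, Finset.sum_add_distrib]
  rw [h2]
  abel

lemma mon_smul_pow (i : Fin N) (a : ℕ) : (mon (Pi.single i (a : ℤ)) : Lau F N) = xv i ^ a := by
  induction a with
  | zero => simp [mon_zero]
  | succ a ih =>
    rw [pow_succ, ← ih]
    unfold xv
    rw [mon_mul, single_add_single]
    push_cast
    rfl

/-- the CMS operator on `p_a`, `a > 0`. -/
lemma cms_psum (k : F) (a : ℕ) (ha : 0 < a) :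
    IsCMS k (psum N (a : ℤ) : Lau F N)
      (((a : F) ^ 2) • psum N (a : ℤ) - (k * a) • (∑ r ∈ range a, psum N ((a : ℤ) - r) * psum N (r : ℤ) - (a : F) • psum N (a : ℤ))) := by
  refine ⟨fun i j => (a : F) • ∑ r ∈ range a, xv i ^ r * xv j ^ (a - 1 - r), ?_, ?_⟩
  · intro i j
    rw [eul_psum, eul_psum, mon_smul_pow, mon_smul_pow, Algebra.mul_smul_comm, ← smul_sub, Int.cast_natCast]
    congr 1
    exact (Commute.all _ _).mul_geom_sum₂ a
  · congr 1
    · rw [psum, Finset.smul_sum]
      apply Finset.sum_congr rfl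
      intro i _
      rw [← psum, eul_psum, map_smul, eul_mon, Pi.single_eq_same, smul_smul, Int.cast_natCast, pow_two]
    · rw [mul_smul]
      congr 1
      have e1 : ∀ i j : Fin N, (xv i + xv j : Lau F N) * ((a : F) • ∑ r ∈ range a, xv i ^ r * xv j ^ (a - 1 - r))
          = (a : F) • ∑ r ∈ range a, xv i ^ (a - r) * xv j ^ r + (a : F) • ∑ r ∈ range a, xv j ^ (a - r) * xv i ^ r := by
        intro i j
        rw [Algebra.mul_smul_comm, ← smul_add]
        congr 1
        rw [add_mul, Finset.mul_sum, Finset.mul_sum]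
        have r1 : ∑ r ∈ range a, (xv i : Lau F N) * (xv i ^ r * xv j ^ (a - 1 - r)) = ∑ r ∈ range a, xv i ^ (a - r) * xv j ^ r := by
          rw [← Finset.sum_range_reflect]
          apply Finset.sum_congr rfl
          intro r hr
          rw [mem_range] at hr
          have q1 : a - 1 - (a - 1 - r) = r := by omega
          have q2 : a - r = (a - 1 - r) + 1 := by omega
          rw [q1, q2, pow_succ]; ring
        have r2 : ∑ r ∈ range a, (xv j : Lau F N) * (xv i ^ r * xv j ^ (a - 1 - r)) = ∑ r ∈ range a, xv j ^ (a - r) * xv i ^ r := by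
          apply Finset.sum_congr rfl
          intro r hr
          rw [mem_range] at hr
          have q2 : a - r = (a - 1 - r) + 1 := by omega
          rw [q2, pow_succ]; ring
        rw [r1, r2]
      simp only [e1]
      rw [sum_pairs (fun i j : Fin N => (a : F) • ∑ r ∈ range a, (xv i : Lau F N) ^ (a - r) * xv j ^ r)]
      rw [smul_sub]
      congr 1
      · simp only [← Finset.smul_sum]
        congr 1
        have : ∀ r ∈ range a, (psum N ((a : ℤ) - r) * psum N (r : ℤ) : Lau F N) = ∑ i : Fin N, ∑ j : Fin N, xv i ^ (a - r) * xv j ^ r := by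
          intro r hr
          rw [mem_range] at hr
          have q : ((a : ℤ) - r) = ((a - r : ℕ) : ℤ) := by omega
          rw [q]
          unfold psum
          rw [Finset.sum_mul_sum]
          simp only [mon_smul_pow]
        rw [Finset.sum_congr rfl this, Finset.sum_comm]
        apply Finset.sum_congr rfl
        intro i _
        rw [Finset.sum_comm]
      · rw [← Finset.smul_sum]
        congr 1
        unfold psum
        rw [Finset.smul_sum]
        apply Finset.sum_congr rfl
        intro i _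
        have : ∀ r ∈ range a, (xv i : Lau F N) ^ (a - r) * xv i ^ r = xv i ^ a := by
          intro r hr
          rw [mem_range] at hr
          rw [← pow_add]; congr 1; omega
        rw [Finset.sum_congr rfl this, Finset.sum_const, Finset.card_range, mon_smul_pow, Nat.cast_smul_eq_nsmul]

lemma psum_inv (a : ℤ) : inv (psum N a : Lau F N) = psum N (-a) := by
  unfold psum
  rw [map_sum]
  apply Finset.sum_congr rfl
  intro i _
  rw [inv_mon, Pi.single_neg]

/-- **stable CMS operator**, existence form. -/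
theorem stable_exists (k : F) (f : Stab F) : ∃ g : Stab F, ∀ N, IsCMS k (phi N f) (phi N g) := by
  induction f using MvPolynomial.induction_on with
  | C c => exact ⟨0, fun N => by rw [phi_C, map_zero]; exact IsCMS.const k _⟩
  | add f1 f2 h1 h2 =>
    obtain ⟨g1, h1⟩ := h1
    obtain ⟨g2, h2⟩ := h2
    exact ⟨g1 + g2, fun N => by rw [map_add, map_add]; exact (h1 N).add (h2 N)⟩
  | mul_X f1 a h1 =>
    obtain ⟨g1, h1⟩ := h1
    have h2 : ∃ g2 : Stab F, ∀ N, IsCMS k (psum N a.1 : Lau F N) (phi N g2) := by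
      obtain ⟨a, ha⟩ := a
      simp only
      rcases lt_or_gt_of_ne ha with hneg | hpos
      · obtain ⟨b, hb⟩ : ∃ b : ℕ, a = -(b : ℤ) := ⟨a.natAbs, by omega⟩
        have hb0 : 0 < b := by omega
        refine ⟨MvPolynomial.C (Polynomial.C ((b : F) ^ 2)) * pS F (-(b : ℤ))
          - MvPolynomial.C (Polynomial.C (k * b)) * (∑ r ∈ range b, pS F (-((b : ℤ) - r)) * pS F (-(r : ℤ))
            - MvPolynomial.C (Polynomial.C (b : F)) * pS F (-(b : ℤ))), fun N => ?_⟩
        have h := (cms_psum (N := N) k b hb0).inv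
        rw [psum_inv, map_sub, map_smul, map_smul, map_sub, map_smul, map_sum] at h
        rw [hb]
        convert h using 1
        simp only [map_sub, map_mul, map_sum, phi_C, phi_pS, Polynomial.eval_C, psum_inv, Algebra.smul_def]
      · obtain ⟨b, hb⟩ : ∃ b : ℕ, a = (b : ℤ) := ⟨a.natAbs, by omega⟩
        have hb0 : 0 < b := by omega
        refine ⟨MvPolynomial.C (Polynomial.C ((b : F) ^ 2)) * pS F (b : ℤ)
          - MvPolynomial.C (Polynomial.C (k * b)) * (∑ r ∈ range b, pS F ((b : ℤ) - r) * pS F (r : ℤ)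
            - MvPolynomial.C (Polynomial.C (b : F)) * pS F (b : ℤ)), fun N => ?_⟩
        have h := (cms_psum (N := N) k b hb0)
        rw [hb]
        convert h using 1
        simp only [map_sub, map_mul, map_sum, phi_C, phi_pS, Polynomial.eval_C, Algebra.smul_def]
    obtain ⟨g2, h2⟩ := h2
    obtain ⟨g3, h3⟩ := gam_all f1 (MvPolynomial.X a : Stab F)
    refine ⟨f1 * g2 + g1 * MvPolynomial.X a + 2 * g3, fun N => ?_⟩
    have h := (h1 N).mul (h2 N)
    rw [← phi_X] at h
    rw [h3 N] at h
    simp only [map_add, map_mul, map_ofNat]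
    exact h

lemma act_mon (σ : Equiv.Perm (Fin N)) (η : Fin N → ℤ) : act σ (mon η : Lau F N) = mon (permE σ η) := by
  unfold act mon
  rw [AddMonoidAlgebra.domCongr_single]

lemma permE_single (σ : Equiv.Perm (Fin N)) (i : Fin N) (a : ℤ) : permE σ (Pi.single i a) = Pi.single (σ i) a := by
  ext l
  change (Pi.single i a : Fin N → ℤ) (σ.symm l) = _
  by_cases h : l = σ i
  · rw [h]; simp
  · rw [Pi.single_eq_of_ne h, Pi.single_eq_of_ne]
    intro h2; apply h; rw [← h2]; simp

theorem phi_symm (N : ℕ) (f : Stab F) : IsSymm (phi N f) := by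
  induction f using MvPolynomial.induction_on with
  | C c =>
    intro σ
    rw [phi_C, AlgEquiv.commutes]
  | add f1 f2 h1 h2 => rw [map_add]; exact h1.add h2
  | mul_X f1 a h1 =>
    rw [map_mul, phi_X]
    apply h1.mul
    intro σ
    unfold psum
    rw [map_sum]
    simp only [act_mon, permE_single]
    exact Equiv.sum_comp σ (fun i => (mon (Pi.single i a.1) : Lau F N))

lemma Dom.neg {η χ : Fin N → ℤ} (h : Dom (-η) χ) : Dom η (fun i : Fin N => - χ i.rev) := by
  have hs : ∑ i : Fin N, - χ i.rev = - ∑ i, χ i := by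
    rw [Finset.sum_neg_distrib]
    congr 1
    exact Equiv.sum_comp Fin.revPerm χ
  have h1 : - ∑ i, η i = ∑ i, χ i := by
    rw [← h.1, ← Finset.sum_neg_distrib]; rfl
  refine ⟨by rw [hs, ← h1, neg_neg], fun I => ?_⟩
  have h2 := h.2 Iᶜ
  have h3 : ∑ i ∈ Iᶜ, (-η) i = - ∑ i ∈ Iᶜ, η i := by
    rw [← Finset.sum_neg_distrib]; rfl
  rw [h3] at h2
  have h4 := Finset.sum_add_sum_compl I η
  have h5 : ∑ i ∈ univ.filter (fun i : Fin N => (i : ℕ) < I.card), - χ i.rev
      = ∑ i ∈ univ.filter (fun i : Fin N => ¬ (i : ℕ) < Iᶜ.card), - χ i := by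
    apply Finset.sum_bij (fun i _ => i.rev)
    · intro i hi
      rw [mem_filter] at hi ⊢
      refine ⟨mem_univ _, ?_⟩
      rw [Finset.card_compl, Fintype.card_fin, Fin.val_rev]
      have := i.2
      omega
    · intro i _ j _ hij
      exact Fin.rev_injective hij
    · intro i hi
      refine ⟨i.rev, ?_, Fin.rev_rev i⟩
      rw [mem_filter] at hi ⊢
      refine ⟨mem_univ _, ?_⟩
      have h6 := hi.2
      rw [Finset.card_compl, Fintype.card_fin] at h6
      rw [Fin.val_rev]
      have := i.2
      have : I.card ≤ N := by simpa using Finset.card_le_univ I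
      omega
    · intro i _; rfl
  rw [h5, Finset.sum_neg_distrib]
  have h6 := Finset.sum_filter_add_sum_filter_not univ (fun i : Fin N => (i : ℕ) < Iᶜ.card) χ
  linarith

lemma IsJack.inv {k : F} {χ : Fin N → ℤ} {P : Lau F N} (h : IsJack k χ P) :
    IsJack k (fun i => - χ i.rev) (inv P) := by
  obtain ⟨h1, h2, h3, c, h4⟩ := h
  refine ⟨?_, ?_, ?_, c, ?_⟩
  · rw [isSymm_iff_coeff]
    intro σ η
    rw [coeff_inv, coeff_inv]
    exact h1.coeff_comp σ (-η)
  · rw [coeff_inv]
    have : (-fun i : Fin N => - χ i.rev) = (fun i => χ (Fin.revPerm i)) := by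
      ext i; simp
    rw [this, h1.coeff_comp, h2]
  · intro η hη
    rw [coeff_inv] at hη
    exact (h3 _ hη).neg
  · have := h4.inv
    rwa [map_smul] at this

lemma phi_rename (N : ℕ) (Q : Stab F) :
    phi N (MvPolynomial.rename (fun a : Idx => (⟨-a.1, by simpa using a.2⟩ : Idx)) Q) = inv (phi N Q) := by
  induction Q using MvPolynomial.induction_on with
  | C c => rw [MvPolynomial.rename_C, phi_C, AlgEquiv.commutes]
  | add f1 f2 h1 h2 => rw [map_add, map_add, h1, h2, map_add, map_add]
  | mul_X f1 a h1 => rw [map_mul, map_mul, h1, MvPolynomial.rename_X, map_mul, map_mul, phi_X, phi_X, psum_inv]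

theorem rep_swap (k : F) (lam mu : YoungDiagram) (D : Polynomial F) (h : Rep k lam mu D) :
    Rep k mu lam D := by
  obtain ⟨Q, N₀, hQ⟩ := h
  refine ⟨MvPolynomial.rename (fun a : Idx => (⟨-a.1, by simpa using a.2⟩ : Idx)) Q, N₀, fun N hN P hP => ?_⟩
  have h1 := hP.inv
  have h2 : (fun i : Fin N => - chi mu lam N i.rev) = chi lam mu N := by
    ext i
    unfold chi
    rw [Fin.val_rev]
    have := i.2
    have e : N - 1 - (N - (i + 1)) = (i : ℕ) := by omega
    have e2 : N - (i + 1) = N - 1 - (i : ℕ) := by omega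
    rw [e, e2]
    ring
  rw [h2] at h1
  have h3 := hQ N hN _ h1
  rw [phi_rename, h3, map_smul, inv_inv]

end Pool.Agent.JL
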