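import Mathlib
import Pool.Agent.JL.Defs
import Pool.Agent.JL.N2a
import Pool.Agent.JL.S

/-! Dunkl relations. -/

namespace Pool.Agent.JL

open Finset

variable {F : Type*} [Field F] {N : ℕ}

lemma permE_swap (i j : Fin N) (η : Fin N → ℤ) : permE (Equiv.swap i j) η = swE i j η := by
  ext l
  change η ((Equiv.swap i j).symm l) = η (Equiv.swap i j l)
  rw [Equiv.symm_swap]

lemma swE_eq (i j : Fin N) (η : Fin N → ℤ) :
    swE i j η = η - (η i - η j) • (Pi.single i 1 - Pi.single j 1 : Fin N → ℤ) := by
  ext l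
  unfold swE
  simp only [Pi.sub_apply, Pi.smul_apply, smul_eq_mul]
  by_cases hi : l = i
  · subst hi
    rw [Equiv.swap_apply_left, Pi.single_eq_same]
    by_cases hj : l = j
    · subst hj; simp
    · rw [Pi.single_eq_of_ne hj]; ring
  · by_cases hj : l = j
    · subst hj
      rw [Equiv.swap_apply_right, Pi.single_eq_same, Pi.single_eq_of_ne hi]; ring
    · rw [Equiv.swap_apply_of_ne_of_ne hi hj, Pi.single_eq_of_ne hi, Pi.single_eq_of_ne hj]; ring

/-- telescoping. -/
lemma tele (i j : Fin N) (η : Fin N → ℤ) (n : ℕ) :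
    (xv i - xv j : Lau F N) * ∑ t ∈ range n, mon (η - (t : ℤ) • (Pi.single i 1 - Pi.single j 1)) =
      xv i * (mon η - mon (η - (n : ℤ) • (Pi.single i 1 - Pi.single j 1))) := by
  induction n with
  | zero => simp
  | succ n ih =>
    rw [Finset.sum_range_succ, mul_add, ih]
    unfold xv
    simp only [sub_mul, mul_sub, mon_mul]
    have : (Pi.single j 1 + (η - (n : ℤ) • (Pi.single i 1 - Pi.single j 1)) : Fin N → ℤ)
        = Pi.single i 1 + (η - ((n + 1 : ℕ) : ℤ) • (Pi.single i 1 - Pi.single j 1)) := by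
      push_cast
      rw [add_smul, one_smul]
      abel
    rw [this]
    abel

lemma Gmon_spec (i j : Fin N) (η : Fin N → ℤ) :
    (xv i - xv j : Lau F N) * Gmon i j η = xv i * (mon η - mon (swE i j η)) := by
  unfold Gmon
  split_ifs with h
  · rw [tele]
    have : (((η i - η j).toNat : ℕ) : ℤ) = η i - η j := Int.toNat_of_nonneg (by omega)
    rw [this, ← swE_eq]
  · rw [mul_neg, tele]
    have h1 : (((η j - η i).toNat : ℕ) : ℤ) = η j - η i := Int.toNat_of_nonneg (by omega)
    have h2 : swE i j η - (((η j - η i).toNat : ℕ) : ℤ) • (Pi.single i 1 - Pi.single j 1 : Fin N → ℤ) = η := by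
      rw [h1, swE_eq]
      have : η j - η i = - (η i - η j) := by ring
      rw [this, neg_smul]
      abel
    rw [h2]
    ring

lemma G_mon (i j : Fin N) (η : Fin N → ℤ) : G i j (mon η : Lau F N) = Gmon i j η := by
  change (mon η : Lau F N).coeff.sum (fun η a => a • Gmon i j η) = _
  unfold mon
  rw [AddMonoidAlgebra.coeff_single, Finsupp.sum_single_index (by simp), one_smul]

/-- defining property of `G`. -/
theorem G_spec (i j : Fin N) (f : Lau F N) :
    (xv i - xv j) * G i j f = xv i * (f - act (Equiv.swap i j) f) := by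
  revert f
  apply lau_induction
  · intro η
    rw [G_mon, Gmon_spec, act_mon, permE_swap]
  · rw [map_zero, mul_zero, map_zero, sub_zero, mul_zero]
  · intro f g hf hg
    rw [map_add, mul_add, hf, hg, map_add]; ring
  · intro c f hf
    rw [map_smul, Algebra.mul_smul_comm, hf, map_smul, ← smul_sub, Algebra.mul_smul_comm]

lemma xv_ne {i j : Fin N} (hij : i ≠ j) : (xv i - xv j : Lau F N) ≠ 0 := by
  intro h
  have h1 := congrArg (fun f : Lau F N => f.coeff (Pi.single i 1)) h
  rw [AddMonoidAlgebra.coeff_sub, Finsupp.sub_apply] at h1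
  unfold xv at h1
  rw [coeff_mon', coeff_mon', if_pos rfl, if_neg] at h1
  · simp at h1
  · intro h2
    have h3 := congrFun h2 i
    rw [Pi.single_eq_same, Pi.single_eq_of_ne hij] at h3
    exact zero_ne_one h3

instance : IsDomain (Lau F N) := inferInstance

/-- `(x_i - x_j)` is cancellable. -/
theorem xv_sub_cancel {i j : Fin N} (hij : i ≠ j) {f g : Lau F N}
    (h : (xv i - xv j) * f = (xv i - xv j) * g) : f = g :=
  mul_left_cancel₀ (xv_ne hij) h

lemma act_xv (σ : Equiv.Perm (Fin N)) (i : Fin N) : act σ (xv i : Lau F N) = xv (σ i) := by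
  unfold xv
  rw [act_mon, permE_single]

lemma act_mul_apply (σ τ : Equiv.Perm (Fin N)) (f : Lau F N) : act σ (act τ f) = act (σ * τ) f := by
  revert f
  apply lau_induction
  · intro η
    rw [act_mon, act_mon, act_mon]; rfl
  · simp
  · intro f g hf hg
    rw [map_add, map_add, hf, hg, map_add]
  · intro c f hf
    rw [map_smul, map_smul, hf, map_smul]

lemma act_one_apply (f : Lau F N) : act (1 : Equiv.Perm (Fin N)) f = f := by
  revert f
  apply lau_induction
  · intro η
    rw [act_mon]; rfl
  · simp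
  · intro f g hf hg
    rw [map_add, hf, hg]
  · intro c f hf
    rw [map_smul, hf]

lemma act_swap_swap (i j : Fin N) (f : Lau F N) : act (Equiv.swap i j) (act (Equiv.swap i j) f) = f := by
  rw [act_mul_apply, Equiv.swap_mul_self, act_one_apply]

/-- conjugation of transpositions. -/
lemma act_swap (σ : Equiv.Perm (Fin N)) (i j : Fin N) (f : Lau F N) :
    act σ (act (Equiv.swap i j) f) = act (Equiv.swap (σ i) (σ j)) (act σ f) := by
  rw [act_mul_apply, act_mul_apply]
  congr 1
  rw [Equiv.mul_swap_eq_swap_mul]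

lemma act_eul (σ : Equiv.Perm (Fin N)) (i : Fin N) (f : Lau F N) : act σ (eul i f) = eul (σ i) (act σ f) := by
  revert f
  apply lau_induction
  · intro η
    rw [eul_mon, map_smul, act_mon, eul_mon]
    congr 2
    change η i = η (σ.symm (σ i))
    rw [Equiv.symm_apply_apply]
  · simp
  · intro f g hf hg
    rw [map_add, map_add, hf, hg, map_add, map_add]
  · intro c f hf
    rw [map_smul, map_smul, hf, map_smul, map_smul]

lemma act_G (σ : Equiv.Perm (Fin N)) {i j : Fin N} (hij : i ≠ j) (f : Lau F N) :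
    act σ (G i j f) = G (σ i) (σ j) (act σ f) := by
  have hij' : σ i ≠ σ j := fun h => hij (σ.injective h)
  apply xv_sub_cancel hij'
  rw [G_spec, ← act_xv, ← act_xv, ← map_sub, ← map_mul, G_spec, map_mul, map_sub, act_swap, act_xv]

theorem act_th (k : F) (σ : Equiv.Perm (Fin N)) (i : Fin N) (f : Lau F N) :
    act σ (th k i f) = th k (σ i) (act σ f) := by
  unfold th
  simp only [LinearMap.sub_apply, LinearMap.smul_apply, LinearMap.sum_apply]
  rw [map_sub, act_eul, map_smul, map_sum]
  congr 2
  have h1 : ∀ j ∈ univ.erase i, act σ (G i j f) = G (σ i) (σ j) (act σ f) := by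
    intro j hj
    exact act_G σ (Ne.symm (Finset.ne_of_mem_erase hj)) f
  rw [Finset.sum_congr rfl h1]
  apply Finset.sum_bij (fun j _ => σ j)
  · intro j hj
    rw [mem_erase] at hj ⊢
    exact ⟨fun h => hj.1 (σ.injective h), mem_univ _⟩
  · intro a _ b _ h
    exact σ.injective h
  · intro b hb
    refine ⟨σ.symm b, ?_, by simp⟩
    rw [mem_erase] at hb ⊢
    refine ⟨fun h => hb.1 ?_, mem_univ _⟩
    rw [← h]; simp
  · intro a _; rfl

lemma G_mul {i j : Fin N} (hij : i ≠ j) (f g : Lau F N) :
    G i j (f * g) = G i j f * act (Equiv.swap i j) g + f * G i j g := by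
  apply xv_sub_cancel hij
  have h1 := G_spec i j (f * g)
  have h2 := G_spec i j f
  have h3 := G_spec i j g
  rw [map_mul (act (Equiv.swap i j))] at h1
  linear_combination h1 - act (Equiv.swap i j) g * h2 - f * h3

lemma G_xv_left {i j : Fin N} (hij : i ≠ j) : G i j (xv i : Lau F N) = xv i := by
  apply xv_sub_cancel hij
  rw [G_spec, act_xv, Equiv.swap_apply_left]; ring

lemma G_xv_right {i j : Fin N} (hij : i ≠ j) : G i j (xv j : Lau F N) = - xv i := by
  apply xv_sub_cancel hij
  rw [G_spec, act_xv, Equiv.swap_apply_right]; ring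

lemma G_xv_of_ne {i j l : Fin N} (hij : i ≠ j) (h1 : l ≠ i) (h2 : l ≠ j) : G i j (xv l : Lau F N) = 0 := by
  apply xv_sub_cancel hij
  rw [G_spec, act_xv, Equiv.swap_apply_of_ne_of_ne h1 h2]; ring

lemma eul_xv_self (i : Fin N) : eul i (xv i : Lau F N) = xv i := by
  unfold xv
  rw [eul_mon, Pi.single_eq_same]; simp

lemma eul_xv_ne {i j : Fin N} (hij : i ≠ j) : eul i (xv j : Lau F N) = 0 := by
  unfold xv
  rw [eul_mon, Pi.single_eq_of_ne hij]; simp

lemma th_apply (k : F) (i : Fin N) (f : Lau F N) : th k i f = eul i f - k • ∑ j ∈ univ.erase i, G i j f := by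
  unfold th
  simp only [LinearMap.sub_apply, LinearMap.smul_apply, LinearMap.sum_apply]

theorem th_xv_ne (k : F) {i j : Fin N} (hij : i ≠ j) (f : Lau F N) :
    th k i (xv j * f) = xv j * th k i f + k • (xv i * act (Equiv.swap i j) f) := by
  rw [th_apply, th_apply, eul_mul, eul_xv_ne hij, zero_mul, zero_add]
  have hj : j ∈ univ.erase i := by simp [Ne.symm hij]
  rw [← Finset.add_sum_erase _ _ hj, ← Finset.add_sum_erase _ _ hj, G_mul hij, G_xv_right hij]
  have h1 : ∀ l ∈ (univ.erase i).erase j, G i l (xv j * f) = xv j * G i l f := by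
    intro l hl
    rw [mem_erase, mem_erase] at hl
    rw [G_mul (Ne.symm hl.2.1), G_xv_of_ne (Ne.symm hl.2.1) (Ne.symm hij) (Ne.symm hl.1), zero_mul, zero_add]
  rw [Finset.sum_congr rfl h1, ← Finset.mul_sum]
  simp only [smul_add, mul_sub, mul_add, Algebra.mul_smul_comm, neg_mul, smul_neg]
  ring

theorem th_xv_self (k : F) (i : Fin N) (f : Lau F N) :
    th k i (xv i * f) = xv i * th k i f + xv i * f
      - k • ∑ j ∈ univ.erase i, xv i * act (Equiv.swap i j) f := by
  rw [th_apply, th_apply, eul_mul, eul_xv_self]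
  have h1 : ∀ l ∈ univ.erase i, G i l (xv i * f) = xv i * act (Equiv.swap i l) f + xv i * G i l f := by
    intro l hl
    rw [mem_erase] at hl
    rw [G_mul (Ne.symm hl.1), G_xv_left (Ne.symm hl.1)]
  rw [Finset.sum_congr rfl h1, Finset.sum_add_distrib, ← Finset.mul_sum, ← Finset.mul_sum]
  simp only [smul_add, mul_sub, Algebra.mul_smul_comm]
  ring

lemma th_one (k : F) (i : Fin N) : th k i (1 : Lau F N) = 0 := by
  rw [th_apply, eul_one]
  have h1 : ∀ l ∈ univ.erase i, G i l (1 : Lau F N) = 0 := by
    intro l hl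
    rw [mem_erase] at hl
    apply xv_sub_cancel (Ne.symm hl.1)
    rw [G_spec, map_one]; simp
  rw [Finset.sum_congr rfl h1]; simp

/-- the operator `[θ_i,θ_j] - k (θ_i - θ_j) s_{ij}`. -/
noncomputable def Bop (k : F) (i j : Fin N) (f : Lau F N) : Lau F N :=
  th k i (th k j f) - th k j (th k i f) -
      k • (th k i (act (Equiv.swap i j) f) - th k j (act (Equiv.swap i j) f))

lemma Bop_swap (k : F) (i j : Fin N) (f : Lau F N) : Bop k i j f = - Bop k j i f := by
  unfold Bop
  rw [Equiv.swap_comm j i]
  simp only [smul_sub]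
  ring

lemma Bop_xv_other (k : F) {i j l : Fin N} (hij : i ≠ j) (hli : l ≠ i) (hlj : l ≠ j) (f : Lau F N) :
    Bop k i j (xv l * f) = xv l * Bop k i j f := by
  unfold Bop
  rw [th_xv_ne k (Ne.symm hlj), th_xv_ne k (Ne.symm hli), map_mul, act_xv, Equiv.swap_apply_of_ne_of_ne hli hlj,
    th_xv_ne k (Ne.symm hlj), th_xv_ne k (Ne.symm hli), map_add, map_add, map_smul, map_smul,
    th_xv_ne k (Ne.symm hli), th_xv_ne k (Ne.symm hlj), th_xv_ne k hij, th_xv_ne k (Ne.symm hij)]
  have a1 : act (Equiv.swap i l) (th k j f) = th k j (act (Equiv.swap i l) f) := by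
    rw [act_th, Equiv.swap_apply_of_ne_of_ne (Ne.symm hij) (Ne.symm hlj)]
  have a2 : act (Equiv.swap j l) (th k i f) = th k i (act (Equiv.swap j l) f) := by
    rw [act_th, Equiv.swap_apply_of_ne_of_ne hij (Ne.symm hli)]
  have a3 : act (Equiv.swap i l) (act (Equiv.swap i j) f) = act (Equiv.swap i j) (act (Equiv.swap j l) f) := by
    rw [act_swap (Equiv.swap i j) j l, Equiv.swap_apply_right, Equiv.swap_apply_of_ne_of_ne hli hlj]
  have a4 : act (Equiv.swap j l) (act (Equiv.swap i j) f) = act (Equiv.swap j i) (act (Equiv.swap i l) f) := by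
    rw [Equiv.swap_comm j i, act_swap (Equiv.swap i j) i l, Equiv.swap_apply_left, Equiv.swap_apply_of_ne_of_ne hli hlj]
  rw [a1, a2, a3, a4]
  simp only [Algebra.smul_def]
  ring

lemma Bop_xv_left (k : F) {i j : Fin N} (hij : i ≠ j) (f : Lau F N) :
    Bop k i j (xv i * f) = xv i * Bop k i j f := by
  unfold Bop
  rw [th_xv_ne k (Ne.symm hij), th_xv_self, map_mul, act_xv, Equiv.swap_apply_left,
    th_xv_ne k hij, th_xv_self k j, map_add, map_smul, th_xv_self k i, th_xv_ne k hij,
    map_sub, map_add, map_smul, map_sum, th_xv_ne k (Ne.symm hij), th_xv_ne k (Ne.symm hij)]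
  have hj : j ∈ univ.erase i := by simp [Ne.symm hij]
  have hi : i ∈ univ.erase j := by simp [hij]
  have e1 : ∑ l ∈ univ.erase i, th k j (xv i * act (Equiv.swap i l) f)
      = (xv i * th k j (act (Equiv.swap i j) f) + k • (xv j * f)) +
        ∑ l ∈ (univ.erase i).erase j, (xv i * th k j (act (Equiv.swap i l) f) + k • (xv j * act (Equiv.swap j i) (act (Equiv.swap i l) f))) := by
    rw [← Finset.add_sum_erase _ _ hj]
    congr 1
    · rw [th_xv_ne k (Ne.symm hij), Equiv.swap_comm j i, act_swap_swap]
    · apply Finset.sum_congr rfl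
      intro l hl
      rw [th_xv_ne k (Ne.symm hij)]
  have e2 : ∑ l ∈ univ.erase i, xv i * act (Equiv.swap i l) (th k j f)
      = xv i * th k i (act (Equiv.swap i j) f) + ∑ l ∈ (univ.erase i).erase j, xv i * th k j (act (Equiv.swap i l) f) := by
    rw [← Finset.add_sum_erase _ _ hj]
    congr 1
    · rw [act_th, Equiv.swap_apply_right]
    · apply Finset.sum_congr rfl
      intro l hl
      rw [mem_erase, mem_erase] at hl
      rw [act_th, Equiv.swap_apply_of_ne_of_ne (Ne.symm hij) (Ne.symm hl.1)]
  have e3 : ∑ l ∈ univ.erase j, xv j * act (Equiv.swap j l) (act (Equiv.swap i j) f)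
      = xv j * f + ∑ l ∈ (univ.erase i).erase j, xv j * act (Equiv.swap j i) (act (Equiv.swap i l) f) := by
    rw [← Finset.add_sum_erase _ _ hi]
    congr 1
    · rw [Equiv.swap_comm j i, act_swap_swap]
    · rw [Finset.erase_right_comm]
      apply Finset.sum_congr rfl
      intro l hl
      rw [mem_erase, mem_erase] at hl
      rw [Equiv.swap_comm j i, act_swap (Equiv.swap i j) i l, Equiv.swap_apply_left,
        Equiv.swap_apply_of_ne_of_ne hl.2.1 hl.1]
  have e4 : act (Equiv.swap j i) (th k i f) = th k j (act (Equiv.swap i j) f) := by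
    rw [Equiv.swap_comm j i, act_th, Equiv.swap_apply_left]
  rw [e1, e2, e3, e4, act_swap_swap, Finset.sum_add_distrib, ← Finset.smul_sum]
  simp only [Algebra.smul_def, Equiv.swap_comm j i, act_swap_swap]
  ring

lemma Bop_xv (k : F) {i j : Fin N} (hij : i ≠ j) (l : Fin N) (f : Lau F N) :
    Bop k i j (xv l * f) = xv l * Bop k i j f := by
  by_cases h1 : l = i
  · rw [h1]; exact Bop_xv_left k hij f
  · by_cases h2 : l = j
    · rw [h2, Bop_swap, Bop_xv_left k (Ne.symm hij), Bop_swap k i j]; ring
    · exact Bop_xv_other k hij h1 h2 f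

lemma mon_ind {p : (Fin N → ℤ) → Prop} (h0 : p 0) (h : ∀ (η : Fin N → ℤ) (l : Fin N), p η ↔ p (Pi.single l 1 + η)) (η : Fin N → ℤ) : p η := by
  -- induction on the sum of absolute values
  have key : ∀ (n : ℕ) (η : Fin N → ℤ), ∑ l, (η l).natAbs = n → p η := by
    intro n
    induction n with
    | zero =>
      intro η hη
      have : η = 0 := by
        ext l
        have := (Finset.sum_eq_zero_iff.1 hη) l (mem_univ l)
        simpa using this
      rw [this]; exact h0
    | succ n ih =>
      intro η hη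
      have hne : ∃ l, η l ≠ 0 := by
        by_contra hc
        push Not at hc
        rw [Finset.sum_eq_zero (fun l _ => by rw [hc l]; rfl)] at hη
        omega
      obtain ⟨l, hl⟩ := hne
      rcases lt_or_gt_of_ne hl with hneg | hpos
      · rw [h η l]
        apply ih
        rw [← Finset.add_sum_erase _ _ (mem_univ l)] at hη ⊢
        have : ∑ x ∈ univ.erase l, ((Pi.single l 1 + η : Fin N → ℤ) x).natAbs = ∑ x ∈ univ.erase l, (η x).natAbs := by
          apply Finset.sum_congr rfl
          intro x hx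
          rw [Pi.add_apply, Pi.single_eq_of_ne (Finset.ne_of_mem_erase hx), zero_add]
        rw [this, Pi.add_apply, Pi.single_eq_same]
        omega
      · have e : η = Pi.single l 1 + (η - Pi.single l 1) := by abel
        rw [e, ← h]
        apply ih
        rw [← Finset.add_sum_erase _ _ (mem_univ l)] at hη ⊢
        have : ∑ x ∈ univ.erase l, ((η - Pi.single l 1 : Fin N → ℤ) x).natAbs = ∑ x ∈ univ.erase l, (η x).natAbs := by
          apply Finset.sum_congr rfl
          intro x hx
          rw [Pi.sub_apply, Pi.single_eq_of_ne (Finset.ne_of_mem_erase hx), sub_zero]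
        rw [this, Pi.sub_apply, Pi.single_eq_same]
        omega
  exact key _ η rfl

lemma Bop_zero (k : F) {i j : Fin N} (hij : i ≠ j) (f : Lau F N) : Bop k i j f = 0 := by
  revert f
  apply lau_induction
  · apply mon_ind
    · rw [mon_zero]
      unfold Bop
      rw [map_one (act (Equiv.swap i j)), th_one, th_one, map_zero, map_zero]
      simp
    · intro η l
      rw [← mon_mul]
      change _ ↔ Bop k i j (xv l * mon η) = 0
      rw [Bop_xv k hij]
      constructor
      · intro h; rw [h, mul_zero]
      · intro h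
        have h2 := xv_mul_inv (F := F) l
        calc Bop k i j (mon η) = (xv l * inv (xv l)) * Bop k i j (mon η) := by rw [h2, one_mul]
          _ = inv (xv l) * (xv l * Bop k i j (mon η)) := by ring
          _ = 0 := by rw [h, mul_zero]
  · unfold Bop; simp
  · intro f g hf hg
    have : Bop k i j (f + g) = Bop k i j f + Bop k i j g := by
      unfold Bop
      simp only [map_add, smul_sub, smul_add]
      abel
    rw [this, hf, hg, add_zero]
  · intro c f hf
    have : Bop k i j (c • f) = c • Bop k i j f := by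
      unfold Bop
      simp only [map_smul, smul_sub, smul_comm k c]
    rw [this, hf, smul_zero]

theorem th_comm (k : F) (i j : Fin N) (f : Lau F N) :
    th k i (th k j f) - th k j (th k i f) =
      k • (th k i (act (Equiv.swap i j) f) - th k j (act (Equiv.swap i j) f)) := by
  by_cases hij : i = j
  · rw [hij]; simp
  · exact sub_eq_zero.1 (Bop_zero k hij f)

end Pool.Agent.JL
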