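import Mathlib
import Pool.Agent.JL.Defs
import Pool.Agent.JL.N2a
import Pool.Agent.JL.S
import Pool.Agent.JL.N1a

/-! Cherednik operators and the Pieri splitting. -/

namespace Pool.Agent.JL

open Finset

variable {F : Type*} [Field F] {N : ℕ}

/-- `∑_{j<i} s_{ij}`. -/
noncomputable def Jm (i : Fin N) (f : Lau F N) : Lau F N := ∑ j ∈ Iio i, act (Equiv.swap i j) f

lemma Y_apply (k : F) (i : Fin N) (f : Lau F N) : Y k i f = th k i f - k • Jm i f := by
  unfold Y Jm
  simp only [LinearMap.sub_apply, LinearMap.smul_apply, LinearMap.sum_apply]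
  rfl

lemma Jm_add (i : Fin N) (f g : Lau F N) : Jm i (f + g) = Jm i f + Jm i g := by
  unfold Jm
  simp only [map_add, Finset.sum_add_distrib]

lemma Jm_sub (i : Fin N) (f g : Lau F N) : Jm i (f - g) = Jm i f - Jm i g := by
  unfold Jm
  simp only [map_sub, Finset.sum_sub_distrib]

lemma Jm_smul (i : Fin N) (c : F) (f : Lau F N) : Jm i (c • f) = c • Jm i f := by
  unfold Jm
  simp only [map_smul, Finset.smul_sum]

lemma act_Jm {σ : Equiv.Perm (Fin N)} {j : Fin N} (h1 : σ j = j) (h2 : ∀ l, l < j ↔ σ l < j) (f : Lau F N) :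
    act σ (Jm j f) = Jm j (act σ f) := by
  unfold Jm
  rw [map_sum]
  apply Finset.sum_bij (fun l _ => σ l)
  · intro l hl
    rw [mem_Iio] at hl ⊢
    exact (h2 l).1 hl
  · intro a _ b _ h
    exact σ.injective h
  · intro b hb
    refine ⟨σ.symm b, ?_, by simp⟩
    rw [mem_Iio] at hb ⊢
    rw [h2]; simpa using hb
  · intro l _
    rw [act_swap, h1]

lemma act_Y {σ : Equiv.Perm (Fin N)} {j : Fin N} (h1 : σ j = j) (h2 : ∀ l, l < j ↔ σ l < j) (k : F) (f : Lau F N) :
    act σ (Y k j f) = Y k j (act σ f) := by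
  rw [Y_apply, map_sub, act_th, map_smul, act_Jm h1 h2, h1, Y_apply]

lemma swap_small {i m j : Fin N} (hi : i < j) (hm : m < j) :
    Equiv.swap i m j = j ∧ ∀ l, l < j ↔ Equiv.swap i m l < j := by
  refine ⟨Equiv.swap_apply_of_ne_of_ne (ne_of_gt hi) (ne_of_gt hm), fun l => ?_⟩
  by_cases h1 : l = i
  · rw [h1, Equiv.swap_apply_left]; exact ⟨fun _ => hm, fun _ => hi⟩
  · by_cases h2 : l = m
    · rw [h2, Equiv.swap_apply_right]; exact ⟨fun _ => hi, fun _ => hm⟩
    · rw [Equiv.swap_apply_of_ne_of_ne h1 h2]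

lemma Y_comm_lt (k : F) {i j : Fin N} (hij : i < j) (f : Lau F N) : Y k i (Y k j f) = Y k j (Y k i f) := by
  rw [Y_apply k i, Y_apply k j, Y_apply k j, Y_apply k i]
  rw [map_sub, map_sub, map_smul, map_smul, Jm_sub, Jm_sub, Jm_smul, Jm_smul]
  have h1 : Jm i (th k j f) = th k j (Jm i f) := by
    unfold Jm
    rw [map_sum]
    apply Finset.sum_congr rfl
    intro m hm
    rw [mem_Iio] at hm
    rw [act_th, Equiv.swap_apply_of_ne_of_ne (ne_of_gt hij) (ne_of_gt (hm.trans hij))]
  have h2 : th k i (Jm j f) - Jm j (th k i f) = th k i (act (Equiv.swap i j) f) - th k j (act (Equiv.swap i j) f) := by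
    unfold Jm
    have hi : i ∈ Iio j := by rw [mem_Iio]; exact hij
    rw [map_sum, ← Finset.add_sum_erase _ _ hi, ← Finset.add_sum_erase (Iio j) (fun l => act (Equiv.swap j l) (th k i f)) hi]
    have : ∑ x ∈ (Iio j).erase i, th k i (act (Equiv.swap j x) f) = ∑ x ∈ (Iio j).erase i, act (Equiv.swap j x) (th k i f) := by
      apply Finset.sum_congr rfl
      intro m hm
      rw [mem_erase] at hm
      rw [act_th, Equiv.swap_apply_of_ne_of_ne (ne_of_lt hij) (Ne.symm hm.1)]
    rw [this, act_th, Equiv.swap_apply_right, Equiv.swap_comm j i]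
    ring
  have h3 : Jm i (Jm j f) = Jm j (Jm i f) := by
    conv_lhs => unfold Jm
    conv_rhs => 
      rw [Jm]
    simp only [Jm]
    have : ∀ m ∈ Iio i, act (Equiv.swap i m) (∑ l ∈ Iio j, act (Equiv.swap j l) f)
        = ∑ l ∈ Iio j, act (Equiv.swap j l) (act (Equiv.swap i m) f) := by
      intro m hm
      rw [mem_Iio] at hm
      obtain ⟨a, b⟩ := swap_small hij (hm.trans hij)
      exact act_Jm a b f
    rw [Finset.sum_congr rfl this]
    rw [Finset.sum_comm]
    apply Finset.sum_congr rfl
    intro l _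
    rw [map_sum]
  have h4 := th_comm k i j f
  rw [h1, h3]
  have h5 : th k i (th k j f) - th k j (th k i f) = k • (th k i (Jm j f) - Jm j (th k i f)) := by
    rw [h4, h2]
  rw [smul_sub] at h5
  rw [sub_eq_iff_eq_add] at h5
  rw [h5]
  simp only [smul_sub]
  abel

theorem Y_comm (k : F) (i j : Fin N) : Commute (Y k i : Module.End F (Lau F N)) (Y k j) := by
  apply LinearMap.ext
  intro f
  rw [Module.End.mul_apply, Module.End.mul_apply]
  rcases lt_trichotomy i j with h | h | h
  · exact Y_comm_lt k h f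
  · rw [h]
  · exact (Y_comm_lt k h f).symm

/-- the commutative algebra generated by the `Y_i`. -/
noncomputable abbrev YA (F : Type*) [Field F] (N : ℕ) (k : F) : Subalgebra F (Module.End F (Lau F N)) :=
  Algebra.adjoin F (Set.range (Y k))

noncomputable instance (k : F) : CommRing (YA F N k) :=
  Algebra.adjoinCommRingOfComm F (by
    rintro _ ⟨i, rfl⟩ _ ⟨j, rfl⟩
    exact Y_comm k i j)

noncomputable def yv (k : F) (i : Fin N) : YA F N k := ⟨Y k i, Algebra.subset_adjoin ⟨i, rfl⟩⟩

/-- `C(u)` in the commutative algebra. -/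
noncomputable def copA (k u : F) : YA F N k := ∏ i : Fin N, (algebraMap F (YA F N k) u - yv k i)

lemma subA_apply (k u : F) (i : Fin N) (f : Lau F N) :
    ((algebraMap F (YA F N k) u - yv k i : YA F N k) : Module.End F (Lau F N)) f = u • f - Y k i f := rfl

lemma mulA_apply {k : F} (a b : YA F N k) (f : Lau F N) :
    ((a * b : YA F N k) : Module.End F (Lau F N)) f = (a : Module.End F (Lau F N)) ((b : Module.End F (Lau F N)) f) := rfl

lemma coe_copA (k u : F) : ((copA k u : YA F N k) : Module.End F (Lau F N)) = Cop k u := by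
  unfold copA Cop
  rw [← List.prod_ofFn]
  have h := map_list_prod (YA F N k).val (List.ofFn fun i : Fin N => algebraMap F (YA F N k) u - yv k i)
  rw [List.map_ofFn] at h
  rw [Subalgebra.val_apply] at h
  rw [h]
  congr 1

theorem Cop_comm (k u v : F) : Commute (Cop k u : Module.End F (Lau F N)) (Cop k v) := by
  rw [← coe_copA, ← coe_copA]
  have : copA k u * copA k v = copA k v * copA (N := N) k u := mul_comm _ _
  exact congrArg Subtype.val this

theorem Cop_Y_comm (k u : F) (i : Fin N) : Commute (Cop k u : Module.End F (Lau F N)) (Y k i) := by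
  rw [← coe_copA]
  have : copA k u * yv k i = yv k i * copA (N := N) k u := mul_comm _ _
  exact congrArg Subtype.val this

/-- commutation with a permutation. -/
def CS (σ : Equiv.Perm (Fin N)) (T : Module.End F (Lau F N)) : Prop := ∀ f, act σ (T f) = T (act σ f)

lemma CS.mul {σ : Equiv.Perm (Fin N)} {S T : Module.End F (Lau F N)} (hS : CS σ S) (hT : CS σ T) : CS σ (S * T) := by
  intro f
  rw [Module.End.mul_apply, Module.End.mul_apply, hS, hT]

lemma CS.add {σ : Equiv.Perm (Fin N)} {S T : Module.End F (Lau F N)} (hS : CS σ S) (hT : CS σ T) : CS σ (S + T) := by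
  intro f
  rw [LinearMap.add_apply, LinearMap.add_apply, map_add, hS, hT]

lemma CS.smul {σ : Equiv.Perm (Fin N)} (c : F) {T : Module.End F (Lau F N)} (hT : CS σ T) : CS σ (c • T) := by
  intro f
  rw [LinearMap.smul_apply, LinearMap.smul_apply, map_smul, hT]

lemma CS.one (σ : Equiv.Perm (Fin N)) : CS σ (1 : Module.End F (Lau F N)) := fun _ => rfl

section adj

variable {n : ℕ} (k : F) (i : Fin n)

lemma adj_Y (f : Lau F (n + 1)) :
    act (Equiv.swap i.castSucc i.succ) (Y k i.castSucc f)
      = Y k i.succ (act (Equiv.swap i.castSucc i.succ) f) + k • f := by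
  rw [Y_apply, Y_apply, map_sub, act_th, Equiv.swap_apply_left, map_smul]
  have h1 : act (Equiv.swap i.castSucc i.succ) (Jm i.castSucc f)
      = ∑ m ∈ Iio i.castSucc, act (Equiv.swap i.succ m) (act (Equiv.swap i.castSucc i.succ) f) := by
    unfold Jm
    rw [map_sum]
    apply Finset.sum_congr rfl
    intro m hm
    rw [mem_Iio] at hm
    have hm2 : m < i.succ := hm.trans Fin.castSucc_lt_succ
    rw [act_swap, Equiv.swap_apply_left, Equiv.swap_apply_of_ne_of_ne (ne_of_lt hm) (ne_of_lt hm2)]
  have h2 : Iio i.succ = insert i.castSucc (Iio i.castSucc) := by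
    ext m
    simp only [mem_Iio, mem_insert, Fin.lt_def, Fin.ext_iff, Fin.val_succ, Fin.val_castSucc]
    omega
  have h3 : Jm i.succ (act (Equiv.swap i.castSucc i.succ) f) = f
      + ∑ m ∈ Iio i.castSucc, act (Equiv.swap i.succ m) (act (Equiv.swap i.castSucc i.succ) f) := by
    conv_lhs => unfold Jm
    rw [h2, Finset.sum_insert (by simp), Equiv.swap_comm i.succ i.castSucc, act_swap_swap]
  rw [h1, h3, smul_add]
  abel

lemma adj_Y' (f : Lau F (n + 1)) :
    act (Equiv.swap i.castSucc i.succ) (Y k i.succ f)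
      = Y k i.castSucc (act (Equiv.swap i.castSucc i.succ) f) - k • f := by
  have h := adj_Y k i (act (Equiv.swap i.castSucc i.succ) f)
  rw [act_swap_swap] at h
  have h2 := congrArg (act (Equiv.swap i.castSucc i.succ)) h
  rw [act_swap_swap, map_add, map_smul, act_swap_swap] at h2
  rw [h2]
  abel

lemma adj_Y_other {j : Fin (n + 1)} (h1 : j ≠ i.castSucc) (h2 : j ≠ i.succ) :
    CS (Equiv.swap i.castSucc i.succ) (Y k j) := by
  intro f
  apply act_Y
  · exact Equiv.swap_apply_of_ne_of_ne h1 h2
  · intro l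
    by_cases ha : l = i.castSucc
    · rw [ha, Equiv.swap_apply_left]
      simp only [Fin.lt_def, Fin.ext_iff, Fin.val_succ, Fin.val_castSucc, ne_eq] at *
      omega
    · by_cases hb : l = i.succ
      · rw [hb, Equiv.swap_apply_right]
        simp only [Fin.lt_def, Fin.ext_iff, Fin.val_succ, Fin.val_castSucc, ne_eq] at *
        omega
      · rw [Equiv.swap_apply_of_ne_of_ne ha hb]

lemma ne_cs : i.castSucc ≠ i.succ := by
  intro h
  rw [Fin.ext_iff] at h
  simp at h

lemma univ_split {M : Type*} [CommMonoid M] (g : Fin (n + 1) → M) :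
    ∏ l, g l = (g i.castSucc * g i.succ) * ∏ l ∈ (univ.erase i.castSucc).erase i.succ, g l := by
  rw [← Finset.mul_prod_erase univ g (mem_univ i.castSucc),
    ← Finset.mul_prod_erase (univ.erase i.castSucc) g (mem_erase.2 ⟨(ne_cs i).symm, mem_univ _⟩), mul_assoc]

lemma univ_split_sum {M : Type*} [AddCommMonoid M] (g : Fin (n + 1) → M) :
    ∑ l, g l = (g i.castSucc + g i.succ) + ∑ l ∈ (univ.erase i.castSucc).erase i.succ, g l := by
  rw [← Finset.add_sum_erase univ g (mem_univ i.castSucc),
    ← Finset.add_sum_erase (univ.erase i.castSucc) g (mem_erase.2 ⟨(ne_cs i).symm, mem_univ _⟩), add_assoc]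

lemma adj_copA (u : F) : CS (Equiv.swap i.castSucc i.succ) ((copA k u : YA F (n + 1) k) : Module.End F (Lau F (n + 1))) := by
  unfold copA
  rw [univ_split i]
  apply CS.mul (S := (((algebraMap F (YA F (n + 1) k) u - yv k i.castSucc) * (algebraMap F (YA F (n + 1) k) u - yv k i.succ) : YA F (n + 1) k) : Module.End F (Lau F (n + 1))))
    (T := ((∏ l ∈ (univ.erase i.castSucc).erase i.succ, (algebraMap F (YA F (n + 1) k) u - yv k l) : YA F (n + 1) k) : Module.End F (Lau F (n + 1))))
  · intro f
    rw [mulA_apply, mulA_apply, subA_apply, subA_apply, subA_apply, subA_apply]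
    simp only [map_sub, map_smul, adj_Y, adj_Y', smul_sub, smul_add]
    have := congrArg (fun T : Module.End F (Lau F (n + 1)) => T (act (Equiv.swap i.castSucc i.succ) f)) (Y_comm k i.castSucc i.succ)
    simp only [Module.End.mul_apply] at this
    rw [this]
    abel
  · apply Finset.prod_induction _ (fun z : YA F (n + 1) k => CS (Equiv.swap i.castSucc i.succ) (z : Module.End F (Lau F (n + 1))))
    · intro a b ha hb
      exact CS.mul ha hb
    · exact CS.one _
    · intro l hl
      rw [mem_erase, mem_erase] at hl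
      intro f
      rw [subA_apply, subA_apply, map_sub, map_smul, adj_Y_other k i hl.2.1 hl.1]

lemma adj_sumY (f : Lau F (n + 1)) :
    act (Equiv.swap i.castSucc i.succ) (∑ l, Y k l f) = ∑ l, Y k l (act (Equiv.swap i.castSucc i.succ) f) := by
  rw [univ_split_sum i, univ_split_sum i, map_add, map_add, map_sum, adj_Y, adj_Y']
  have : ∀ l ∈ (univ.erase i.castSucc).erase i.succ, act (Equiv.swap i.castSucc i.succ) (Y k l f)
      = Y k l (act (Equiv.swap i.castSucc i.succ) f) := by
    intro l hl
    rw [mem_erase, mem_erase] at hl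
    exact adj_Y_other k i hl.2.1 hl.1 f
  rw [Finset.sum_congr rfl this]
  abel

lemma adj_sumY2 (f : Lau F (n + 1)) :
    act (Equiv.swap i.castSucc i.succ) (∑ l, Y k l (Y k l f)) = ∑ l, Y k l (Y k l (act (Equiv.swap i.castSucc i.succ) f)) := by
  rw [univ_split_sum i, univ_split_sum i, map_add, map_add, map_sum, adj_Y, adj_Y', adj_Y, adj_Y']
  have : ∀ l ∈ (univ.erase i.castSucc).erase i.succ, act (Equiv.swap i.castSucc i.succ) (Y k l (Y k l f))
      = Y k l (Y k l (act (Equiv.swap i.castSucc i.succ) f)) := by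
    intro l hl
    rw [mem_erase, mem_erase] at hl
    rw [adj_Y_other k i hl.2.1 hl.1, adj_Y_other k i hl.2.1 hl.1]
  rw [Finset.sum_congr rfl this]
  simp only [map_add, map_sub, map_smul]
  abel

end adj

/-- from adjacent transpositions to all permutations. -/
lemma perm_ind {n : ℕ} (T : Lau F (n + 1) → Lau F (n + 1))
    (h : ∀ (i : Fin n) (f : Lau F (n + 1)),
      act (Equiv.swap i.castSucc i.succ) (T f) = T (act (Equiv.swap i.castSucc i.succ) f))
    (σ : Equiv.Perm (Fin (n + 1))) (f : Lau F (n + 1)) : act σ (T f) = T (act σ f) := by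
  have hσ : σ ∈ Submonoid.closure (Set.range fun i : Fin n => Equiv.swap i.castSucc i.succ) := by
    rw [Equiv.Perm.mclosure_swap_castSucc_succ]; exact Submonoid.mem_top _
  induction hσ using Submonoid.closure_induction generalizing f with
  | mem x hx =>
    obtain ⟨i, rfl⟩ := hx
    exact h i f
  | one => rw [act_one_apply, act_one_apply]
  | mul x y _ _ hx hy => rw [← act_mul_apply, ← act_mul_apply, hy, hx]

lemma perm_zero (T : Lau F 0 → Lau F 0) (σ : Equiv.Perm (Fin 0)) (f : Lau F 0) : act σ (T f) = T (act σ f) := by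
  have : σ = 1 := Subsingleton.elim _ _
  rw [this, act_one_apply, act_one_apply]

theorem Cop_act (k u : F) (σ : Equiv.Perm (Fin N)) (f : Lau F N) :
    Cop k u (act σ f) = act σ (Cop k u f) := by
  symm
  cases N with
  | zero => exact perm_zero (fun f => Cop k u f) σ f
  | succ n =>
    apply perm_ind (fun f => Cop k u f)
    intro i f
    have := adj_copA k i u f
    rw [coe_copA] at this
    exact this

theorem sumY_act (k : F) (σ : Equiv.Perm (Fin N)) (f : Lau F N) :
    ∑ i, Y k i (act σ f) = act σ (∑ i, Y k i f) := by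
  symm
  cases N with
  | zero => exact perm_zero (fun f => ∑ i, Y k i f) σ f
  | succ n =>
    apply perm_ind (fun f => ∑ i, Y k i f)
    intro i f
    exact adj_sumY k i f

theorem sumY2_act (k : F) (σ : Equiv.Perm (Fin N)) (f : Lau F N) :
    ∑ i, Y k i (Y k i (act σ f)) = act σ (∑ i, Y k i (Y k i f)) := by
  symm
  cases N with
  | zero => exact perm_zero (fun f => ∑ i, Y k i (Y k i f)) σ f
  | succ n =>
    apply perm_ind (fun f => ∑ i, Y k i (Y k i f))
    intro i f
    exact adj_sumY2 k i f

/-! ### Pieri splitting -/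

/-- vector valued polynomials vanishing on an infinite set. -/
lemma poly_kill {k : F} (D : Polynomial (YA F N k)) (v : Lau F N) (S : Set F) (hS : S.Infinite)
    (h : ∀ u ∈ S, ((D.eval (algebraMap F (YA F N k) u) : YA F N k) : Module.End F (Lau F N)) v = 0) (m : ℕ) :
    ((D.coeff m : YA F N k) : Module.End F (Lau F N)) v = 0 := by
  ext η
  rw [AddMonoidAlgebra.coeff_zero, Finsupp.coe_zero, Pi.zero_apply]
  set p : Polynomial F := ∑ m ∈ range (D.natDegree + 1),
    Polynomial.C ((((D.coeff m : YA F N k) : Module.End F (Lau F N)) v).coeff η) * Polynomial.X ^ m with hp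
  have hp0 : p = 0 := by
    apply Polynomial.eq_zero_of_infinite_isRoot
    apply hS.mono
    intro u hu
    have h1 := h u hu
    rw [Polynomial.eval_eq_sum_range] at h1
    have h2 : (((∑ i ∈ range (D.natDegree + 1), D.coeff i * algebraMap F (YA F N k) u ^ i : YA F N k)) : Module.End F (Lau F N)) v
        = ∑ i ∈ range (D.natDegree + 1), u ^ i • ((D.coeff i : YA F N k) : Module.End F (Lau F N)) v := by
      rw [AddSubmonoidClass.coe_finsetSum, LinearMap.sum_apply]
      apply Finset.sum_congr rfl
      intro i _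
      rw [← map_pow, mul_comm, ← Algebra.smul_def]
      rfl
    rw [h2] at h1
    have h3 := congrArg (fun f : Lau F N => f.coeff η) h1
    rw [AddMonoidAlgebra.coeff_sum, Finsupp.finsetSum_apply] at h3
    change Polynomial.eval u p = 0
    rw [hp, Polynomial.eval_finsetSum]
    refine Eq.trans ?_ h3
    apply Finset.sum_congr rfl
    intro i _
    rw [Polynomial.eval_mul, Polynomial.eval_C, Polynomial.eval_pow, Polynomial.eval_X,
      AddMonoidAlgebra.coeff_smul, Finsupp.smul_apply, smul_eq_mul, mul_comm]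
  by_cases hm : m ∈ range (D.natDegree + 1)
  · have h4 := congrArg (fun q => Polynomial.coeff q m) hp0
    simp only [hp, Polynomial.finsetSum_coeff, Polynomial.coeff_C_mul_X_pow, Polynomial.coeff_zero] at h4
    rw [Finset.sum_ite_eq, if_pos hm] at h4
    exact h4
  · rw [mem_range, not_lt] at hm
    rw [Polynomial.coeff_eq_zero_of_natDegree_lt (by omega)]
    rfl

lemma kill_eval {k : F} (D : Polynomial (YA F N k)) (v : Lau F N)
    (h : ∀ m, ((D.coeff m : YA F N k) : Module.End F (Lau F N)) v = 0) (z : YA F N k) :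
    ((D.eval z : YA F N k) : Module.End F (Lau F N)) v = 0 := by
  rw [Polynomial.eval_eq_sum_range, AddSubmonoidClass.coe_finsetSum, LinearMap.sum_apply]
  apply Finset.sum_eq_zero
  intro i _
  rw [mul_comm]
  change ((z ^ i : YA F N k) : Module.End F (Lau F N)) (((D.coeff i : YA F N k) : Module.End F (Lau F N)) v) = 0
  rw [h i, map_zero]

section pieri

variable {n : ℕ} (k : F)

/-- `Φ = x_0 · (cyclic shift)`. -/
noncomputable def Phi (f : Lau F (n + 1)) : Lau F (n + 1) := xv 0 * act (finRotate (n + 1)) f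

lemma rot_castSucc (i : Fin n) : finRotate (n + 1) i.castSucc = i.succ := by
  rw [finRotate_apply, Fin.coeSucc_eq_succ]

lemma Y_Phi_succ (i : Fin n) (f : Lau F (n + 1)) : Y k i.succ (Phi f) = Phi (Y k i.castSucc f) := by
  unfold Phi
  rw [Y_apply, Y_apply, th_xv_ne k (Fin.succ_ne_zero i), map_sub, act_th, rot_castSucc, map_smul, mul_sub,
    Algebra.mul_smul_comm]
  have h2 : Iio i.succ = insert 0 ((Iio i.castSucc).image (finRotate (n + 1))) := by
    ext m
    rw [mem_Iio, mem_insert, mem_image]
    constructor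
    · intro hm
      rcases Fin.eq_zero_or_eq_succ m with h | ⟨l, h⟩
      · left; exact h
      · right
        refine ⟨l.castSucc, ?_, ?_⟩
        · rw [mem_Iio]
          rw [h] at hm
          exact Fin.castSucc_lt_castSucc_iff.2 (Fin.succ_lt_succ_iff.1 hm)
        · rw [rot_castSucc, h]
    · rintro (h | ⟨l, hl, h⟩)
      · rw [h]; exact Fin.succ_pos i
      · rw [mem_Iio] at hl
        obtain ⟨l', rfl⟩ := Fin.exists_castSucc_eq.2 (ne_of_lt (lt_of_lt_of_le hl (Fin.le_last _)))
        rw [rot_castSucc] at h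
        rw [← h]
        exact Fin.succ_lt_succ_iff.2 (Fin.castSucc_lt_castSucc_iff.1 hl)
  have h3 : Jm i.succ (xv 0 * act (finRotate (n + 1)) f)
      = xv i.succ * act (Equiv.swap i.succ 0) (act (finRotate (n + 1)) f)
        + xv 0 * act (finRotate (n + 1)) (Jm i.castSucc f) := by
    conv_lhs => unfold Jm
    rw [h2, Finset.sum_insert]
    · congr 1
      · rw [map_mul, act_xv, Equiv.swap_apply_right]
      · rw [Finset.sum_image (fun a _ b _ h => (finRotate (n + 1)).injective h)]
        unfold Jm
        rw [map_sum, Finset.mul_sum]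
        apply Finset.sum_congr rfl
        intro m hm
        rw [mem_Iio] at hm
        rw [map_mul, act_xv, act_swap, rot_castSucc, Equiv.swap_apply_of_ne_of_ne (Fin.succ_ne_zero i).symm]
        intro h0
        obtain ⟨m', rfl⟩ := Fin.exists_castSucc_eq.2 (ne_of_lt (lt_of_lt_of_le hm (Fin.le_last _)))
        rw [rot_castSucc] at h0
        exact Fin.succ_ne_zero _ h0.symm
    · rw [mem_image]
      rintro ⟨l, hl, h⟩
      rw [mem_Iio] at hl
      obtain ⟨l', rfl⟩ := Fin.exists_castSucc_eq.2 (ne_of_lt (lt_of_lt_of_le hl (Fin.le_last _)))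
      rw [rot_castSucc] at h
      exact Fin.succ_ne_zero _ h
  rw [h3, smul_add]
  abel

lemma Y_Phi_zero (f : Lau F (n + 1)) : Y k 0 (Phi f) = Phi (Y k (Fin.last n) f + f) := by
  unfold Phi
  rw [Y_apply, Y_apply, th_xv_self, map_add, map_sub, act_th, finRotate_last, map_smul]
  have h0 : Jm (0 : Fin (n + 1)) (xv 0 * act (finRotate (n + 1)) f) = 0 := by
    unfold Jm
    have : Iio (0 : Fin (n + 1)) = ∅ := by
      ext m
      simp
    rw [this, Finset.sum_empty]
  have h2 : univ.erase (0 : Fin (n + 1)) = (Iio (Fin.last n)).image (finRotate (n + 1)) := by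
    ext m
    rw [mem_erase, mem_image]
    constructor
    · rintro ⟨h, _⟩
      rcases Fin.eq_zero_or_eq_succ m with h1 | ⟨l, h1⟩
      · exact absurd h1 h
      · refine ⟨l.castSucc, ?_, ?_⟩
        · rw [mem_Iio]; exact Fin.castSucc_lt_last l
        · rw [rot_castSucc, h1]
    · rintro ⟨l, hl, h⟩
      rw [mem_Iio] at hl
      refine ⟨?_, mem_univ _⟩
      intro hm
      obtain ⟨l', rfl⟩ := Fin.exists_castSucc_eq.2 (ne_of_lt hl)
      rw [rot_castSucc] at h
      rw [← h] at hm
      exact Fin.succ_ne_zero _ hm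
  have h3 : ∑ j ∈ univ.erase (0 : Fin (n + 1)), xv 0 * act (Equiv.swap 0 j) (act (finRotate (n + 1)) f)
      = xv 0 * act (finRotate (n + 1)) (Jm (Fin.last n) f) := by
    rw [h2, Finset.sum_image (fun a _ b _ h => (finRotate (n + 1)).injective h)]
    unfold Jm
    rw [map_sum, Finset.mul_sum]
    apply Finset.sum_congr rfl
    intro m _
    rw [act_swap, finRotate_last]
  rw [h0, h3, smul_zero, sub_zero]
  simp only [mul_add, mul_sub, Algebra.mul_smul_comm]
  abel

lemma Phi_add (f g : Lau F (n + 1)) : Phi (f + g) = Phi f + Phi g := by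
  unfold Phi; rw [map_add, mul_add]

lemma Phi_smul (c : F) (f : Lau F (n + 1)) : Phi (c • f) = c • Phi f := by
  unfold Phi; rw [map_smul, Algebra.mul_smul_comm]

lemma Phi_sub (f g : Lau F (n + 1)) : Phi (f - g) = Phi f - Phi g := by
  unfold Phi; rw [map_sub, mul_sub]

lemma Phi_sum {ι : Type*} (s : Finset ι) (f : ι → Lau F (n + 1)) : Phi (∑ i ∈ s, f i) = ∑ i ∈ s, Phi (f i) := by
  unfold Phi; rw [map_sum, Finset.mul_sum]

/-- the product of the shifted factors. -/
lemma prod_Phi (u : F) (s : Finset (Fin n)) (v : Lau F (n + 1)) :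
    ((∏ i ∈ s, (algebraMap F (YA F (n + 1) k) u - yv k i.succ) : YA F (n + 1) k) : Module.End F (Lau F (n + 1))) (Phi v) =
      Phi (((∏ i ∈ s, (algebraMap F (YA F (n + 1) k) u - yv k i.castSucc) : YA F (n + 1) k) : Module.End F (Lau F (n + 1))) v) := by
  classical
  induction s using Finset.induction_on generalizing v with
  | empty => rfl
  | insert a s ha ih =>
    rw [Finset.prod_insert ha, Finset.prod_insert ha]
    rw [mulA_apply, mulA_apply, subA_apply, subA_apply, ih, Y_Phi_succ, Phi_sub, Phi_smul]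

end pieri

theorem pieri_split (k : F) (f : Lau F N) (hf : IsSymm f) (ξ : Fin N → F) (hξ : Function.Injective ξ)
    (h : ∀ u : F, Cop k u f = (∏ j, (u - ξ j)) • f) [Infinite F] :
    ∃ g : Fin N → Lau F N, (∑ l, xv l) * f = ∑ j, g j ∧
      ∀ j, IsSymm (g j) ∧ ∀ u : F, Cop k u (g j) = ((u - 1 - ξ j) * ∏ l ∈ univ.erase j, (u - ξ l)) • g j := by
  classical
  rcases Nat.eq_zero_or_pos N with h0 | hpos
  · subst h0
    exact ⟨fun i => i.elim0, by simp, fun i => i.elim0⟩
  obtain ⟨n, rfl⟩ : ∃ n, N = n + 1 := ⟨N - 1, by omega⟩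
  set yl := yv k (Fin.last n) with hyl
  -- eigenvalues in the commutative algebra
  have hA : ∀ u : F, ((copA k u : YA F (n + 1) k) : Module.End F (Lau F (n + 1))) f = (∏ j, (u - ξ j)) • f := by
    intro u; rw [coe_copA]; exact h u
  -- Cayley-Hamilton
  set P : Polynomial (YA F (n + 1) k) := ∏ i : Fin (n + 1), (Polynomial.X - Polynomial.C (yv k i)) with hP
  set q : Polynomial F := ∏ j : Fin (n + 1), (Polynomial.X - Polynomial.C (ξ j)) with hq
  have hPe : ∀ u : F, P.eval (algebraMap F (YA F (n + 1) k) u) = copA k u := by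
    intro u
    rw [hP, Polynomial.eval_prod]
    simp only [Polynomial.eval_sub, Polynomial.eval_X, Polynomial.eval_C]
    rfl
  have hqe : ∀ u : F, (q.map (algebraMap F (YA F (n + 1) k))).eval (algebraMap F (YA F (n + 1) k) u)
      = algebraMap F (YA F (n + 1) k) (∏ j, (u - ξ j)) := by
    intro u
    rw [Polynomial.eval_map_algebraMap, Polynomial.aeval_algebraMap_apply, hq, Polynomial.coe_aeval_eq_eval,
      Polynomial.eval_prod]
    simp only [Polynomial.eval_sub, Polynomial.eval_X, Polynomial.eval_C]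
  have hk0 := poly_kill (P - q.map (algebraMap F (YA F (n + 1) k))) f Set.univ Set.infinite_univ (by
    intro u _
    rw [Polynomial.eval_sub, hPe, hqe]
    change ((copA k u : YA F (n + 1) k) : Module.End F (Lau F (n + 1))) f - _ = 0
    rw [hA u]
    change (∏ j, (u - ξ j)) • f - (∏ j, (u - ξ j)) • f = 0
    rw [sub_self])
  have hCH : ((Polynomial.aeval yl q : YA F (n + 1) k) : Module.End F (Lau F (n + 1))) f = 0 := by
    have h1 := kill_eval _ f hk0 yl
    rw [Polynomial.eval_sub] at h1
    have h2 : P.eval yl = 0 := by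
      rw [hP, Polynomial.eval_prod]
      apply Finset.prod_eq_zero (mem_univ (Fin.last n))
      rw [Polynomial.eval_sub, Polynomial.eval_X, Polynomial.eval_C, ← hyl, sub_self]
    rw [h2, zero_sub, Polynomial.eval_map_algebraMap] at h1
    change - (((Polynomial.aeval yl q : YA F (n + 1) k) : Module.End F (Lau F (n + 1))) f) = 0 at h1
    exact neg_eq_zero.1 h1
  -- the components
  set fj : Fin (n + 1) → Lau F (n + 1) := fun j =>
    ((Polynomial.aeval yl (Lagrange.basis univ ξ j) : YA F (n + 1) k) : Module.End F (Lau F (n + 1))) f with hfj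
  have hsum : ∑ j, fj j = f := by
    have h1 := Lagrange.sum_basis (s := univ) (v := ξ) (hξ.injOn) Finset.univ_nonempty
    have h2 := congrArg (fun p => ((Polynomial.aeval yl p : YA F (n + 1) k) : Module.End F (Lau F (n + 1))) f) h1
    simp only [map_sum, map_one] at h2
    rw [AddSubmonoidClass.coe_finsetSum, LinearMap.sum_apply] at h2
    exact h2
  have hYf : ∀ j, Y k (Fin.last n) (fj j) = ξ j • fj j := by
    intro j
    have h1 : (Polynomial.X - Polynomial.C (ξ j)) * Lagrange.basis univ ξ j
        = Polynomial.C (∏ l ∈ univ.erase j, (ξ j - ξ l)⁻¹) * q := by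
      unfold Lagrange.basis Lagrange.basisDivisor
      rw [Finset.prod_mul_distrib, map_prod, hq, ← Finset.mul_prod_erase univ _ (mem_univ j)]
      ring
    have h2 := congrArg (fun p => ((Polynomial.aeval yl p : YA F (n + 1) k) : Module.End F (Lau F (n + 1))) f) h1
    simp only [map_mul, map_sub, Polynomial.aeval_X, Polynomial.aeval_C] at h2
    change Y k (Fin.last n) (fj j) - ξ j • fj j = (∏ l ∈ univ.erase j, (ξ j - ξ l)⁻¹) •
      (((Polynomial.aeval yl q : YA F (n + 1) k) : Module.End F (Lau F (n + 1))) f) at h2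
    rw [hCH, smul_zero] at h2
    exact sub_eq_zero.1 h2
  have hCf : ∀ j (u : F), ((copA k u : YA F (n + 1) k) : Module.End F (Lau F (n + 1))) (fj j) = (∏ j, (u - ξ j)) • fj j := by
    intro j u
    have h1 : copA k u * Polynomial.aeval yl (Lagrange.basis univ ξ j)
      = Polynomial.aeval yl (Lagrange.basis univ ξ j) * copA k u := mul_comm _ _
    have h2 := congrArg (fun z : YA F (n + 1) k => (z : Module.End F (Lau F (n + 1))) f) h1
    change ((copA k u : YA F (n + 1) k) : Module.End F (Lau F (n + 1))) (fj j) =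
      ((Polynomial.aeval yl (Lagrange.basis univ ξ j) : YA F (n + 1) k) : Module.End F (Lau F (n + 1)))
        (((copA k u : YA F (n + 1) k) : Module.End F (Lau F (n + 1))) f) at h2
    rw [h2, hA, map_smul]
  -- removing the last factor
  have hw : ∀ j (u : F), ((∏ i : Fin n, (algebraMap F (YA F (n + 1) k) u - yv k i.castSucc) : YA F (n + 1) k) :
      Module.End F (Lau F (n + 1))) (fj j) = (∏ l ∈ univ.erase j, (u - ξ l)) • fj j := by
    intro j u
    set P' : Polynomial (YA F (n + 1) k) := ∏ i : Fin n, (Polynomial.X - Polynomial.C (yv k i.castSucc)) with hP'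
    set q' : Polynomial F := ∏ l ∈ univ.erase j, (Polynomial.X - Polynomial.C (ξ l)) with hq'
    have hPe' : ∀ u : F, P'.eval (algebraMap F (YA F (n + 1) k) u)
        = ∏ i : Fin n, (algebraMap F (YA F (n + 1) k) u - yv k i.castSucc) := by
      intro u
      rw [hP', Polynomial.eval_prod]
      simp only [Polynomial.eval_sub, Polynomial.eval_X, Polynomial.eval_C]
    have hqe' : ∀ u : F, (q'.map (algebraMap F (YA F (n + 1) k))).eval (algebraMap F (YA F (n + 1) k) u)
        = algebraMap F (YA F (n + 1) k) (∏ l ∈ univ.erase j, (u - ξ l)) := by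
      intro u
      rw [Polynomial.eval_map_algebraMap, Polynomial.aeval_algebraMap_apply, hq', Polynomial.coe_aeval_eq_eval,
        Polynomial.eval_prod]
      simp only [Polynomial.eval_sub, Polynomial.eval_X, Polynomial.eval_C]
    have hk1 := poly_kill (P' - q'.map (algebraMap F (YA F (n + 1) k))) (fj j) {ξ j}ᶜ
      (Set.Finite.infinite_compl (Set.finite_singleton _)) (by
      intro u hu
      rw [Polynomial.eval_sub, hPe', hqe']
      change (((∏ i : Fin n, (algebraMap F (YA F (n + 1) k) u - yv k i.castSucc) : YA F (n + 1) k) :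
        Module.End F (Lau F (n + 1))) (fj j)) - (∏ l ∈ univ.erase j, (u - ξ l)) • fj j = 0
      set w := ((∏ i : Fin n, (algebraMap F (YA F (n + 1) k) u - yv k i.castSucc) : YA F (n + 1) k) :
        Module.End F (Lau F (n + 1))) (fj j) with hw
      have e1 := hCf j u
      unfold copA at e1
      rw [Fin.prod_univ_castSucc] at e1
      change ((∏ i : Fin n, (algebraMap F (YA F (n + 1) k) u - yv k i.castSucc) : YA F (n + 1) k) :
        Module.End F (Lau F (n + 1))) (u • fj j - Y k (Fin.last n) (fj j)) = _ at e1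
      rw [hYf, ← sub_smul, map_smul, ← hw, ← Finset.mul_prod_erase univ _ (mem_univ j), mul_smul] at e1
      have hne : u - ξ j ≠ 0 := by
        intro h2
        exact hu (sub_eq_zero.1 h2)
      have e2 : w = (∏ l ∈ univ.erase j, (u - ξ l)) • fj j := by
        have := congrArg (fun x => (u - ξ j)⁻¹ • x) e1
        simp only [smul_smul, inv_mul_cancel₀ hne, one_smul] at this
        rw [this, ← mul_assoc, inv_mul_cancel₀ hne, one_mul]
      rw [e2, sub_self])
    have h3 := kill_eval _ (fj j) hk1 (algebraMap F (YA F (n + 1) k) u)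
    rw [Polynomial.eval_sub, hPe', hqe'] at h3
    change (((∏ i : Fin n, (algebraMap F (YA F (n + 1) k) u - yv k i.castSucc) : YA F (n + 1) k) :
        Module.End F (Lau F (n + 1))) (fj j)) - (∏ l ∈ univ.erase j, (u - ξ l)) • fj j = 0 at h3
    exact sub_eq_zero.1 h3
  have hPhi : ∀ j (u : F), Cop k u (Phi (fj j)) = ((u - 1 - ξ j) * ∏ l ∈ univ.erase j, (u - ξ l)) • Phi (fj j) := by
    intro j u
    rw [← coe_copA]
    unfold copA
    rw [Fin.prod_univ_succ]
    change u • (((∏ i : Fin n, (algebraMap F (YA F (n + 1) k) u - yv k i.succ) : YA F (n + 1) k) :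
        Module.End F (Lau F (n + 1))) (Phi (fj j))) - Y k 0 (((∏ i : Fin n, (algebraMap F (YA F (n + 1) k) u - yv k i.succ) : YA F (n + 1) k) :
        Module.End F (Lau F (n + 1))) (Phi (fj j))) = _
    rw [prod_Phi, hw, Phi_smul, map_smul, Y_Phi_zero, hYf, Phi_add, Phi_smul]
    simp only [smul_add, smul_smul, ← sub_smul, ← add_smul]
    congr 1
    ring
  -- stabiliser invariance
  have hinv : ∀ j (σ : Equiv.Perm (Fin (n + 1))), σ (Fin.last n) = Fin.last n → act σ (fj j) = fj j := by
    intro j σ hσ
    have h1 : ∀ p : Polynomial F, CS σ ((Polynomial.aeval yl p : YA F (n + 1) k) : Module.End F (Lau F (n + 1))) := by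
      intro p
      induction p using Polynomial.induction_on' with
      | add p q hp hq =>
        rw [map_add]
        exact CS.add hp hq
      | monomial m a =>
        rw [Polynomial.aeval_monomial, ← Algebra.smul_def]
        apply CS.smul a (T := ((yl ^ m : YA F (n + 1) k) : Module.End F (Lau F (n + 1))))
        induction m with
        | zero => rw [pow_zero]; exact CS.one σ
        | succ m ih =>
          rw [pow_succ]
          apply CS.mul (S := ((yl ^ m : YA F (n + 1) k) : Module.End F (Lau F (n + 1)))) (T := Y k (Fin.last n)) ih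
          intro g
          apply act_Y hσ
          intro l
          rw [Fin.lt_last_iff_ne_last, Fin.lt_last_iff_ne_last]
          constructor
          · intro hl h2
            apply hl
            apply σ.injective
            rw [h2, hσ]
          · intro hl h2
            apply hl
            rw [h2, hσ]
    have := h1 (Lagrange.basis univ ξ j) f
    rw [hf σ] at this
    exact this
  have hinv2 : ∀ j (τ : Equiv.Perm (Fin (n + 1))), τ 0 = 0 → act τ (Phi (fj j)) = Phi (fj j) := by
    intro j τ hτ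
    unfold Phi
    rw [map_mul, act_xv, hτ, act_mul_apply]
    have h1 : τ * finRotate (n + 1) = finRotate (n + 1) * ((finRotate (n + 1))⁻¹ * τ * finRotate (n + 1)) := by
      group
    rw [h1, ← act_mul_apply, hinv j]
    change (finRotate (n + 1)).symm (τ (finRotate (n + 1) (Fin.last n))) = Fin.last n
    rw [finRotate_last, hτ, ← finRotate_last, Equiv.symm_apply_apply]
  refine ⟨fun j => ∑ i, act (Equiv.swap 0 i) (Phi (fj j)), ?_, ?_⟩
  · rw [Finset.sum_comm]
    have h1 : ∀ i : Fin (n + 1), ∑ j, act (Equiv.swap 0 i) (Phi (fj j)) = xv i * f := by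
      intro i
      rw [← map_sum, ← Phi_sum, hsum]
      unfold Phi
      rw [map_mul, act_xv, Equiv.swap_apply_left, hf, hf]
    simp only [h1]
    rw [Finset.sum_mul]
  · intro j
    refine ⟨?_, ?_⟩
    · intro σ
      rw [map_sum]
      have h1 : ∀ i : Fin (n + 1), act σ (act (Equiv.swap 0 i) (Phi (fj j))) = act (Equiv.swap 0 (σ i)) (Phi (fj j)) := by
        intro i
        have h2 : σ * Equiv.swap 0 i = Equiv.swap 0 (σ i) * (Equiv.swap 0 (σ i) * σ * Equiv.swap 0 i) := by
          rw [← mul_assoc, ← mul_assoc, Equiv.swap_mul_self, one_mul]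
        rw [act_mul_apply, h2, ← act_mul_apply, hinv2 j]
        change Equiv.swap 0 (σ i) (σ (Equiv.swap 0 i 0)) = 0
        rw [Equiv.swap_apply_left, Equiv.swap_apply_right]
      simp only [h1]
      exact Equiv.sum_comp σ (fun i => act (Equiv.swap 0 i) (Phi (fj j)))
    · intro u
      rw [map_sum, Finset.smul_sum]
      apply Finset.sum_congr rfl
      intro i _
      rw [Cop_act, hPhi, map_smul]

end Pool.Agent.JL
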