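import Mathlib
import Pool.Agent.JL.Defs
import Pool.Agent.JL.N2a
import Pool.Agent.JL.S
import Pool.Agent.JL.N1a
import Pool.Agent.JL.N1b

/-! Triangularity and the CMS operator. -/

namespace Pool.Agent.JL

open Finset

variable {F : Type*} [Field F] {N : ℕ}

/-- Abel summation inequality. -/
lemma abel_ineq : ∀ (N : ℕ) (a b : Fin (N + 1) → ℤ), Antitone a → (∀ m, 0 ≤ psm b m) →
    a (Fin.last N) * ∑ i, b i ≤ ∑ i, a i * b i := by
  intro N
  induction N with
  | zero => intro a b _ _; simp
  | succ N ih =>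
    intro a b ha hb
    rw [Fin.sum_univ_castSucc, Fin.sum_univ_castSucc (fun i => a i * b i)]
    have hps : ∀ m ≤ N + 1, psm (fun i : Fin (N + 1) => b i.castSucc) m = psm b m := by
      intro m hm
      unfold psm
      rw [Finset.sum_filter, Finset.sum_filter, Fin.sum_univ_castSucc (n := N + 1)]
      rw [if_neg (by rw [Fin.val_last]; omega), add_zero]
      rfl
    have h1 := ih (fun i => a i.castSucc) (fun i => b i.castSucc)
      (fun i j hij => ha (by simpa using hij)) (by
        intro m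
        rcases Nat.lt_or_ge (N + 1) m with hm | hm
        · have e1 : psm (fun i : Fin (N + 1) => b i.castSucc) m = psm (fun i : Fin (N + 1) => b i.castSucc) (N + 1) := by
            unfold psm
            congr 1
            ext i
            simp only [mem_filter, mem_univ, true_and]
            have := i.2
            omega
          rw [e1, hps _ le_rfl]
          exact hb _
        · rw [hps m hm]; exact hb m)
    have h2 : 0 ≤ ∑ i : Fin (N + 1), b i.castSucc := by
      have h3 := hb (N + 1)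
      rw [← hps (N + 1) le_rfl] at h3
      have e2 : psm (fun i : Fin (N + 1) => b i.castSucc) (N + 1) = ∑ i : Fin (N + 1), b i.castSucc := by
        unfold psm
        congr 1
        ext i
        simp only [mem_filter, mem_univ, true_and, iff_true]
        exact i.2
      rwa [e2] at h3
    have h3 : a (Fin.last (N + 1)) ≤ a (Fin.last N).castSucc := ha (Fin.le_last _)
    nlinarith [mul_le_mul_of_nonneg_right h3 h2]

/-- dominance decreases the sum of squares, with equality only for rearrangements. -/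
lemma Dom.sq {η χ : Fin N → ℤ} (h : Dom η χ) :
    ∑ i, η i ^ 2 ≤ ∑ i, χ i ^ 2 ∧ (∑ i, η i ^ 2 = ∑ i, χ i ^ 2 → ∃ σ : Equiv.Perm (Fin N), χ = fun i => η (σ i)) := by
  obtain ⟨σ, hσ⟩ := exists_sort η
  set ζ : Fin N → ℤ := fun i => η (σ i) with hζ
  have hd : Dom ζ χ := h.comp σ
  have hs : ∑ i, ζ i ^ 2 = ∑ i, η i ^ 2 := Equiv.sum_comp σ (fun i => η i ^ 2)
  have key : 0 ≤ ∑ i, ζ i * (χ i - ζ i) := by
    cases N with
    | zero => simp
    | succ n =>
      have h1 := abel_ineq n ζ (fun i => χ i - ζ i) hσ (by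
        intro m
        have := hd.psm_le m
        unfold psm at *
        rw [Finset.sum_sub_distrib]
        linarith)
      rw [Finset.sum_sub_distrib, ← hd.1, sub_self, mul_zero] at h1
      exact h1
  have e : ∑ i, χ i ^ 2 = ∑ i, ζ i ^ 2 + 2 * ∑ i, ζ i * (χ i - ζ i) + ∑ i, (χ i - ζ i) ^ 2 := by
    rw [Finset.mul_sum, ← Finset.sum_add_distrib, ← Finset.sum_add_distrib]
    apply Finset.sum_congr rfl
    intro i _
    ring
  have h2 : 0 ≤ ∑ i, (χ i - ζ i) ^ 2 := Finset.sum_nonneg (fun i _ => sq_nonneg _)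
  refine ⟨by linarith, fun heq => ⟨σ, ?_⟩⟩
  have h3 : ∑ i, (χ i - ζ i) ^ 2 = 0 := by linarith
  ext i
  have h4 := (Finset.sum_eq_zero_iff_of_nonneg (fun i _ => sq_nonneg _)).1 h3 i (mem_univ i)
  have h5 : χ i - ζ i = 0 := by
    exact pow_eq_zero_iff (two_ne_zero) |>.1 h4
  have : χ i = ζ i := by linarith
  rw [this]

/-- the monomials of `G_{ij} x^η`. -/
lemma Gmon_supp {i j : Fin N} {η ζ : Fin N → ℤ} (h : (Gmon i j η : Lau F N).coeff ζ ≠ 0) :
    (η j ≤ η i ∧ ∃ t : ℤ, 0 ≤ t ∧ t < η i - η j ∧ ζ = η - t • (Pi.single i 1 - Pi.single j 1)) ∨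
    (η i < η j ∧ ∃ t : ℤ, 0 ≤ t ∧ t < η j - η i ∧ ζ = swE i j η - t • (Pi.single i 1 - Pi.single j 1)) := by
  classical
  unfold Gmon at h
  split_ifs at h with h1
  · left
    refine ⟨h1, ?_⟩
    rw [AddMonoidAlgebra.coeff_sum, Finsupp.finsetSum_apply] at h
    obtain ⟨t, ht, h2⟩ := Finset.exists_ne_zero_of_sum_ne_zero h
    rw [mem_range] at ht
    rw [coeff_mon'] at h2
    refine ⟨t, by omega, by omega, ?_⟩
    by_contra hne
    rw [if_neg (fun e => hne e.symm)] at h2
    exact h2 rfl
  · right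
    refine ⟨by omega, ?_⟩
    rw [AddMonoidAlgebra.coeff_neg, Finsupp.neg_apply, AddMonoidAlgebra.coeff_sum, Finsupp.finsetSum_apply] at h
    have h' := fun e => h (neg_eq_zero.2 e)
    obtain ⟨t, ht, h2⟩ := Finset.exists_ne_zero_of_sum_ne_zero h'
    rw [mem_range] at ht
    rw [coeff_mon'] at h2
    refine ⟨t, by omega, by omega, ?_⟩
    by_contra hne
    rw [if_neg (fun e => hne e.symm)] at h2
    exact h2 rfl

lemma dom_segment {i j : Fin N} {η χ : Fin N → ℤ} (h : Dom η χ) {t : ℤ} (h0 : 0 ≤ t) (h1 : t ≤ η i - η j) :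
    Dom (η - t • (Pi.single i 1 - Pi.single j 1)) χ := by
  classical
  have hI : ∀ I : Finset (Fin N), ∑ l ∈ I, (η - t • (Pi.single i 1 - Pi.single j 1) : Fin N → ℤ) l
      = ∑ l ∈ I, η l - t * ((if i ∈ I then 1 else 0) - (if j ∈ I then 1 else 0)) := by
    intro I
    simp only [Pi.sub_apply, Pi.smul_apply, smul_eq_mul, Finset.sum_sub_distrib, ← Finset.mul_sum]
    have hp : ∀ a : Fin N, ∑ x ∈ I, (Pi.single a 1 : Fin N → ℤ) x = if a ∈ I then 1 else 0 := by
      intro a
      simp only [Pi.single_apply]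
      rw [Finset.sum_ite_eq']
    rw [hp, hp]
  refine ⟨?_, fun I => ?_⟩
  · rw [hI, if_pos (mem_univ _), if_pos (mem_univ _), sub_self, mul_zero, sub_zero]
    exact h.1
  · rw [hI]
    by_cases hi : i ∈ I
    · have := h.2 I
      split_ifs <;> linarith
    · by_cases hj : j ∈ I
      · rw [if_neg hi, if_pos hj]
        -- replace j by i
        have h2 := h.2 (insert i (I.erase j))
        have hni : i ∉ I.erase j := fun h3 => hi (Finset.mem_of_mem_erase h3)
        rw [Finset.card_insert_of_notMem hni, Finset.card_erase_of_mem hj, Finset.sum_insert hni] at h2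
        have h4 : I.card - 1 + 1 = I.card := by
          have := Finset.card_pos.2 ⟨j, hj⟩
          omega
        rw [h4] at h2
        have h5 := Finset.add_sum_erase I η hj
        linarith
      · rw [if_neg hi, if_neg hj]
        have := h.2 I
        linarith

lemma G_supp {i j : Fin N} {χ : Fin N → ℤ} {f : Lau F N}
    (hf : ∀ η, f.coeff η ≠ 0 → Dom η χ) : ∀ η, (G i j f).coeff η ≠ 0 → Dom η χ := by
  classical
  intro ζ hζ
  change (f.coeff.sum (fun η a => a • Gmon i j η)).coeff ζ ≠ 0 at hζ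
  rw [Finsupp.sum, AddMonoidAlgebra.coeff_sum, Finsupp.finsetSum_apply] at hζ
  obtain ⟨η, hη, h2⟩ := Finset.exists_ne_zero_of_sum_ne_zero hζ
  rw [AddMonoidAlgebra.coeff_smul, Finsupp.smul_apply, smul_eq_mul] at h2
  have hd : Dom η χ := hf η (by simpa using hη)
  rcases Gmon_supp (right_ne_zero_of_mul h2) with ⟨_, t, h0, h1, rfl⟩ | ⟨_, t, h0, h1, rfl⟩
  · exact dom_segment hd h0 h1.le
  · have hd2 : Dom (swE i j η) χ := hd.comp (Equiv.swap i j)
    apply dom_segment hd2 h0
    unfold swE
    rw [Equiv.swap_apply_left, Equiv.swap_apply_right]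
    exact h1.le

lemma coeff_act (σ : Equiv.Perm (Fin N)) (f : Lau F N) (η : Fin N → ℤ) :
    (act σ f).coeff η = f.coeff (fun i => η (σ i)) := by
  unfold act
  rw [AddMonoidAlgebra.coeff_domCongr]
  rfl

theorem Y_supp (k : F) (χ : Fin N → ℤ) (i : Fin N) (f : Lau F N)
    (hf : ∀ η, f.coeff η ≠ 0 → Dom η χ) : ∀ η, (Y k i f).coeff η ≠ 0 → Dom η χ := by
  intro η hη
  by_contra hd
  apply hη
  rw [Y_apply, th_apply]
  unfold Jm
  rw [AddMonoidAlgebra.coeff_sub, Finsupp.sub_apply, AddMonoidAlgebra.coeff_sub, Finsupp.sub_apply,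
    AddMonoidAlgebra.coeff_smul, Finsupp.smul_apply, AddMonoidAlgebra.coeff_smul, Finsupp.smul_apply,
    AddMonoidAlgebra.coeff_sum, Finsupp.finsetSum_apply, AddMonoidAlgebra.coeff_sum, Finsupp.finsetSum_apply, coeff_eul]
  have h1 : f.coeff η = 0 := by
    by_contra h; exact hd (hf η h)
  have h2 : ∀ j ∈ univ.erase i, (G i j f).coeff η = 0 := by
    intro j hj
    by_contra h
    exact hd (G_supp hf η h)
  have h3 : ∀ j ∈ Iio i, (act (Equiv.swap i j) f).coeff η = 0 := by
    intro j _
    rw [coeff_act]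
    by_contra h
    exact hd ((dom_comp_iff (Equiv.swap i j)).1 (hf _ h))
  rw [h1, Finset.sum_eq_zero h2, Finset.sum_eq_zero h3]
  simp

/-- a vertex lies on a segment only as an endpoint. -/
lemma vertex_segment {χ ζ η : Fin N → ℤ} {i j : Fin N} (hij : i ≠ j) (hη : Dom η χ) {t : ℤ} (h0 : 0 ≤ t)
    (h1 : t < η i - η j) (hζ : ζ = η - t • (Pi.single i 1 - Pi.single j 1)) (hs : ∑ l, ζ l ^ 2 = ∑ l, χ l ^ 2) :
    t = 0 := by
  classical
  by_contra hne
  have ht : 0 < t := lt_of_le_of_ne h0 (Ne.symm hne)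
  have h2 := hη.sq.1
  have h3 : ∑ l, ζ l ^ 2 = ∑ l, η l ^ 2 - 2 * t * (η i - η j - t) := by
    have hj : j ∈ univ.erase i := by simp [Ne.symm hij]
    rw [← Finset.add_sum_erase univ (fun l => ζ l ^ 2) (mem_univ i), ← Finset.add_sum_erase _ (fun l => ζ l ^ 2) hj,
      ← Finset.add_sum_erase univ (fun l => η l ^ 2) (mem_univ i), ← Finset.add_sum_erase _ (fun l => η l ^ 2) hj]
    have h4 : ∑ x ∈ (univ.erase i).erase j, ζ x ^ 2 = ∑ x ∈ (univ.erase i).erase j, η x ^ 2 := by
      apply Finset.sum_congr rfl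
      intro x hx
      rw [mem_erase, mem_erase] at hx
      rw [hζ, Pi.sub_apply, Pi.smul_apply, Pi.sub_apply, Pi.single_eq_of_ne hx.1, Pi.single_eq_of_ne hx.2.1]
      simp
    rw [h4, hζ]
    simp only [Pi.sub_apply, Pi.smul_apply, smul_eq_mul, Pi.single_eq_same, Pi.single_eq_of_ne hij, Pi.single_eq_of_ne (Ne.symm hij)]
    ring
  have h5 : 0 < 2 * t * (η i - η j - t) := by
    apply mul_pos
    · linarith
    · linarith
  linarith

/-- the coefficient of `G_{ij} f` at a non-decreasing rearrangement of `χ`. -/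
lemma G_coeff {χ ζ : Fin N → ℤ} {i j : Fin N} (hij : i ≠ j) (hs : ∑ l, ζ l ^ 2 = ∑ l, χ l ^ 2) {f : Lau F N}
    (hf : ∀ η, f.coeff η ≠ 0 → Dom η χ) :
    (G i j f).coeff ζ = if ζ j < ζ i then f.coeff ζ - f.coeff (swE i j ζ) else 0 := by
  classical
  -- the difference of the two sides is linear in `f`; check on the support
  have hmon : ∀ η, Dom η χ → (Gmon i j η : Lau F N).coeff ζ =
      if ζ j < ζ i then (mon η : Lau F N).coeff ζ - (mon η : Lau F N).coeff (swE i j ζ) else 0 := by
    intro η hη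
    have hsw : swE i j (swE i j η) = η := by
      ext l; unfold swE; simp
    have hsw2 : ∀ a b : Fin N → ℤ, swE i j a = b ↔ a = swE i j b := by
      intro a b
      constructor
      · rintro rfl; ext l; unfold swE; simp
      · rintro rfl; ext l; unfold swE; simp
    have hη2 : Dom (swE i j η) χ := hη.comp (Equiv.swap i j)
    have hcoef : ∀ (a : Fin N → ℤ) (n : ℕ), Dom a χ → (n : ℤ) ≤ a i - a j →
        (∑ t ∈ range n, mon (a - (t : ℤ) • (Pi.single i 1 - Pi.single j 1)) : Lau F N).coeff ζ
          = if 0 < n ∧ a = ζ then 1 else 0 := by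
      intro a n ha hn
      rw [AddMonoidAlgebra.coeff_sum, Finsupp.finsetSum_apply]
      simp only [coeff_mon']
      by_cases h0 : 0 < n ∧ a = ζ
      · rw [if_pos h0, Finset.sum_eq_single 0]
        · rw [if_pos]
          rw [← h0.2]; simp
        · intro t ht htne
          rw [mem_range] at ht
          rw [if_neg]
          intro h
          have := vertex_segment hij ha (t := (t : ℤ)) (by omega) (by omega) h.symm hs
          omega
        · intro h
          exact absurd (mem_range.2 h0.1) h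
      · rw [if_neg h0]
        apply Finset.sum_eq_zero
        intro t ht
        rw [mem_range] at ht
        rw [if_neg]
        intro h
        have := vertex_segment hij ha (t := (t : ℤ)) (by omega) (by omega) h.symm hs
        apply h0
        refine ⟨by omega, ?_⟩
        rw [← h, this]; simp
    unfold Gmon
    by_cases h1 : η j ≤ η i
    · rw [if_pos h1, hcoef η _ hη (by omega), coeff_mon', coeff_mon']
      by_cases h2 : ζ j < ζ i
      · rw [if_pos h2]
        have h3 : ¬ (η = swE i j ζ) := by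
          intro h
          rw [h] at h1
          unfold swE at h1
          rw [Equiv.swap_apply_left, Equiv.swap_apply_right] at h1
          omega
        rw [if_neg h3, sub_zero]
        by_cases h4 : η = ζ
        · rw [if_pos h4, if_pos]
          refine ⟨?_, h4⟩
          rw [h4]; omega
        · rw [if_neg h4, if_neg (fun h => h4 h.2)]
      · rw [if_neg h2, if_neg]
        rintro ⟨h3, h4⟩
        rw [h4] at h3
        omega
    · rw [if_neg h1, AddMonoidAlgebra.coeff_neg, Finsupp.neg_apply]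
      have hle : (((η j - η i).toNat : ℕ) : ℤ) ≤ swE i j η i - swE i j η j := by
        unfold swE
        rw [Equiv.swap_apply_left, Equiv.swap_apply_right]
        omega
      rw [hcoef (swE i j η) _ hη2 hle, coeff_mon', coeff_mon']
      by_cases h2 : ζ j < ζ i
      · rw [if_pos h2]
        have h3 : ¬ (η = ζ) := by
          intro h
          rw [h] at h1
          omega
        rw [if_neg h3, zero_sub]
        congr 1
        by_cases h4 : η = swE i j ζ
        · rw [if_pos h4, if_pos]
          refine ⟨by omega, ?_⟩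
          rw [hsw2]; exact h4
        · rw [if_neg h4, if_neg]
          rintro ⟨_, h5⟩
          rw [hsw2] at h5
          exact h4 h5
      · rw [if_neg h2, if_neg, neg_zero]
        rintro ⟨h3, h4⟩
        rw [hsw2] at h4
        rw [h4] at h1
        unfold swE at h1
        rw [Equiv.swap_apply_left, Equiv.swap_apply_right] at h1
        omega
  -- expand f
  have hexp : f = ∑ η ∈ f.coeff.support, f.coeff η • mon η := by
    have := AddMonoidAlgebra.sum_coeff_single f
    conv_lhs => rw [← this, Finsupp.sum]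
    apply Finset.sum_congr rfl
    intro η _
    unfold mon
    rw [AddMonoidAlgebra.smul_single, smul_eq_mul, mul_one]
  have hG : (G i j f).coeff ζ = ∑ η ∈ f.coeff.support, f.coeff η * (Gmon i j η : Lau F N).coeff ζ := by
    change (f.coeff.sum (fun η a => a • Gmon i j η)).coeff ζ = _
    rw [Finsupp.sum, AddMonoidAlgebra.coeff_sum, Finsupp.finsetSum_apply]
    rfl
  have hc : ∀ ζ' : Fin N → ℤ, f.coeff ζ' = ∑ η ∈ f.coeff.support, f.coeff η * (mon η : Lau F N).coeff ζ' := by
    intro ζ'
    conv_lhs => rw [hexp]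
    rw [AddMonoidAlgebra.coeff_sum, Finsupp.finsetSum_apply]
    rfl
  rw [hG]
  have h2 : ∀ η ∈ f.coeff.support, f.coeff η * (Gmon i j η : Lau F N).coeff ζ =
      f.coeff η * (if ζ j < ζ i then (mon η : Lau F N).coeff ζ - (mon η : Lau F N).coeff (swE i j ζ) else 0) := by
    intro η hη
    rw [hmon η (hf η (by simpa using hη))]
  rw [Finset.sum_congr rfl h2]
  by_cases h3 : ζ j < ζ i
  · simp only [if_pos h3, mul_sub, Finset.sum_sub_distrib]
    rw [← hc, ← hc]
  · simp only [if_neg h3, mul_zero, Finset.sum_const_zero]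

theorem Y_coeff (k : F) (χ : Fin N → ℤ) (hχ : Antitone χ) (i : Fin N) (f : Lau F N)
    (hf : ∀ η, f.coeff η ≠ 0 → Dom η χ) :
    (Y k i f).coeff (fun l => χ l.rev) = ((χ i.rev : F) - k * (i : ℕ)) * f.coeff (fun l => χ l.rev) := by
  classical
  set ζ : Fin N → ℤ := fun l => χ l.rev with hζ
  have hmono : Monotone ζ := fun a b hab => hχ (by simpa using hab)
  have hs : ∑ l, ζ l ^ 2 = ∑ l, χ l ^ 2 := Equiv.sum_comp Fin.revPerm (fun l => χ l ^ 2)
  rw [Y_apply, th_apply]
  unfold Jm
  rw [AddMonoidAlgebra.coeff_sub, Finsupp.sub_apply, AddMonoidAlgebra.coeff_sub, Finsupp.sub_apply,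
    AddMonoidAlgebra.coeff_smul, Finsupp.smul_apply, AddMonoidAlgebra.coeff_smul, Finsupp.smul_apply,
    AddMonoidAlgebra.coeff_sum, Finsupp.finsetSum_apply, AddMonoidAlgebra.coeff_sum, Finsupp.finsetSum_apply, coeff_eul]
  have h1 : ∀ j ∈ univ.erase i, (G i j f).coeff ζ = if ζ j < ζ i then f.coeff ζ - f.coeff (swE i j ζ) else 0 :=
    fun j hj => G_coeff (Ne.symm (Finset.ne_of_mem_erase hj)) hs hf
  rw [Finset.sum_congr rfl h1]
  have h2 : ∑ j ∈ univ.erase i, (if ζ j < ζ i then f.coeff ζ - f.coeff (swE i j ζ) else 0)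
      = ∑ j ∈ Iio i, (f.coeff ζ - f.coeff (swE i j ζ)) := by
    symm
    apply Finset.sum_subset_zero_on_sdiff
    · intro j hj
      rw [mem_Iio] at hj
      rw [mem_erase]
      exact ⟨ne_of_lt hj, mem_univ _⟩
    · intro j hj
      rw [mem_sdiff, mem_Iio, not_lt] at hj
      rw [if_neg]
      exact not_lt.2 (hmono hj.2)
    · intro j hj
      rw [mem_Iio] at hj
      by_cases h3 : ζ j < ζ i
      · rw [if_pos h3]
      · have h4 : ζ j = ζ i := le_antisymm (hmono hj.le) (not_lt.1 h3)
        rw [if_neg h3]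
        have h5 : swE i j ζ = ζ := by
          rw [swE_eq, h4]; simp
        rw [h5, sub_self]
  have h3 : ∑ j ∈ Iio i, (act (Equiv.swap i j) f).coeff ζ = ∑ j ∈ Iio i, f.coeff (swE i j ζ) := by
    apply Finset.sum_congr rfl
    intro j _
    rw [coeff_act]; rfl
  rw [h2, h3, Finset.sum_sub_distrib, Finset.sum_const, Fin.card_Iio, smul_eq_mul, smul_eq_mul, nsmul_eq_mul]
  ring

/-- on symmetric functions. -/
lemma th_symm (k : F) (i : Fin N) {f : Lau F N} (hf : IsSymm f) : th k i f = eul i f := by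
  rw [th_apply]
  have : ∀ j ∈ univ.erase i, G i j f = 0 := by
    intro j hj
    apply xv_sub_cancel (Ne.symm (Finset.ne_of_mem_erase hj))
    rw [G_spec, hf]; simp
  rw [Finset.sum_congr rfl this]; simp

lemma Y_symm (k : F) (i : Fin N) {f : Lau F N} (hf : IsSymm f) : Y k i f = eul i f - (k * (i : ℕ)) • f := by
  rw [Y_apply, th_symm k i hf]
  unfold Jm
  simp only [hf _]
  rw [Finset.sum_const, Fin.card_Iio, ← Nat.cast_smul_eq_nsmul F, smul_smul]

/-- the CMS operator on symmetric functions exists and is a polynomial in the `Y`s. -/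
theorem cms_iff (k : F) (f : Lau F N) (hf : IsSymm f) (g : Lau F N) :
    IsCMS k f g ↔ g = ∑ i, Y k i (Y k i f) + (k * ((N : F) - 1)) • ∑ i, Y k i f
      + (k ^ 2 * ((N : F) - 1) * (∑ i : Fin N, ((i : ℕ) : F)) - k ^ 2 * ∑ i : Fin N, ((i : ℕ) : F) ^ 2) • f := by
  classical
  -- the operator computed with any admissible D
  have hmain : ∀ D : Fin N → Fin N → Lau F N, (∀ i j, (xv i - xv j) * D i j = eul i f - eul j f) →
      ∑ i, eul i (eul i f) - k • ∑ i, ∑ j ∈ Ioi i, (xv i + xv j) * D i j =
      ∑ i, Y k i (Y k i f) + (k * ((N : F) - 1)) • ∑ i, Y k i f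
      + (k ^ 2 * ((N : F) - 1) * (∑ i : Fin N, ((i : ℕ) : F)) - k ^ 2 * ∑ i : Fin N, ((i : ℕ) : F) ^ 2) • f := by
    intro D hD
    have hGD : ∀ i j, i ≠ j → G i j (eul i f) = xv i * D i j := by
      intro i j hij
      apply xv_sub_cancel hij
      rw [G_spec, act_eul, hf, Equiv.swap_apply_left]
      have := hD i j
      linear_combination (-xv i) * this
    have hsym : ∀ i j, i ≠ j → D j i = D i j := by
      intro i j hij
      apply xv_sub_cancel hij
      have h1 := hD i j
      have h2 := hD j i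
      linear_combination (-1) * h1 - h2
    have hYY : ∀ i, Y k i (Y k i f) = eul i (eul i f) - k • ∑ j ∈ univ.erase i, xv i * D i j
        - k • ∑ j ∈ Iio i, eul j f - (k * (i : ℕ)) • (eul i f) + (k ^ 2 * ((i : ℕ) : F) ^ 2) • f := by
      intro i
      rw [Y_symm k i hf, map_sub, map_smul, Y_symm k i hf, Y_apply, th_apply]
      have e1 : ∑ j ∈ univ.erase i, G i j (eul i f) = ∑ j ∈ univ.erase i, xv i * D i j := by
        apply Finset.sum_congr rfl
        intro j hj
        exact hGD i j (Ne.symm (Finset.ne_of_mem_erase hj))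
      have e2 : Jm i (eul i f) = ∑ j ∈ Iio i, eul j f := by
        unfold Jm
        apply Finset.sum_congr rfl
        intro j _
        rw [act_eul, hf, Equiv.swap_apply_left]
      rw [e1, e2, smul_sub, smul_smul]
      have e3 : k * ((i : ℕ) : F) * (k * ((i : ℕ) : F)) = k ^ 2 * ((i : ℕ) : F) ^ 2 := by ring
      rw [e3]
      abel
    have hs1 : ∑ i, ∑ j ∈ univ.erase i, xv i * D i j = ∑ i, ∑ j ∈ Ioi i, (xv i + xv j) * D i j := by
      have h1 := sum_pairs (fun i j : Fin N => if i = j then 0 else xv i * D i j)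
      have h2 : ∑ i : Fin N, (fun i j : Fin N => if i = j then 0 else xv i * D i j) i i = 0 := by
        apply Finset.sum_eq_zero
        intro i _
        simp
      rw [h2, sub_zero] at h1
      have h3 : ∑ i : Fin N, ∑ j ∈ Ioi i, (xv i + xv j) * D i j =
          ∑ i : Fin N, ∑ j ∈ Ioi i, ((fun i j : Fin N => if i = j then 0 else xv i * D i j) i j
            + (fun i j : Fin N => if i = j then 0 else xv i * D i j) j i) := by
        apply Finset.sum_congr rfl
        intro i _
        apply Finset.sum_congr rfl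
        intro j hj
        rw [mem_Ioi] at hj
        simp only
        rw [if_neg (ne_of_lt hj), if_neg (ne_of_gt hj), hsym i j (ne_of_lt hj)]
        ring
      rw [h3, h1]
      apply Finset.sum_congr rfl
      intro i _
      rw [← Finset.add_sum_erase univ _ (mem_univ i), if_pos rfl, zero_add]
      apply Finset.sum_congr rfl
      intro j hj
      rw [if_neg (Ne.symm (Finset.ne_of_mem_erase hj))]
    have hs2 : ∑ i : Fin N, ∑ j ∈ Iio i, eul j f = ∑ j : Fin N, ((N : F) - 1 - (j : ℕ)) • eul j f := by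
      have h1 : ∑ i : Fin N, ∑ j ∈ Iio i, eul j f = ∑ j : Fin N, ∑ i ∈ Ioi j, eul j f := by
        apply Finset.sum_comm'
        intro x y
        simp
      rw [h1]
      apply Finset.sum_congr rfl
      intro j _
      rw [Finset.sum_const, Fin.card_Ioi, ← Nat.cast_smul_eq_nsmul F]
      congr 1
      have := j.2
      rw [Nat.cast_sub (by omega), Nat.cast_sub (by omega)]
      simp
    simp only [hYY, Finset.sum_add_distrib, Finset.sum_sub_distrib, ← Finset.smul_sum]
    rw [hs1, hs2]
    have hY1 : ∀ i, Y k i f = eul i f - (k * (i : ℕ)) • f := fun i => Y_symm k i hf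
    simp only [hY1, Finset.sum_sub_distrib, smul_sub]
    have e4 : ∑ i : Fin N, (k * ((i : ℕ) : F)) • f = (k * ∑ i : Fin N, ((i : ℕ) : F)) • f := by
      rw [← Finset.sum_smul, Finset.mul_sum]
    have e5 : ∑ i : Fin N, (k ^ 2 * ((i : ℕ) : F) ^ 2) • f = (k ^ 2 * ∑ i : Fin N, ((i : ℕ) : F) ^ 2) • f := by
      rw [← Finset.sum_smul, Finset.mul_sum]
    have e6 : ∑ i : Fin N, (k * ((i : ℕ) : F)) • eul i f = k • ∑ i : Fin N, ((i : ℕ) : F) • eul i f := by
      rw [Finset.smul_sum]
      apply Finset.sum_congr rfl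
      intro i _
      rw [smul_smul]
    have e7 : ∑ j : Fin N, ((N : F) - 1 - (j : ℕ)) • eul j f = ((N : F) - 1) • ∑ j, eul j f - ∑ j : Fin N, ((j : ℕ) : F) • eul j f := by
      rw [Finset.smul_sum, ← Finset.sum_sub_distrib]
      apply Finset.sum_congr rfl
      intro j _
      rw [sub_smul]
    rw [e4, e5, e6, e7]
    simp only [smul_sub, smul_smul]
    have e8 : k * ((N : F) - 1) * (k * ∑ i : Fin N, ((i : ℕ) : F)) = k ^ 2 * ((N : F) - 1) * ∑ i : Fin N, ((i : ℕ) : F) := by ring
    rw [e8, sub_smul (k ^ 2 * ((N : F) - 1) * ∑ i : Fin N, ((i : ℕ) : F))]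
    abel
  constructor
  · rintro ⟨D, hD, rfl⟩
    exact hmain D hD
  · intro hg
    have hD : ∀ i j : Fin N, (xv i - xv j) * (inv (xv i) * G i j (eul i f)) = eul i f - eul j f := by
      intro i j
      have h1 := G_spec i j (eul i f)
      rw [act_eul, hf, Equiv.swap_apply_left] at h1
      have h2 := xv_mul_inv (F := F) i
      linear_combination inv (xv i) * h1 + (eul i f - eul j f) * h2
    exact ⟨fun i j => inv (xv i) * G i j (eul i f), hD, by rw [hg, hmain _ hD]⟩

end Pool.Agent.JL
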