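import Mathlib
import Pool.Agent.JL.Defs
import Pool.Agent.JL.N2a
import Pool.Agent.JL.S
import Pool.Agent.JL.N1a
import Pool.Agent.JL.N1b
import Pool.Agent.JL.N1c

/-! Jack polynomials: uniqueness, existence, eigenvalues, Pieri rule. -/

namespace Pool.Agent.JL

open Finset

variable {F : Type*} [Field F] {N : ℕ}

/-- support condition -/
def InW (χ : Fin N → ℤ) (f : Lau F N) : Prop := ∀ η, f.coeff η ≠ 0 → Dom η χ

lemma InW.zero (χ : Fin N → ℤ) : InW χ (0 : Lau F N) := fun η h => absurd (by simp) h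

lemma InW.add {χ : Fin N → ℤ} {f g : Lau F N} (hf : InW χ f) (hg : InW χ g) : InW χ (f + g) := by
  intro η h
  by_cases h1 : f.coeff η = 0
  · apply hg
    intro h2
    apply h
    rw [AddMonoidAlgebra.coeff_add, Finsupp.add_apply, h1, h2, add_zero]
  · exact hf η h1

lemma InW.smul {χ : Fin N → ℤ} {f : Lau F N} (c : F) (hf : InW χ f) : InW χ (c • f) := by
  intro η h
  apply hf
  intro h1
  apply h
  rw [AddMonoidAlgebra.coeff_smul, Finsupp.smul_apply, h1, smul_zero]

lemma InW.sub {χ : Fin N → ℤ} {f g : Lau F N} (hf : InW χ f) (hg : InW χ g) : InW χ (f - g) := by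
  have := hf.add (hg.smul (-1))
  rwa [neg_one_smul, ← sub_eq_add_neg] at this

lemma InW.sum {χ : Fin N → ℤ} {ι : Type*} (s : Finset ι) (f : ι → Lau F N) (hf : ∀ i ∈ s, InW χ (f i)) :
    InW χ (∑ i ∈ s, f i) := by
  classical
  induction s using Finset.induction_on with
  | empty => simpa using InW.zero χ
  | insert a s ha ih =>
    rw [Finset.sum_insert ha]
    exact (hf a (mem_insert_self a s)).add (ih (fun i hi => hf i (mem_insert_of_mem hi)))

/-- the CMS operator (its value on symmetric functions). -/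
noncomputable def Hop (k : F) : Module.End F (Lau F N) :=
  ∑ i, Y k i * Y k i + (k * ((N : F) - 1)) • ∑ i, Y k i
      + (k ^ 2 * ((N : F) - 1) * (∑ i : Fin N, ((i : ℕ) : F)) - k ^ 2 * ∑ i : Fin N, ((i : ℕ) : F) ^ 2) •
        (1 : Module.End F (Lau F N))

lemma cms_iff_Hop (k : F) (f : Lau F N) (hf : IsSymm f) (g : Lau F N) :
    IsCMS k f g ↔ g = Hop k f := by
  rw [cms_iff k f hf g]
  unfold Hop
  simp only [LinearMap.add_apply, LinearMap.sum_apply, LinearMap.smul_apply, Module.End.mul_apply,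
    Module.End.one_apply]

lemma Hop_comm_Cop (k u : F) : Commute (Cop k u : Module.End F (Lau F N)) (Hop k) := by
  unfold Hop
  apply Commute.add_right
  · apply Commute.add_right
    · exact Commute.sum_right _ _ _ (fun i _ => (Cop_Y_comm k u i).mul_right (Cop_Y_comm k u i))
    · exact (Commute.sum_right _ _ _ (fun i _ => Cop_Y_comm k u i)).smul_right _
  · exact (Commute.one_right _).smul_right _

lemma Hop_InW {k : F} {χ : Fin N → ℤ} (hχ : Antitone χ) {f : Lau F N} (hf : InW χ f) : InW χ (Hop k f) := by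
  unfold Hop
  simp only [LinearMap.add_apply, LinearMap.sum_apply, LinearMap.smul_apply, Module.End.mul_apply,
    Module.End.one_apply]
  apply InW.add
  · apply InW.add
    · exact InW.sum _ _ (fun i _ => Y_supp k χ i _ (Y_supp k χ i f hf))
    · exact (InW.sum _ _ (fun i _ => Y_supp k χ i f hf)).smul _
  · exact hf.smul _

lemma Cop_InW {k u : F} {χ : Fin N → ℤ} (hχ : Antitone χ) {f : Lau F N} (hf : InW χ f) : InW χ (Cop k u f) := by
  unfold Cop
  have : ∀ l : List (Module.End F (Lau F N)), (∀ T ∈ l, ∀ g, InW χ g → InW χ (T g)) →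
      ∀ g, InW χ g → InW χ (l.prod g) := by
    intro l
    induction l with
    | nil => intro _ g hg; simpa using hg
    | cons T l ih =>
      intro h g hg
      rw [List.prod_cons, Module.End.mul_apply]
      exact h T (by simp) _ (ih (fun S hS => h S (by simp [hS])) g hg)
  apply this _ _ _ hf
  intro T hT g hg
  rw [List.mem_ofFn] at hT
  obtain ⟨i, rfl⟩ := hT
  simp only [LinearMap.sub_apply, LinearMap.smul_apply, Module.End.one_apply]
  exact (hg.smul u).sub (Y_supp k χ i g hg)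

lemma Hop_coeff {k : F} {χ : Fin N → ℤ} (hχ : Antitone χ) {f : Lau F N} (hf : InW χ f) :
    (Hop k f).coeff (fun l => χ l.rev) = Ev k χ * f.coeff (fun l => χ l.rev) := by
  unfold Hop
  simp only [LinearMap.add_apply, LinearMap.sum_apply, LinearMap.smul_apply, Module.End.mul_apply,
    Module.End.one_apply, AddMonoidAlgebra.coeff_add, AddMonoidAlgebra.coeff_smul, Finsupp.add_apply,
    Finsupp.smul_apply, AddMonoidAlgebra.coeff_sum, Finsupp.finsetSum_apply, smul_eq_mul]
  have h1 : ∀ i : Fin N, (Y k i (Y k i f)).coeff (fun l => χ l.rev)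
      = ((χ i.rev : F) - k * (i : ℕ)) * (((χ i.rev : F) - k * (i : ℕ)) * f.coeff (fun l => χ l.rev)) := by
    intro i
    rw [Y_coeff k χ hχ i _ (Y_supp k χ i f hf), Y_coeff k χ hχ i f hf]
  simp only [h1, Y_coeff k χ hχ _ f hf]
  rw [← Finset.sum_mul]
  have h2 : ∑ i : Fin N, ((χ i.rev : F) - k * (i : ℕ)) * (((χ i.rev : F) - k * (i : ℕ)) * f.coeff (fun l => χ l.rev))
      = (∑ i : Fin N, ((χ i.rev : F) - k * (i : ℕ)) ^ 2) * f.coeff (fun l => χ l.rev) := by
    rw [Finset.sum_mul]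
    apply Finset.sum_congr rfl
    intro i _
    ring
  rw [h2, ← mul_assoc, ← add_mul, ← add_mul]
  congr 1
  unfold Ev
  have hrev : ∀ g : Fin N → F, ∑ i : Fin N, g i.rev = ∑ i, g i := fun g => Equiv.sum_comp Fin.revPerm g
  have e1 : ∑ i : Fin N, ((χ i.rev : F) - k * (i : ℕ)) ^ 2
      = ∑ i : Fin N, (χ i : F) ^ 2 - 2 * k * ∑ i : Fin N, (χ i : F) * ((N : F) - 1 - (i : ℕ)) + k ^ 2 * ∑ i : Fin N, ((i : ℕ) : F) ^ 2 := by
    rw [← hrev (fun i => (χ i : F) ^ 2), ← hrev (fun i => (χ i : F) * ((N : F) - 1 - (i : ℕ))),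
      Finset.mul_sum, Finset.mul_sum, ← Finset.sum_sub_distrib, ← Finset.sum_add_distrib]
    apply Finset.sum_congr rfl
    intro i _
    have : ((i.rev : ℕ) : F) = (N : F) - 1 - (i : ℕ) := by
      rw [Fin.val_rev]
      have := i.2
      rw [Nat.cast_sub (by omega)]
      push_cast
      ring
    rw [this]
    ring
  have e2 : ∑ i : Fin N, ((χ i.rev : F) - k * (i : ℕ)) = ∑ i : Fin N, (χ i : F) - k * ∑ i : Fin N, ((i : ℕ) : F) := by
    rw [← hrev (fun i => (χ i : F)), Finset.mul_sum, ← Finset.sum_sub_distrib]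
  rw [e1, e2]
  have e3 : ∑ i : Fin N, (χ i : F) * ((χ i : F) + k * (2 * (i : ℕ) + 1 - N))
      = ∑ i : Fin N, (χ i : F) ^ 2 + k * (∑ i : Fin N, (χ i : F) * (2 * (i : ℕ) + 1 - N)) := by
    rw [Finset.mul_sum, ← Finset.sum_add_distrib]
    apply Finset.sum_congr rfl
    intro i _
    ring
  rw [e3]
  have e4 : ∑ i : Fin N, (χ i : F) * (2 * (i : ℕ) + 1 - N)
      = ((N : F) - 1) * ∑ i : Fin N, (χ i : F) - 2 * ∑ i : Fin N, (χ i : F) * ((N : F) - 1 - (i : ℕ)) := by
    rw [Finset.mul_sum, Finset.mul_sum, ← Finset.sum_sub_distrib]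
    apply Finset.sum_congr rfl
    intro i _
    ring
  rw [e4]
  ring

/-- symmetrised coefficient. -/
lemma IsSymm.coeff_rev {f : Lau F N} (hf : IsSymm f) (χ : Fin N → ℤ) :
    f.coeff (fun l => χ l.rev) = f.coeff χ := hf.coeff_comp Fin.revPerm χ

lemma Cop_coeff {k u : F} {χ : Fin N → ℤ} (hχ : Antitone χ) {f : Lau F N} (hf : InW χ f) :
    (Cop k u f).coeff (fun l => χ l.rev)
      = (∏ i : Fin N, (u - ((χ i.rev : F) - k * (i : ℕ)))) * f.coeff (fun l => χ l.rev) := by
  unfold Cop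
  rw [← List.prod_ofFn]
  -- generalise the list of indices
  have : ∀ (n : ℕ) (g : Fin n → Fin N) (f : Lau F N), InW χ f →
      InW χ ((List.ofFn (fun i : Fin n => u • (1 : Module.End F (Lau F N)) - Y k (g i))).prod f) ∧
      ((List.ofFn (fun i : Fin n => u • (1 : Module.End F (Lau F N)) - Y k (g i))).prod f).coeff (fun l => χ l.rev)
        = (List.ofFn (fun i : Fin n => (u - ((χ (g i).rev : F) - k * ((g i : Fin N) : ℕ))))).prod
          * f.coeff (fun l => χ l.rev) := by
    intro n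
    induction n with
    | zero => intro g f hf; simpa using hf
    | succ n ih =>
      intro g f hf
      rw [List.ofFn_succ, List.ofFn_succ, List.prod_cons, List.prod_cons, Module.End.mul_apply]
      obtain ⟨h1, h2⟩ := ih (fun i => g i.succ) f hf
      set h := (List.ofFn (fun i : Fin n => u • (1 : Module.End F (Lau F N)) - Y k (g i.succ))).prod f
      simp only [LinearMap.sub_apply, LinearMap.smul_apply, Module.End.one_apply]
      refine ⟨(h1.smul u).sub (Y_supp k χ _ h h1), ?_⟩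
      rw [AddMonoidAlgebra.coeff_sub, Finsupp.sub_apply, AddMonoidAlgebra.coeff_smul, Finsupp.smul_apply,
        Y_coeff k χ hχ _ h h1, h2, smul_eq_mul]
      ring
  exact (this N id f hf).2

/-- restriction of the support -/
noncomputable def restr (p : (Fin N → ℤ) → Prop) (f : Lau F N) : Lau F N :=
  open Classical in ⟨f.coeff.filter p⟩

lemma coeff_restr (p : (Fin N → ℤ) → Prop) (f : Lau F N) (η : Fin N → ℤ) [Decidable (p η)] :
    (restr p f).coeff η = if p η then f.coeff η else 0 := by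
  unfold restr
  simp only [Finsupp.filter_apply]
  congr

lemma restr_add_restr_not (p : (Fin N → ℤ) → Prop) (f : Lau F N) :
    restr p f + restr (fun η => ¬ p η) f = f := by
  classical
  ext η
  rw [AddMonoidAlgebra.coeff_add, Finsupp.add_apply, coeff_restr, coeff_restr]
  by_cases h : p η <;> simp [h]

/-- linear maps that behave like `Hop` and `Cop`. -/
structure Tri (T : Module.End F (Lau F N)) (e : (Fin N → ℤ) → F) : Prop where
  inW : ∀ χ, Antitone χ → ∀ f, InW χ f → InW χ (T f)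
  co : ∀ χ, Antitone χ → ∀ f, InW χ f → (T f).coeff (fun l => χ l.rev) = e χ * f.coeff (fun l => χ l.rev)

lemma tri_Hop (k : F) : Tri (N := N) (Hop k) (Ev k) := ⟨fun _ h _ => Hop_InW h, fun _ h _ => Hop_coeff h⟩

lemma tri_Cop (k u : F) : Tri (N := N) (Cop k u) (fun χ => ∏ i : Fin N, (u - ((χ i.rev : F) - k * (i : ℕ)))) :=
  ⟨fun _ h _ => Cop_InW h, fun _ h _ => Cop_coeff h⟩

lemma Tri.top {T : Module.End F (Lau F N)} {e : (Fin N → ℤ) → F} (hT : Tri T e) {f : Lau F N} (hf : IsSymm f)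
    {ρ : Fin N → ℤ} (hρ : Antitone ρ)
    (hmax : ∀ η, Antitone η → f.coeff η ≠ 0 → wt η ≤ wt ρ) :
    (T f).coeff (fun l => ρ l.rev) = e ρ * f.coeff ρ := by
  classical
  have h1 := restr_add_restr_not (fun η => Dom η ρ) f
  have hW : InW ρ (restr (fun η => Dom η ρ) f) := by
    intro η h
    rw [coeff_restr] at h
    by_contra h2
    rw [if_neg h2] at h
    exact h rfl
  have hc := hT.co ρ hρ _ hW
  have hd0 : Dom (fun l : Fin N => ρ l.rev) ρ := (dom_refl hρ).comp Fin.revPerm
  rw [coeff_restr, if_pos hd0] at hc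
  have hz : (T (restr (fun η => ¬ Dom η ρ) f)).coeff (fun l => ρ l.rev) = 0 := by
    set g := restr (fun η => ¬ Dom η ρ) f with hg
    have hsum : g = ∑ η ∈ g.coeff.support, g.coeff η • mon η := by
      have := AddMonoidAlgebra.sum_coeff_single g
      rw [← this] 
      conv_lhs => rw [Finsupp.sum]
      rw [this]
      apply Finset.sum_congr rfl
      intro η _
      unfold mon
      rw [AddMonoidAlgebra.smul_single, smul_eq_mul, mul_one]
    rw [hsum, map_sum, AddMonoidAlgebra.coeff_sum, Finsupp.finsetSum_apply]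
    apply Finset.sum_eq_zero
    intro η hη
    rw [map_smul, AddMonoidAlgebra.coeff_smul, Finsupp.smul_apply]
    have hη2 : g.coeff η ≠ 0 := by simpa using hη
    rw [hg, coeff_restr] at hη2
    have hnd : ¬ Dom η ρ := by
      intro h
      rw [if_neg (by simpa using h)] at hη2
      exact hη2 rfl
    have hfη : f.coeff η ≠ 0 := by
      rw [if_pos hnd] at hη2
      exact hη2
    obtain ⟨σ, hσ⟩ := exists_sort η
    have hdom : Dom η (fun i => η (σ i)) := (dom_comp_iff σ).1 (dom_refl hσ)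
    have hmonW : InW (fun i => η (σ i)) (mon η : Lau F N) := by
      intro ζ hζ
      unfold mon at hζ
      rw [AddMonoidAlgebra.coeff_single, Finsupp.single_apply] at hζ
      have : η = ζ := by
        by_contra hne
        rw [if_neg hne] at hζ
        exact hζ rfl
      rw [← this]; exact hdom
    have hTW := hT.inW _ hσ _ hmonW
    have : (T (mon η)).coeff (fun l => ρ l.rev) = 0 := by
      by_contra hne
      have hd : Dom (fun l => ρ l.rev) (fun i => η (σ i)) := hTW _ hne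
      have hd2 : Dom ρ (fun i => η (σ i)) := (dom_comp_iff Fin.revPerm).1 hd
      have hs : f.coeff (fun i => η (σ i)) ≠ 0 := by rw [hf.coeff_comp]; exact hfη
      have := hd2.eq_of_wt (hmax _ hσ hs)
      apply hnd
      rw [this]
      exact hdom
    rw [this, smul_zero]
  conv_lhs => rw [← h1, map_add, AddMonoidAlgebra.coeff_add, Finsupp.add_apply, hz, add_zero, hc]
  rw [hf.coeff_rev]

/-- a nonzero symmetric polynomial has a `wt`-maximal antitone exponent. -/
lemma exists_max {f : Lau F N} (hf : IsSymm f) (h0 : f ≠ 0) :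
    ∃ ρ, Antitone ρ ∧ f.coeff ρ ≠ 0 ∧ ∀ η, Antitone η → f.coeff η ≠ 0 → wt η ≤ wt ρ := by
  classical
  have hne : (f.coeff.support.filter (fun η => Antitone η)).Nonempty := by
    have : f.coeff.support.Nonempty := by
      rw [Finsupp.support_nonempty_iff]
      intro h
      apply h0
      ext η
      rw [h]; rfl
    obtain ⟨η, hη⟩ := this
    obtain ⟨σ, hσ⟩ := exists_sort η
    refine ⟨fun i => η (σ i), ?_⟩
    rw [mem_filter, Finsupp.mem_support_iff, hf.coeff_comp]
    exact ⟨by simpa using hη, hσ⟩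
  obtain ⟨ρ, hρ, hmax⟩ := Finset.exists_max_image _ wt hne
  rw [mem_filter, Finsupp.mem_support_iff] at hρ
  refine ⟨ρ, hρ.2, hρ.1, fun η h1 h2 => hmax η ?_⟩
  rw [mem_filter, Finsupp.mem_support_iff]
  exact ⟨h2, h1⟩

/-- a relation `a + k b = 0` with integers forces `a = b = 0`. -/
lemma trans_zero {k : F} (hk : Transcendental ℤ k) {a b : ℤ} (h : (a : F) + k * (b : F) = 0) :
    a = 0 ∧ b = 0 := by
  have h1 : Polynomial.aeval k (Polynomial.C a + Polynomial.X * Polynomial.C b : Polynomial ℤ) = 0 := by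
    simpa using h
  have h2 := (transcendental_iff.1 hk) _ h1
  constructor
  · have := congrArg (fun p => Polynomial.coeff p 0) h2
    simpa using this
  · have := congrArg (fun p => Polynomial.coeff p 1) h2
    simp only [Polynomial.coeff_add, Polynomial.coeff_zero] at this
    rw [Polynomial.coeff_C, if_neg one_ne_zero, zero_add, Polynomial.coeff_X_mul, Polynomial.coeff_C_zero] at this
    exact this

lemma sum_wt (η : Fin N → ℤ) : wt η = ∑ i : Fin N, ((N : ℤ) - 1 - (i : ℕ)) * η i := by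
  unfold wt psm
  simp only [Finset.sum_filter]
  rw [Finset.sum_comm]
  apply Finset.sum_congr rfl
  intro i _
  rw [← Finset.sum_filter, Finset.sum_const, nsmul_eq_mul]
  congr 1
  have h1 : (univ.filter (fun a : Fin N => (i : ℕ) < (a : ℕ))) = Finset.Ioi i := by
    ext a; simp
  rw [h1, Fin.card_Ioi]
  have := i.2
  omega

lemma Ev_ne {k : F} (hk : Transcendental ℤ k) {η χ : Fin N → ℤ} (h : Dom η χ)
    (he : Ev k η = Ev k χ) : η = χ := by
  have h1 : ∀ η : Fin N → ℤ, Ev k η = ((∑ i, η i ^ 2 : ℤ) : F)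
      + k * ((∑ i : Fin N, (2 * ((i : ℕ) : ℤ) + 1 - N) * η i : ℤ) : F) := by
    intro η
    unfold Ev
    push_cast
    rw [Finset.mul_sum, ← Finset.sum_add_distrib]
    apply Finset.sum_congr rfl
    intro i _
    ring
  rw [h1, h1] at he
  have h2 : (((∑ i, η i ^ 2) - (∑ i, χ i ^ 2) : ℤ) : F)
      + k * (((∑ i : Fin N, (2 * ((i : ℕ) : ℤ) + 1 - N) * η i) - (∑ i : Fin N, (2 * ((i : ℕ) : ℤ) + 1 - N) * χ i) : ℤ) : F) = 0 := by
    push_cast
    push_cast at he
    linear_combination he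
  have h3 := (trans_zero hk h2).2
  apply h.eq_of_wt
  rw [sum_wt, sum_wt]
  have e : ∀ η : Fin N → ℤ, ∑ i : Fin N, ((N : ℤ) - 1 - (i : ℕ)) * η i * 2
      = ((N : ℤ) - 1) * (∑ i, η i) - ∑ i : Fin N, (2 * ((i : ℕ) : ℤ) + 1 - N) * η i := by
    intro η
    rw [Finset.mul_sum, ← Finset.sum_sub_distrib]
    apply Finset.sum_congr rfl
    intro i _
    ring
  have e1 := e η
  have e2 := e χ
  rw [← Finset.sum_mul] at e1 e2
  rw [h.1] at e1
  linarith

/-- key uniqueness lemma -/
lemma eq_zero_of_eigen {k : F} (hk : Transcendental ℤ k) {χ : Fin N → ℤ} {f : Lau F N}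
    (hf : IsSymm f) (hW : InW χ f) (h0 : f.coeff χ = 0) (hE : Hop k f = Ev k χ • f) : f = 0 := by
  by_contra hne
  obtain ⟨ρ, hρ, hρf, hmax⟩ := exists_max hf hne
  have h1 := (tri_Hop k).top hf hρ hmax
  rw [hE, AddMonoidAlgebra.coeff_smul, Finsupp.smul_apply, hf.coeff_rev, smul_eq_mul] at h1
  have h2 : Ev k ρ = Ev k χ := by
    have := mul_right_cancel₀ hρf h1
    exact this.symm
  have h3 := Ev_ne hk (hW ρ hρf) h2
  rw [h3] at hρf
  exact hρf h0

theorem jack_antitone (k : F) (χ : Fin N → ℤ) (P : Lau F N) (h : IsJack k χ P) : Antitone χ := by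
  apply dom_self_antitone
  apply h.2.2.1
  rw [h.2.1]
  exact one_ne_zero

lemma jack_Hop {k : F} {χ : Fin N → ℤ} {P : Lau F N} (h : IsJack k χ P) : Hop k P = Ev k χ • P := by
  obtain ⟨c, hc⟩ := h.2.2.2
  rw [cms_iff_Hop k P h.1] at hc
  have h1 := Hop_coeff (k := k) (jack_antitone k χ P h) h.2.2.1
  rw [← hc, AddMonoidAlgebra.coeff_smul, Finsupp.smul_apply, h.1.coeff_rev, h.2.1, smul_eq_mul, mul_one, mul_one] at h1
  rw [← hc, h1]

theorem jack_eigen (k : F) (χ : Fin N → ℤ) (P : Lau F N)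
    (h : IsJack k χ P) : IsCMS k P (Ev k χ • P) := by
  rw [cms_iff_Hop k P h.1, jack_Hop h]

theorem jack_unique (k : F) (hk : Transcendental ℤ k) (χ : Fin N → ℤ)
    (P P' : Lau F N) (h : IsJack k χ P) (h' : IsJack k χ P') : P = P' := by
  have h1 : P - P' = 0 := by
    apply eq_zero_of_eigen hk (h.1.sub h'.1) (InW.sub h.2.2.1 h'.2.2.1)
    · rw [AddMonoidAlgebra.coeff_sub, Finsupp.sub_apply, h.2.1, h'.2.1, sub_self]
    · rw [map_sub, jack_Hop h, jack_Hop h', smul_sub]
  exact sub_eq_zero.1 h1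

lemma Hop_symm (k : F) {f : Lau F N} (hf : IsSymm f) : IsSymm (Hop k f) := by
  intro σ
  have e : ∀ g : Lau F N, Hop k g = ∑ i, Y k i (Y k i g) + (k * ((N : F) - 1)) • ∑ i, Y k i g
      + (k ^ 2 * ((N : F) - 1) * (∑ i : Fin N, ((i : ℕ) : F)) - k ^ 2 * ∑ i : Fin N, ((i : ℕ) : F) ^ 2) • g := by
    intro g
    unfold Hop
    simp only [LinearMap.add_apply, LinearMap.sum_apply, LinearMap.smul_apply, Module.End.mul_apply,
      Module.End.one_apply]
  rw [e, map_add, map_add, map_smul, map_smul, ← sumY_act, ← sumY2_act, hf σ]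

lemma Cop_symm (k u : F) {f : Lau F N} (hf : IsSymm f) : IsSymm (Cop k u f) := by
  intro σ
  rw [← Cop_act, hf σ]

/-- monomial symmetric function -/
noncomputable def msym (χ : Fin N → ℤ) : Lau F N :=
  ∑ η ∈ (univ.image (fun σ : Equiv.Perm (Fin N) => (fun i => χ (σ i)))), mon η

lemma coeff_mon (η ζ : Fin N → ℤ) : (mon η : Lau F N).coeff ζ = if η = ζ then 1 else 0 := by
  classical
  unfold mon
  rw [AddMonoidAlgebra.coeff_single, Finsupp.single_apply]

lemma coeff_msym (χ ζ : Fin N → ℤ) : (msym χ : Lau F N).coeff ζ =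
    if ζ ∈ (univ.image (fun σ : Equiv.Perm (Fin N) => (fun i => χ (σ i)))) then 1 else 0 := by
  classical
  unfold msym
  rw [AddMonoidAlgebra.coeff_sum, Finsupp.finsetSum_apply]
  simp only [coeff_mon]
  rw [Finset.sum_ite_eq' ]

lemma msym_symm (χ : Fin N → ℤ) : IsSymm (msym χ : Lau F N) := by
  classical
  rw [isSymm_iff_coeff]
  intro σ η
  rw [coeff_msym, coeff_msym]
  have : (fun i => η (σ i)) ∈ (univ.image (fun σ : Equiv.Perm (Fin N) => (fun i => χ (σ i)))) ↔
      η ∈ (univ.image (fun σ : Equiv.Perm (Fin N) => (fun i => χ (σ i)))) := by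
    simp only [mem_image, mem_univ, true_and]
    constructor
    · rintro ⟨τ, hτ⟩
      refine ⟨σ.symm.trans τ, ?_⟩
      ext i
      have := congrFun hτ (σ.symm i)
      simpa using this
    · rintro ⟨τ, hτ⟩
      refine ⟨σ.trans τ, ?_⟩
      ext i
      have := congrFun hτ (σ i)
      simpa using this
  simp only [this]

lemma msym_coeff_self (χ : Fin N → ℤ) : (msym χ : Lau F N).coeff χ = 1 := by
  classical
  rw [coeff_msym, if_pos]
  simp only [mem_image, mem_univ, true_and]
  exact ⟨Equiv.refl _, rfl⟩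

lemma msym_InW {χ : Fin N → ℤ} (hχ : Antitone χ) : InW χ (msym χ : Lau F N) := by
  classical
  intro η h
  rw [coeff_msym] at h
  have hm : η ∈ (univ.image (fun σ : Equiv.Perm (Fin N) => (fun i => χ (σ i)))) := by
    by_contra hne
    rw [if_neg hne] at h
    exact h rfl
  simp only [mem_image, mem_univ, true_and] at hm
  obtain ⟨σ, rfl⟩ := hm
  exact (dom_refl hχ).comp σ

/-- symmetric functions below `χ` with zero coefficient at `χ`. -/
def Vsub (F : Type*) [Field F] (χ : Fin N → ℤ) : Submodule F (Lau F N) where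
  carrier := {f | IsSymm f ∧ InW χ f ∧ f.coeff χ = 0}
  add_mem' := by
    rintro f g ⟨h1, h2, h3⟩ ⟨h1', h2', h3'⟩
    refine ⟨h1.add h1', h2.add h2', ?_⟩
    rw [AddMonoidAlgebra.coeff_add, Finsupp.add_apply, h3, h3', add_zero]
  zero_mem' := ⟨IsSymm.zero, InW.zero χ, rfl⟩
  smul_mem' := by
    rintro c f ⟨h1, h2, h3⟩
    refine ⟨h1.smul c, h2.smul c, ?_⟩
    rw [AddMonoidAlgebra.coeff_smul, Finsupp.smul_apply, h3, smul_zero]

lemma Vsub_finite (χ : Fin N → ℤ) : Module.Finite F (Vsub F χ) := by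
  classical
  have : Finite {η : Fin N → ℤ | Dom η χ} := (finite_dom χ).to_subtype
  let T : Vsub F χ →ₗ[F] ({η : Fin N → ℤ | Dom η χ} → F) :=
    { toFun := fun f η => f.1.coeff η.1
      map_add' := fun f g => by ext η; simp
      map_smul' := fun c f => by ext η; simp }
  apply Module.Finite.of_injective T
  intro f g h
  ext η
  by_cases hd : Dom η χ
  · exact congrFun h ⟨η, hd⟩
  · have h1 : f.1.coeff η = 0 := by
      by_contra hne; exact hd (f.2.2.1 η hne)
    have h2 : g.1.coeff η = 0 := by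
      by_contra hne; exact hd (g.2.2.1 η hne)
    rw [h1, h2]

theorem jack_exists (k : F) (hk : Transcendental ℤ k) (χ : Fin N → ℤ) (hχ : Antitone χ) :
    ∃ P : Lau F N, IsJack k χ P := by
  classical
  have := Vsub_finite (F := F) χ
  set A : Module.End F (Lau F N) := Hop k - Ev k χ • 1 with hA
  have hA_mem : ∀ f : Lau F N, IsSymm f → InW χ f → A f ∈ Vsub F χ := by
    intro f hf hW
    have e : A f = Hop k f - Ev k χ • f := by
      rw [hA]; simp
    refine ⟨?_, ?_, ?_⟩
    · rw [e]; exact (Hop_symm k hf).sub (hf.smul _)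
    · rw [e]; exact (Hop_InW hχ hW).sub (hW.smul _)
    · rw [e, AddMonoidAlgebra.coeff_sub, Finsupp.sub_apply, AddMonoidAlgebra.coeff_smul, Finsupp.smul_apply,
        ← (Hop_symm k hf).coeff_rev, Hop_coeff hχ hW, hf.coeff_rev, smul_eq_mul, sub_self]
  let B : Vsub F χ →ₗ[F] Vsub F χ := A.restrict (fun f hf => hA_mem f hf.1 hf.2.1)
  have hinj : Function.Injective B := by
    rw [← LinearMap.ker_eq_bot, LinearMap.ker_eq_bot']
    intro f hf
    have h1 : A f.1 = 0 := congrArg Subtype.val hf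
    have h2 : Hop k f.1 = Ev k χ • f.1 := by
      rw [hA] at h1
      simp only [LinearMap.sub_apply, LinearMap.smul_apply, Module.End.one_apply] at h1
      exact sub_eq_zero.1 h1
    have := eq_zero_of_eigen hk f.2.1 f.2.2.1 f.2.2.2 h2
    exact Subtype.ext this
  have hsurj := LinearMap.injective_iff_surjective.1 hinj
  obtain ⟨g, hg⟩ := hsurj ⟨A (msym χ), hA_mem _ (msym_symm χ) (msym_InW hχ)⟩
  have hg2 : A g.1 = A (msym χ) := congrArg Subtype.val hg
  refine ⟨msym χ - g.1, (msym_symm χ).sub g.2.1, ?_, (msym_InW hχ).sub g.2.2.1, Ev k χ, ?_⟩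
  · rw [AddMonoidAlgebra.coeff_sub, Finsupp.sub_apply, g.2.2.2, sub_zero]
    exact msym_coeff_self χ
  · rw [cms_iff_Hop k _ ((msym_symm χ).sub g.2.1)]
    have h3 : A (msym χ - g.1) = 0 := by rw [map_sub, hg2, sub_self]
    rw [hA] at h3
    simp only [LinearMap.sub_apply, LinearMap.smul_apply, Module.End.one_apply] at h3
    exact (sub_eq_zero.1 h3).symm

theorem jack_cop (k : F) (hk : Transcendental ℤ k) (χ : Fin N → ℤ) (P : Lau F N)
    (h : IsJack k χ P) (u : F) : Cop k u P = (∏ i : Fin N, (u - ((χ i.rev : F) - k * (i : ℕ)))) • P := by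
  have hχ := jack_antitone k χ P h
  set c := ∏ i : Fin N, (u - ((χ i.rev : F) - k * (i : ℕ))) with hc
  have h1 : Cop k u P - c • P = 0 := by
    apply eq_zero_of_eigen hk ((Cop_symm k u h.1).sub (h.1.smul c)) ((Cop_InW hχ h.2.2.1).sub (InW.smul c h.2.2.1))
    · rw [AddMonoidAlgebra.coeff_sub, Finsupp.sub_apply, AddMonoidAlgebra.coeff_smul, Finsupp.smul_apply,
        ← (Cop_symm k u h.1).coeff_rev, Cop_coeff hχ h.2.2.1, h.1.coeff_rev, smul_eq_mul, sub_self]
    · have hcomm := Hop_comm_Cop (N := N) k u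
      have h2 : Hop k (Cop k u P) = Cop k u (Hop k P) := by
        have := congrArg (fun T : Module.End F (Lau F N) => T P) hcomm
        simpa [Module.End.mul_apply] using this.symm
      rw [map_sub, h2, map_smul, jack_Hop h, map_smul, smul_sub, smul_comm c]
  exact sub_eq_zero.1 h1

/-- the spectrum determines the weight. -/
lemma spec_inj {k : F} (hk : Transcendental ℤ k) {χ ρ : Fin N → ℤ}
    (h : ∀ u : F, ∏ i : Fin N, (u - ((χ i.rev : F) - k * (i : ℕ)))
      = ∏ i : Fin N, (u - ((ρ i.rev : F) - k * (i : ℕ)))) : χ = ρ := by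
  ext j
  have h1 := h ((χ j : F) - k * (j.rev : ℕ))
  have hz : ∏ i : Fin N, (((χ j : F) - k * (j.rev : ℕ)) - ((χ i.rev : F) - k * (i : ℕ))) = 0 := by
    apply Finset.prod_eq_zero (mem_univ j.rev)
    rw [Fin.rev_rev, sub_self]
  rw [hz] at h1
  obtain ⟨i, _, hi⟩ := Finset.prod_eq_zero_iff.1 h1.symm
  have h2 : ((χ j - ρ i.rev : ℤ) : F) + k * (((i : ℕ) : ℤ) - ((j.rev : ℕ) : ℤ) : ℤ) = 0 := by
    push_cast
    linear_combination hi
  obtain ⟨e1, e2⟩ := trans_zero hk h2
  have e3 : i = j.rev := by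
    ext
    omega
  rw [e3, Fin.rev_rev] at e1
  omega

/-- symmetric `C(u)`-eigenfunctions. -/
lemma cop_eigen {k : F} (hk : Transcendental ℤ k) {g : Lau F N} (hg : IsSymm g) (c : F → F)
    (hc : ∀ u, Cop k u g = c u • g) (h0 : g ≠ 0) :
    ∃ ρ : Fin N → ℤ, Antitone ρ ∧ (∀ u, c u = ∏ i : Fin N, (u - ((ρ i.rev : F) - k * (i : ℕ)))) ∧
      ∃ a : F, g = a • jackP k ρ := by
  classical
  obtain ⟨ρ, hρ, hρg, hmax⟩ := exists_max hg h0
  have key : ∀ ρ' : Fin N → ℤ, Antitone ρ' → g.coeff ρ' ≠ 0 →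
      (∀ η, Antitone η → g.coeff η ≠ 0 → wt η ≤ wt ρ') →
      ∀ u, c u = ∏ i : Fin N, (u - ((ρ' i.rev : F) - k * (i : ℕ))) := by
    intro ρ' hρ' hne hm u
    have h1 := (tri_Cop k u).top hg hρ' hm
    rw [hc u, AddMonoidAlgebra.coeff_smul, Finsupp.smul_apply, hg.coeff_rev, smul_eq_mul] at h1
    exact mul_right_cancel₀ hne h1
  refine ⟨ρ, hρ, key ρ hρ hρg hmax, g.coeff ρ, ?_⟩
  obtain ⟨P, hP⟩ := jack_exists k hk ρ hρ
  have hjP : IsJack k ρ (jackP k ρ) := by
    unfold jackP
    rw [dif_pos ⟨P, hP⟩]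
    exact Exists.choose_spec _
  -- g - a P is an eigenfunction with the same eigenvalues and vanishing coefficient at ρ
  by_contra hne
  have hne2 : g - g.coeff ρ • jackP k ρ ≠ 0 := fun h => hne (sub_eq_zero.1 h)
  have hs : IsSymm (g - g.coeff ρ • jackP k ρ) := hg.sub (hjP.1.smul _)
  obtain ⟨ρ', hρ', hρg', hmax'⟩ := exists_max hs hne2
  have hce : ∀ u, Cop k u (g - g.coeff ρ • jackP k ρ) = c u • (g - g.coeff ρ • jackP k ρ) := by
    intro u
    rw [map_sub, map_smul, hc u, jack_cop k hk ρ _ hjP u, ← key ρ hρ hρg hmax u, smul_sub, smul_comm (c u)]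
  have h1 : ∀ u, c u = ∏ i : Fin N, (u - ((ρ' i.rev : F) - k * (i : ℕ))) := by
    intro u
    have h1 := (tri_Cop k u).top hs hρ' hmax'
    rw [hce u, AddMonoidAlgebra.coeff_smul, Finsupp.smul_apply, hs.coeff_rev, smul_eq_mul] at h1
    exact mul_right_cancel₀ hρg' h1
  have h2 : ρ = ρ' := spec_inj hk (fun u => by rw [← key ρ hρ hρg hmax u, h1 u])
  apply hρg'
  rw [← h2, AddMonoidAlgebra.coeff_sub, Finsupp.sub_apply, AddMonoidAlgebra.coeff_smul, Finsupp.smul_apply,
    hjP.2.1, smul_eq_mul, mul_one, sub_self]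

lemma jackP_spec {k : F} (hk : Transcendental ℤ k) {χ : Fin N → ℤ} (hχ : Antitone χ) :
    IsJack k χ (jackP k χ) := by
  have h := jack_exists k hk χ hχ
  unfold jackP
  rw [dif_pos h]
  exact h.choose_spec

lemma jackP_zero {k : F} {χ : Fin N → ℤ} (hχ : ¬ Antitone χ) : jackP k χ = 0 := by
  unfold jackP
  rw [dif_neg]
  rintro ⟨P, hP⟩
  exact hχ (jack_antitone k χ P hP)

lemma xv_sum_symm : IsSymm (∑ l, xv l : Lau F N) := by
  intro σ
  rw [map_sum]
  have : ∀ l : Fin N, act σ (xv l : Lau F N) = xv (σ l) := by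
    intro l
    unfold act xv mon
    rw [AddMonoidAlgebra.domCongr_single]
    congr 1
    ext i
    show (Pi.single l (1 : ℤ) : Fin N → ℤ) (σ.symm i) = (Pi.single (σ l) (1 : ℤ) : Fin N → ℤ) i
    by_cases h : i = σ l
    · subst h; simp
    · rw [Pi.single_eq_of_ne h, Pi.single_eq_of_ne]
      intro h2
      apply h
      rw [← h2]; simp
  simp only [this]
  exact Equiv.sum_comp σ (fun l => (xv l : Lau F N))

lemma spec_shift (k : F) (χ : Fin N → ℤ) (j : Fin N) (u : F) :
    (u - 1 - ((χ j.rev : F) - k * (j : ℕ))) * ∏ l ∈ univ.erase j, (u - ((χ l.rev : F) - k * (l : ℕ)))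
      = ∏ i : Fin N, (u - (((χ + Pi.single j.rev 1 : Fin N → ℤ) i.rev : F) - k * (i : ℕ))) := by
  refine Eq.trans ?_ (Finset.mul_prod_erase univ _ (mem_univ j))
  congr 1
  · simp only [Pi.add_apply, Pi.single_eq_same]
    push_cast
    ring
  · apply Finset.prod_congr rfl
    intro l hl
    have hne : l.rev ≠ j.rev := fun h => (Finset.ne_of_mem_erase hl) (Fin.rev_injective h)
    simp only [Pi.add_apply, Pi.single_eq_of_ne hne, add_zero]

lemma spec_injective {k : F} (hk : Transcendental ℤ k) (χ : Fin N → ℤ) :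
    Function.Injective (fun i : Fin N => (χ i.rev : F) - k * (i : ℕ)) := by
  intro i j hij
  simp only at hij
  have h2 : ((χ i.rev - χ j.rev : ℤ) : F) + k * (((j : ℕ) : ℤ) - ((i : ℕ) : ℤ) : ℤ) = 0 := by
    push_cast
    linear_combination hij
  have := (trans_zero hk h2).2
  ext
  omega

theorem pieri (k : F) (hk : Transcendental ℤ k) [Infinite F] (χ : Fin N → ℤ) (hχ : Antitone χ) :
    ∃ V : Fin N → F, (∑ l, xv l) * jackP k χ = ∑ i, V i • jackP k (χ + Pi.single i 1) := by
  have hP := jackP_spec hk hχ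
  obtain ⟨g, hg1, hg2⟩ := pieri_split k (jackP k χ) hP.1 _ (spec_injective hk χ)
    (fun u => jack_cop k hk χ _ hP u)
  have key : ∀ j : Fin N, ∃ a : F, g j = a • jackP k (χ + Pi.single j.rev 1) := by
    intro j
    by_cases h0 : g j = 0
    · exact ⟨0, by rw [h0, zero_smul]⟩
    obtain ⟨ρ, hρ, hc, a, ha⟩ := cop_eigen hk (hg2 j).1 _ (hg2 j).2 h0
    have hρe : χ + Pi.single j.rev 1 = ρ := by
      apply spec_inj hk
      intro u
      rw [← hc u, ← spec_shift]
    exact ⟨a, by rw [hρe]; exact ha⟩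
  choose a ha using key
  refine ⟨fun i => a i.rev, ?_⟩
  rw [hg1]
  show ∑ j, g j = ∑ i : Fin N, a i.rev • jackP k (χ + Pi.single i 1)
  refine Eq.trans ?_ (Equiv.sum_comp Fin.revPerm (fun i : Fin N => a i.rev • jackP k (χ + Pi.single i 1)))
  apply Finset.sum_congr rfl
  intro j _
  simp only [Fin.revPerm_apply, Fin.rev_rev]
  exact ha j

end Pool.Agent.JL
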