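import Mathlib
import Pool.Agent.JL.Defs
import Pool.Agent.JL.N2a
import Pool.Agent.JL.S
import Pool.Agent.JL.N1a
import Pool.Agent.JL.N1b
import Pool.Agent.JL.N1c
import Pool.Agent.JL.N2

/-! The Pieri coefficients are non-zero (a valuation argument at `k = 0`). -/

namespace Pool.Agent.JL

open Finset

variable {F : Type*} [Field F] {N : ℕ}

/-- a valuation with `v k < 1` and `v n = 1` for all non-zero integers. -/
lemma exists_valuation [CharZero F] (k : F) (hk : Transcendental ℤ k) :
    ∃ B : ValuationSubring F, B.valuation k < 1 ∧ ∀ n : ℤ, n ≠ 0 → B.valuation (n : F) = 1 := by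
  have hk' : Transcendental ℚ k := by
    intro h
    exact hk ((IsFractionRing.isAlgebraic_iff ℤ ℚ F).2 h)
  set A : Subring F := (Polynomial.aeval (R := ℚ) k).toRingHom.range with hA
  have hkA : k ∈ A := ⟨Polynomial.X, by simp⟩
  set I : Ideal A := Ideal.span {(⟨k, hkA⟩ : A)} with hI
  have hI1 : I ≠ ⊤ := by
    intro h
    rw [hI, Ideal.span_singleton_eq_top] at h
    obtain ⟨⟨b, ⟨q, hq⟩⟩, hb⟩ := h.exists_right_inv
    have h1 : k * b = 1 := congrArg Subtype.val hb
    have h2 : Polynomial.aeval k (Polynomial.X * q - 1 : Polynomial ℚ) = 0 := by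
      rw [map_sub, map_mul, Polynomial.aeval_X, map_one]
      have : Polynomial.aeval k q = b := hq
      rw [this, h1, sub_self]
    have h3 := (transcendental_iff.1 hk') _ h2
    have h4 := congrArg (fun p => Polynomial.eval 0 p) h3
    simp at h4
  obtain ⟨B, hB1, hB2⟩ := Ideal.image_subset_nonunits_valuationSubring I hI1
  refine ⟨B, ?_, ?_⟩
  · have : k ∈ B.nonunits := hB2 ⟨⟨k, hkA⟩, Ideal.subset_span rfl, rfl⟩
    exact (ValuationSubring.mem_nonunits_iff _).1 this
  · intro n hn
    have hrat : ∀ q : ℚ, (algebraMap ℚ F q) ∈ B := by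
      intro q
      exact hB1 ⟨Polynomial.C q, by simp⟩
    have h1 : B.valuation (n : F) ≤ 1 := by
      rw [ValuationSubring.valuation_le_one_iff]
      have := hrat n
      rwa [map_intCast] at this
    have h2 : B.valuation ((n : F)⁻¹) ≤ 1 := by
      rw [ValuationSubring.valuation_le_one_iff]
      have := hrat (n : ℚ)⁻¹
      simpa using this
    have hn' : (n : F) ≠ 0 := Int.cast_ne_zero.2 hn
    have h3 : B.valuation (n : F) * B.valuation ((n : F)⁻¹) = 1 := by
      rw [← map_mul, mul_inv_cancel₀ hn', map_one]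
    apply le_antisymm h1
    rw [← h3]
    exact mul_le_of_le_one_right' h2

section val

variable (B : ValuationSubring F)

/-- all coefficients have valuation `≤ c`. -/
def Bd (c : B.ValueGroup) (f : Lau F N) : Prop := ∀ η, B.valuation (f.coeff η) ≤ c

variable {B} {c : B.ValueGroup}

lemma Bd.add {f g : Lau F N} (hf : Bd B c f) (hg : Bd B c g) : Bd B c (f + g) := by
  intro η
  rw [AddMonoidAlgebra.coeff_add, Finsupp.add_apply]
  exact (B.valuation.map_add _ _).trans (max_le (hf η) (hg η))

lemma Bd.smul {f : Lau F N} {a : F} (ha : B.valuation a ≤ 1) (hf : Bd B c f) : Bd B c (a • f) := by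
  intro η
  rw [AddMonoidAlgebra.coeff_smul, Finsupp.smul_apply, smul_eq_mul, map_mul]
  exact mul_le_of_le_one_of_le ha (hf η)

lemma Bd.neg {f : Lau F N} (hf : Bd B c f) : Bd B c (-f) := by
  intro η
  rw [AddMonoidAlgebra.coeff_neg, Finsupp.neg_apply, Valuation.map_neg]
  exact hf η

lemma Bd.sub {f g : Lau F N} (hf : Bd B c f) (hg : Bd B c g) : Bd B c (f - g) := by
  rw [sub_eq_add_neg]; exact hf.add hg.neg

lemma Bd.zero : Bd B c (0 : Lau F N) := by
  intro η
  rw [AddMonoidAlgebra.coeff_zero, Finsupp.coe_zero, Pi.zero_apply, map_zero]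
  exact zero_le

lemma Bd.sum {ι : Type*} (s : Finset ι) (f : ι → Lau F N) (hf : ∀ i ∈ s, Bd B c (f i)) : Bd B c (∑ i ∈ s, f i) := by
  classical
  induction s using Finset.induction_on with
  | empty => simpa using Bd.zero
  | insert a s ha ih =>
    rw [Finset.sum_insert ha]
    exact (hf a (mem_insert_self a s)).add (ih (fun i hi => hf i (mem_insert_of_mem hi)))

lemma val_int_le (n : ℤ) : B.valuation (n : F) ≤ 1 := by
  rw [ValuationSubring.valuation_le_one_iff]
  exact intCast_mem B n

lemma val_nat_le (n : ℕ) : B.valuation (n : F) ≤ 1 := by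
  rw [ValuationSubring.valuation_le_one_iff]
  exact natCast_mem B n

lemma Bd.eul (i : Fin N) {f : Lau F N} (hf : Bd B c f) : Bd B c (JL.eul i f) := by
  intro η
  rw [coeff_eul, map_mul]
  exact mul_le_of_le_one_of_le (val_int_le _) (hf η)

lemma Bd.act (σ : Equiv.Perm (Fin N)) {f : Lau F N} (hf : Bd B c f) : Bd B c (JL.act σ f) := by
  intro η
  rw [coeff_act]
  exact hf _

lemma Bd.mon (η : Fin N → ℤ) : Bd B 1 (JL.mon η : Lau F N) := by
  intro ζ
  rw [coeff_mon']
  split_ifs
  · rw [map_one]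
  · rw [map_zero]; exact zero_le

lemma Bd.Gmon (i j : Fin N) (η : Fin N → ℤ) : Bd B 1 (JL.Gmon i j η : Lau F N) := by
  unfold JL.Gmon
  split_ifs
  · exact Bd.sum _ _ (fun t _ => Bd.mon _)
  · exact (Bd.sum _ _ (fun t _ => Bd.mon _)).neg

lemma Bd.smul' {f : Lau F N} {a : F} (ha : B.valuation a ≤ c) (hf : Bd B 1 f) : Bd B c (a • f) := by
  intro η
  rw [AddMonoidAlgebra.coeff_smul, Finsupp.smul_apply, smul_eq_mul, map_mul]
  exact mul_le_of_le_of_le_one ha (hf η)

lemma Bd.G (i j : Fin N) {f : Lau F N} (hf : Bd B c f) : Bd B c (JL.G i j f) := by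
  change Bd B c (f.coeff.sum (fun η a => a • JL.Gmon i j η))
  rw [Finsupp.sum]
  exact Bd.sum _ _ (fun η _ => Bd.smul' (hf η) (Bd.Gmon i j η))

/-- `Y_i = x_i∂_i - k R_i`. -/
noncomputable def Rop (i : Fin N) (f : Lau F N) : Lau F N := ∑ j ∈ univ.erase i, G i j f + Jm i f

lemma Y_eq_R (k : F) (i : Fin N) (f : Lau F N) : Y k i f = eul i f - k • Rop i f := by
  rw [Y_apply, th_apply]
  unfold Rop
  rw [smul_add]
  abel

lemma Bd.Rop (i : Fin N) {f : Lau F N} (hf : Bd B c f) : Bd B c (JL.Rop i f) := by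
  unfold JL.Rop Jm
  exact (Bd.sum _ _ (fun j _ => hf.G i j)).add (Bd.sum _ _ (fun j _ => hf.act _))

lemma Bd.Y {k : F} (hk : B.valuation k ≤ 1) (i : Fin N) {f : Lau F N} (hf : Bd B c f) : Bd B c (JL.Y k i f) := by
  rw [Y_eq_R]
  exact (hf.eul i).sub (Bd.smul hk (hf.Rop i))

lemma Hop_mod {k : F} (hk : B.valuation k ≤ 1) {f : Lau F N} (hf : Bd B c f) :
    ∃ g : Lau F N, Bd B c g ∧ Hop k f = ∑ i, eul i (eul i f) + k • g := by
  refine ⟨- ∑ i, (eul i (Rop i f) + Rop i (Y k i f)) + ((N : F) - 1) • ∑ i, Y k i f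
    + (k * ((N : F) - 1) * (∑ i : Fin N, ((i : ℕ) : F)) - k * ∑ i : Fin N, ((i : ℕ) : F) ^ 2) • f, ?_, ?_⟩
  · have hN : B.valuation ((N : F) - 1) ≤ 1 := by
      have := val_int_le (B := B) ((N : ℤ) - 1)
      push_cast at this
      exact this
    have h1 : B.valuation (∑ i : Fin N, ((i : ℕ) : F)) ≤ 1 := by
      have := val_nat_le (B := B) (∑ i : Fin N, (i : ℕ))
      push_cast at this
      exact this
    have h2 : B.valuation (∑ i : Fin N, ((i : ℕ) : F) ^ 2) ≤ 1 := by
      have := val_nat_le (B := B) (∑ i : Fin N, (i : ℕ) ^ 2)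
      push_cast at this
      exact this
    apply Bd.add
    · apply Bd.add
      · apply Bd.neg
        exact Bd.sum _ _ (fun i _ => ((hf.Rop i).eul i).add ((hf.Y hk i).Rop i))
      · exact Bd.smul hN (Bd.sum _ _ (fun i _ => hf.Y hk i))
    · apply Bd.smul _ hf
      refine (B.valuation.map_sub _ _).trans (max_le ?_ ?_)
      · rw [map_mul, map_mul]
        exact mul_le_one' (mul_le_one' hk hN) h1
      · rw [map_mul]
        exact mul_le_one' hk h2
  · unfold Hop
    simp only [LinearMap.add_apply, LinearMap.sum_apply, LinearMap.smul_apply, Module.End.mul_apply,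
      Module.End.one_apply]
    have h1 : ∀ i : Fin N, Y k i (Y k i f) = eul i (eul i f) - k • (eul i (Rop i f) + Rop i (Y k i f)) := by
      intro i
      rw [Y_eq_R k i (Y k i f)]
      conv_lhs => rw [Y_eq_R k i f]
      rw [map_sub, map_smul, ← Y_eq_R, smul_add]
      abel
    simp only [h1, Finset.sum_sub_distrib, ← Finset.smul_sum]
    simp only [smul_add, smul_neg, smul_smul]
    have e : k * (k * ((N : F) - 1) * (∑ i : Fin N, ((i : ℕ) : F)) - k * ∑ i : Fin N, ((i : ℕ) : F) ^ 2)
        = k ^ 2 * ((N : F) - 1) * (∑ i : Fin N, ((i : ℕ) : F)) - k ^ 2 * ∑ i : Fin N, ((i : ℕ) : F) ^ 2 := by ring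
    rw [e]
    abel

lemma coeff_eul_eul_sum (f : Lau F N) (η : Fin N → ℤ) :
    (∑ i, eul i (eul i f)).coeff η = ((∑ i, η i ^ 2 : ℤ) : F) * f.coeff η := by
  rw [AddMonoidAlgebra.coeff_sum, Finsupp.finsetSum_apply]
  simp only [coeff_eul]
  push_cast
  rw [Finset.sum_mul]
  apply Finset.sum_congr rfl
  intro i _
  ring

/-- the Jack polynomial is integral at `k = 0` and reduces to `m_χ`. -/
lemma jack_bd {k : F} (hk : B.valuation k < 1) (hn : ∀ n : ℤ, n ≠ 0 → B.valuation (n : F) = 1)
    {χ : Fin N → ℤ} {P : Lau F N} (h : IsJack k χ P) :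
    Bd B 1 P ∧ ∀ η, ∑ i, η i ^ 2 ≠ ∑ i, χ i ^ 2 → B.valuation (P.coeff η) < 1 := by
  classical
  have hne : P.coeff.support.Nonempty := ⟨χ, by rw [Finsupp.mem_support_iff, h.2.1]; exact one_ne_zero⟩
  obtain ⟨η₀, hη₀, hmax⟩ := Finset.exists_max_image _ (fun η => B.valuation (P.coeff η)) hne
  rw [Finsupp.mem_support_iff] at hη₀
  set c := B.valuation (P.coeff η₀) with hc
  have hc0 : c ≠ 0 := by
    rw [hc]; exact (Valuation.ne_zero_iff _).2 hη₀
  have hcpos : 0 < c := zero_lt_iff.2 hc0
  have hbd : Bd B c P := by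
    intro η
    by_cases h0 : P.coeff η = 0
    · rw [h0, map_zero]; exact zero_le
    · exact hmax η (by rw [Finsupp.mem_support_iff]; exact h0)
  obtain ⟨g, hg, hH⟩ := Hop_mod hk.le hbd
  rw [jack_Hop h] at hH
  have hEv : ∃ s : ℤ, Ev k χ = ((∑ i, χ i ^ 2 : ℤ) : F) + k * (s : F) := by
    refine ⟨∑ i : Fin N, (2 * ((i : ℕ) : ℤ) + 1 - N) * χ i, ?_⟩
    unfold Ev
    push_cast
    rw [Finset.mul_sum, ← Finset.sum_add_distrib]
    apply Finset.sum_congr rfl
    intro i _
    ring
  obtain ⟨s, hs⟩ := hEv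
  have key : ∀ η, (((∑ i, χ i ^ 2) - ∑ i, η i ^ 2 : ℤ) : F) * P.coeff η = k * (g.coeff η - (s : F) * P.coeff η) := by
    intro η
    have h1 := congrArg (fun f : Lau F N => f.coeff η) hH
    rw [AddMonoidAlgebra.coeff_add, Finsupp.add_apply, coeff_eul_eul_sum, AddMonoidAlgebra.coeff_smul,
      AddMonoidAlgebra.coeff_smul, Finsupp.smul_apply, Finsupp.smul_apply, smul_eq_mul, smul_eq_mul, hs] at h1
    rw [Int.cast_sub]
    linear_combination h1
  have key2 : ∀ η, ∑ i, η i ^ 2 ≠ ∑ i, χ i ^ 2 → B.valuation (P.coeff η) < c := by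
    intro η hη
    have h1 := congrArg B.valuation (key η)
    rw [map_mul, map_mul, hn _ (sub_ne_zero.2 (Ne.symm hη)), one_mul] at h1
    rw [h1]
    have h2 : B.valuation (g.coeff η - (s : F) * P.coeff η) ≤ c := by
      refine (B.valuation.map_sub _ _).trans (max_le (hg η) ?_)
      rw [map_mul]
      exact mul_le_of_le_one_of_le (val_int_le _) (hbd η)
    calc B.valuation k * B.valuation (g.coeff η - (s : F) * P.coeff η) ≤ B.valuation k * c := mul_le_mul_right h2 _
      _ < 1 * c := by
          exact mul_lt_mul_of_pos_right hk hcpos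
      _ = c := one_mul c
  have hc1 : c = 1 := by
    have h1 : ∑ i, η₀ i ^ 2 = ∑ i, χ i ^ 2 := by
      by_contra hne
      exact lt_irrefl _ (key2 η₀ hne)
    obtain ⟨σ, hσ⟩ := (h.2.2.1 η₀ hη₀).sq.2 h1
    have h2 : P.coeff χ = P.coeff η₀ := by
      rw [hσ]; exact h.1.coeff_comp σ η₀
    rw [hc, ← h2, h.2.1, map_one]
  rw [hc1] at hbd key2
  exact ⟨hbd, key2⟩

end val

lemma coeff_xv_mul (l : Fin N) (f : Lau F N) (ζ : Fin N → ℤ) :
    (xv l * f).coeff ζ = f.coeff (ζ - Pi.single l 1) := by
  revert f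
  apply lau_induction
  · intro η
    unfold xv
    rw [mon_mul, coeff_mon', coeff_mon']
    have : (Pi.single l 1 + η = ζ) ↔ (η = ζ - Pi.single l 1) := by
      constructor
      · intro h; rw [← h]; abel
      · intro h; rw [h]; abel
    simp only [this]
  · simp
  · intro f g hf hg
    rw [mul_add, AddMonoidAlgebra.coeff_add, Finsupp.add_apply, hf, hg]; rfl
  · intro c f hf
    rw [Algebra.mul_smul_comm, AddMonoidAlgebra.coeff_smul, Finsupp.smul_apply, hf]; rfl

lemma coeff_sum_xv_mul (f : Lau F N) (ζ : Fin N → ℤ) :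
    ((∑ l, xv l) * f).coeff ζ = ∑ l, f.coeff (ζ - Pi.single l 1) := by
  rw [Finset.sum_mul, AddMonoidAlgebra.coeff_sum, Finsupp.finsetSum_apply]
  exact Finset.sum_congr rfl (fun l _ => coeff_xv_mul l f ζ)

lemma antitone_perm_eq {a b : Fin N → ℤ} (ha : Antitone a) (hb : Antitone b) {σ : Equiv.Perm (Fin N)}
    (h : a = fun i => b (σ i)) : a = b := by
  have h1 : Dom a b := by rw [h]; exact (dom_refl hb).comp σ
  have h2 : Dom b a := by
    have h3 : b = fun i => a (σ.symm i) := by
      ext i; rw [h]; simp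
    conv_lhs => rw [h3]
    exact (dom_refl ha).comp σ.symm
  exact h1.eq_of_wt h2.wt_le

lemma psm_add_single (χ : Fin N → ℤ) (i : Fin N) (m : ℕ) :
    psm (χ + Pi.single i 1) m = psm χ m + if (i : ℕ) < m then 1 else 0 := by
  unfold psm
  simp only [Pi.add_apply, Finset.sum_add_distrib, Pi.single_apply]
  rw [Finset.sum_ite_eq']
  congr 1
  simp

lemma not_dom_of_lt {χ : Fin N → ℤ} {i j : Fin N} (hij : j < i) :
    ¬ Dom (χ + Pi.single j 1) (χ + Pi.single i 1) := by
  intro h
  have h1 := h.psm_le ((j : ℕ) + 1)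
  rw [psm_add_single, psm_add_single, if_pos (by omega), if_neg (by rw [Fin.lt_def] at hij; omega)] at h1
  omega

theorem pieri_ne_zero [CharZero F] (k : F) (hk : Transcendental ℤ k) (χ : Fin N → ℤ) (hχ : Antitone χ)
    (V : Fin N → F) (hV : (∑ l, xv l) * jackP k χ = ∑ i, V i • jackP k (χ + Pi.single i 1))
    (i : Fin N) (hi : Antitone (χ + Pi.single i 1)) : V i ≠ 0 := by
  classical
  obtain ⟨B, hBk, hBn⟩ := exists_valuation k hk
  have key : ∀ n : ℕ, ∀ j : Fin N, (j : ℕ) = n → Antitone (χ + Pi.single j 1) → B.valuation (V j) = 1 := by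
    intro n
    induction n using Nat.strong_induction_on with
    | _ n ih =>
      intro j hjn hj
      have hP := jackP_spec hk hχ
      obtain ⟨hb1, hb2⟩ := jack_bd hBk hBn hP
      have h1 := congrArg (fun f : Lau F N => f.coeff (χ + Pi.single j 1)) hV
      rw [coeff_sum_xv_mul, AddMonoidAlgebra.coeff_sum, Finsupp.finsetSum_apply] at h1
      have h1r := Finset.add_sum_erase univ (fun i => (V i • jackP k (χ + Pi.single i 1)).coeff (χ + Pi.single j 1)) (mem_univ j)
      replace h1 := h1.trans h1r.symm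
      rw [AddMonoidAlgebra.coeff_smul, Finsupp.smul_apply,
        (jackP_spec hk hj).2.1, smul_eq_mul, mul_one] at h1
      -- error terms
      have h2 : B.valuation (∑ i ∈ univ.erase j, (V i • jackP k (χ + Pi.single i 1)).coeff (χ + Pi.single j 1)) < 1 := by
        apply Valuation.map_sum_lt _ one_ne_zero
        intro i hi
        rw [mem_erase] at hi
        rw [AddMonoidAlgebra.coeff_smul, Finsupp.smul_apply, smul_eq_mul, map_mul]
        by_cases hai : Antitone (χ + Pi.single i 1)
        · have hPi := jackP_spec hk hai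
          rcases lt_or_gt_of_ne hi.1 with hlt | hgt
          · have h3 := ih i (by rw [← hjn]; exact hlt) i rfl hai
            rw [h3, one_mul]
            by_cases h0 : (jackP k (χ + Pi.single i 1)).coeff (χ + Pi.single j 1) = 0
            · rw [h0, map_zero]; exact zero_lt_one
            · apply (jack_bd hBk hBn hPi).2
              intro hsq
              obtain ⟨σ, hσ⟩ := (hPi.2.2.1 _ h0).sq.2 hsq
              have h4 := antitone_perm_eq hai hj hσ
              have h5 := congrFun h4 i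
              simp only [Pi.add_apply, Pi.single_eq_same] at h5
              rw [Pi.single_eq_of_ne hi.1] at h5
              omega
          · have h0 : (jackP k (χ + Pi.single i 1)).coeff (χ + Pi.single j 1) = 0 := by
              by_contra h0
              exact not_dom_of_lt hgt (hPi.2.2.1 _ h0)
            rw [h0, map_zero, mul_zero]; exact zero_lt_one
        · rw [jackP_zero hai, AddMonoidAlgebra.coeff_zero, Finsupp.coe_zero, Pi.zero_apply, map_zero, mul_zero]
          exact zero_lt_one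
      -- left-hand side
      set S : Finset (Fin N) := univ.filter (fun l => (jackP k χ).coeff (χ + Pi.single j 1 - Pi.single l 1) ≠ 0 ∧
        ∑ i, (χ + Pi.single j 1 - Pi.single l 1 : Fin N → ℤ) i ^ 2 = ∑ i, χ i ^ 2) with hS
      have hjS : j ∈ S := by
        rw [hS, mem_filter]
        refine ⟨mem_univ _, ?_⟩
        rw [add_sub_cancel_right, hP.2.1]
        exact ⟨one_ne_zero, rfl⟩
      have hcard : S.card ≠ 0 := by
        rw [← Nat.pos_iff_ne_zero]
        exact Finset.card_pos.2 ⟨j, hjS⟩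
      have h3 : B.valuation ((∑ l, (jackP k χ).coeff (χ + Pi.single j 1 - Pi.single l 1)) - (S.card : F)) < 1 := by
        rw [← Finset.sum_filter_add_sum_filter_not univ (fun l => (jackP k χ).coeff (χ + Pi.single j 1 - Pi.single l 1) ≠ 0 ∧
          ∑ i, (χ + Pi.single j 1 - Pi.single l 1 : Fin N → ℤ) i ^ 2 = ∑ i, χ i ^ 2)]
        rw [← hS]
        have h4 : ∑ l ∈ S, (jackP k χ).coeff (χ + Pi.single j 1 - Pi.single l 1) = (S.card : F) := by
          rw [Finset.sum_congr rfl (g := fun _ => (1 : F)), Finset.sum_const, nsmul_eq_mul, mul_one]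
          intro l hl
          rw [hS, mem_filter] at hl
          obtain ⟨σ, hσ⟩ := (hP.2.2.1 _ hl.2.1).sq.2 hl.2.2
          have h5 := hP.1.coeff_comp σ (χ + Pi.single j 1 - Pi.single l 1)
          rw [← hσ, hP.2.1] at h5
          exact h5.symm
        rw [h4, add_sub_cancel_left]
        apply Valuation.map_sum_lt _ one_ne_zero
        intro l hl
        rw [mem_filter] at hl
        by_cases h0 : (jackP k χ).coeff (χ + Pi.single j 1 - Pi.single l 1) = 0
        · rw [h0, map_zero]; exact zero_lt_one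
        · apply hb2
          intro hsq
          exact hl.2 ⟨h0, hsq⟩
      have h4 : V j = (S.card : F) + (((∑ l, (jackP k χ).coeff (χ + Pi.single j 1 - Pi.single l 1)) - (S.card : F))
          - ∑ i ∈ univ.erase j, (V i • jackP k (χ + Pi.single i 1)).coeff (χ + Pi.single j 1)) := by
        rw [h1]; ring
      have h5 : B.valuation (S.card : F) = 1 := by
        have := hBn (S.card : ℤ) (by exact_mod_cast hcard)
        simpa using this
      rw [h4, Valuation.map_add_eq_of_lt_left, h5]
      rw [h5]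
      exact lt_of_le_of_lt (B.valuation.map_sub _ _) (max_lt h3 h2)
  intro h0
  have := key i i rfl hi
  rw [h0, map_zero] at this
  exact zero_ne_one this

end Pool.Agent.JL
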