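import Mathlib
import Pool.Agent.JL.Defs
import Pool.Agent.JL.N2a
import Pool.Agent.JL.S
import Pool.Agent.JL.N1a
import Pool.Agent.JL.N1b
import Pool.Agent.JL.N1c
import Pool.Agent.JL.N2
import Pool.Agent.JL.N3a

/-! The Pieri coefficients do not depend on the lower rows. -/

namespace Pool.Agent.JL

open Finset

variable {F : Type*} [Field F] {N : ℕ}

/-- append an exponent. -/
def sn (η : Fin N → ℤ) (c : ℤ) : Fin (N + 1) → ℤ := Fin.snoc (α := fun _ => ℤ) η c

@[simp] lemma sn_castSucc (η : Fin N → ℤ) (c : ℤ) (i : Fin N) : sn η c i.castSucc = η i := by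
  unfold sn; simp

@[simp] lemma sn_last (η : Fin N → ℤ) (c : ℤ) : sn η c (Fin.last N) = c := by
  unfold sn; simp

lemma sn_inj (c : ℤ) : Function.Injective (fun η : Fin N → ℤ => sn η c) := by
  intro a b h
  ext i
  have := congrFun h i.castSucc
  simpa using this

/-- the coefficient of `x_N^c`. -/
noncomputable def res (c : ℤ) (f : Lau F (N + 1)) : Lau F N :=
  ⟨Finsupp.comapDomain (fun η : Fin N → ℤ => sn η c) f.coeff (sn_inj c).injOn⟩

@[simp] lemma coeff_res (c : ℤ) (f : Lau F (N + 1)) (η : Fin N → ℤ) : (res c f).coeff η = f.coeff (sn η c) := rfl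

lemma res_add (c : ℤ) (f g : Lau F (N + 1)) : res c (f + g) = res c f + res c g := by
  ext η; rfl

lemma res_sub (c : ℤ) (f g : Lau F (N + 1)) : res c (f - g) = res c f - res c g := by
  ext η; rfl

lemma res_smul (c : ℤ) (a : F) (f : Lau F (N + 1)) : res c (a • f) = a • res c f := by
  ext η; rfl

lemma res_zero (c : ℤ) : res c (0 : Lau F (N + 1)) = 0 := by
  ext η; rfl

lemma res_sum (c : ℤ) {ι : Type*} (s : Finset ι) (f : ι → Lau F (N + 1)) : res c (∑ i ∈ s, f i) = ∑ i ∈ s, res c (f i) := by
  classical
  induction s using Finset.induction_on with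
  | empty => rw [Finset.sum_empty, Finset.sum_empty, res_zero]
  | insert a s ha ih => rw [Finset.sum_insert ha, Finset.sum_insert ha, res_add, ih]

lemma res_eul (c : ℤ) (i : Fin N) (f : Lau F (N + 1)) : res c (eul i.castSucc f) = eul i (res c f) := by
  ext η
  rw [coeff_res, coeff_eul, coeff_eul, coeff_res, sn_castSucc]

lemma res_eul_last (c : ℤ) (f : Lau F (N + 1)) : res c (eul (Fin.last N) f) = (c : F) • res c f := by
  ext η
  rw [coeff_res, coeff_eul, sn_last]; rfl

lemma sn_sub_castSucc (η : Fin N → ℤ) (c : ℤ) (i : Fin N) :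
    sn η c - Pi.single i.castSucc 1 = sn (η - Pi.single i 1) c := by
  ext l
  refine Fin.lastCases ?_ (fun l => ?_) l
  · rw [Pi.sub_apply, sn_last, sn_last, Pi.single_eq_of_ne (Fin.castSucc_lt_last i).ne', sub_zero]
  · rw [Pi.sub_apply, sn_castSucc, sn_castSucc, Pi.sub_apply]
    congr 1
    by_cases h : l = i
    · rw [h, Pi.single_eq_same, Pi.single_eq_same]
    · rw [Pi.single_eq_of_ne h, Pi.single_eq_of_ne (fun h2 => h (Fin.castSucc_injective _ h2))]

lemma sn_sub_last (η : Fin N → ℤ) (c : ℤ) : sn η c - Pi.single (Fin.last N) 1 = sn η (c - 1) := by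
  ext l
  refine Fin.lastCases ?_ (fun l => ?_) l
  · rw [Pi.sub_apply, sn_last, sn_last, Pi.single_eq_same]
  · rw [Pi.sub_apply, sn_castSucc, sn_castSucc, Pi.single_eq_of_ne (Fin.castSucc_lt_last l).ne, sub_zero]

lemma res_xv (c : ℤ) (i : Fin N) (f : Lau F (N + 1)) : res c (xv i.castSucc * f) = xv i * res c f := by
  ext η
  rw [coeff_res, coeff_xv_mul, coeff_xv_mul, coeff_res, sn_sub_castSucc]

lemma res_xv_last (c : ℤ) (f : Lau F (N + 1)) : res c (xv (Fin.last N) * f) = res (c - 1) f := by
  ext η
  rw [coeff_res, coeff_xv_mul, coeff_res, sn_sub_last]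

/-- extension of a permutation. -/
def extP (σ : Equiv.Perm (Fin N)) : Equiv.Perm (Fin (N + 1)) :=
  (finSuccEquivLast.trans (Equiv.optionCongr σ)).trans finSuccEquivLast.symm

lemma sn_comp (σ : Equiv.Perm (Fin N)) (η : Fin N → ℤ) (c : ℤ) :
    sn (fun i => η (σ i)) c = fun i => sn η c (extP σ i) := by
  ext l
  refine Fin.lastCases ?_ (fun l => ?_) l
  · simp [extP]
  · simp [extP]

lemma IsSymm.res (c : ℤ) {f : Lau F (N + 1)} (hf : IsSymm f) : IsSymm (JL.res c f) := by
  rw [isSymm_iff_coeff]
  intro σ η
  rw [coeff_res, coeff_res, sn_comp]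
  exact hf.coeff_comp (extP σ) (sn η c)

lemma Dom.last_ge {η χ : Fin (N + 1) → ℤ} (h : Dom η χ) : χ (Fin.last N) ≤ η (Fin.last N) := by
  have h1 := h.psm_le N
  have h2 : ∀ a : Fin (N + 1) → ℤ, ∑ i, a i = psm a N + a (Fin.last N) := by
    intro a
    have h3 := psm_succ a (Fin.last N)
    rw [Fin.val_last] at h3
    rw [← h3]
    unfold psm
    congr 1
    ext i
    simp only [mem_univ, mem_filter, true_and, true_iff]
    exact i.2
  have h4 := h.1
  rw [h2, h2] at h4
  linarith

lemma psm_castSucc (χ : Fin (N + 1) → ℤ) {m : ℕ} (hm : m ≤ N) : psm (fun i : Fin N => χ i.castSucc) m = psm χ m := by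
  unfold psm
  rw [Finset.sum_filter, Finset.sum_filter, Fin.sum_univ_castSucc (n := N)]
  rw [if_neg (by rw [Fin.val_last]; omega), add_zero]
  rfl

lemma Dom.init {η : Fin N → ℤ} {χ : Fin (N + 1) → ℤ} (h : Dom (sn η (χ (Fin.last N))) χ) :
    Dom η (fun i => χ i.castSucc) := by
  classical
  refine ⟨?_, fun I => ?_⟩
  · have h1 := h.1
    rw [Fin.sum_univ_castSucc, Fin.sum_univ_castSucc (fun i => χ i)] at h1
    simp only [sn_castSucc, sn_last] at h1
    linarith
  · have h1 := h.2 (I.map Fin.castSuccEmb)
    rw [Finset.sum_map, Finset.card_map] at h1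
    have h2 := psm_castSucc χ (m := I.card) (by simpa using Finset.card_le_univ I)
    unfold psm at h2
    rw [h2]
    simpa using h1

lemma sn_init (χ : Fin (N + 1) → ℤ) : sn (fun i => χ i.castSucc) (χ (Fin.last N)) = χ := by
  ext l
  refine Fin.lastCases ?_ (fun l => ?_) l
  · rw [sn_last]
  · rw [sn_castSucc]

lemma Ioi_castSucc' (i : Fin N) : Ioi i.castSucc = insert (Fin.last N) ((Ioi i).image Fin.castSucc) := by
  ext m
  rw [mem_Ioi, mem_insert, mem_image]
  refine Fin.lastCases ?_ (fun m => ?_) m
  · exact ⟨fun _ => Or.inl rfl, fun _ => Fin.castSucc_lt_last i⟩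
  · constructor
    · intro h
      right
      exact ⟨m, by rw [mem_Ioi]; exact Fin.castSucc_lt_castSucc_iff.1 h, rfl⟩
    · rintro (h | ⟨l, hl, h⟩)
      · exact absurd h (Fin.castSucc_lt_last m).ne
      · rw [mem_Ioi] at hl
        rw [← h]
        exact Fin.castSucc_lt_castSucc_iff.2 hl

lemma eul_sum_hom {χ : Fin N → ℤ} {f : Lau F N} (hf : InW χ f) : ∑ i, eul i f = ((∑ i, χ i : ℤ) : F) • f := by
  ext η
  rw [AddMonoidAlgebra.coeff_sum, Finsupp.finsetSum_apply, AddMonoidAlgebra.coeff_smul, Finsupp.smul_apply, smul_eq_mul]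
  simp only [coeff_eul]
  by_cases h : f.coeff η = 0
  · simp [h]
  · rw [← Finset.sum_mul, ← (hf η h).1]
    push_cast
    rfl

/-- restriction of a Jack polynomial. -/
lemma jack_res {k : F} {χ : Fin (N + 1) → ℤ} {P : Lau F (N + 1)} (h : IsJack k χ P) :
    IsJack k (fun i => χ i.castSucc) (res (χ (Fin.last N)) P) := by
  classical
  set c := χ (Fin.last N) with hc
  obtain ⟨hs, h1, h2, E, D, hD, hE⟩ := h
  have hsupp : InW (fun i => χ i.castSucc) (res c P) := by
    intro η hη
    rw [coeff_res] at hη
    exact (h2 _ hη).init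
  refine ⟨hs.res c, ?_, hsupp, ?_⟩
  · rw [coeff_res, hc, sn_init, h1]
  · have hGD : ∀ i j, i ≠ j → G i j (eul i P) = xv i * D i j := by
      intro i j hij
      apply xv_sub_cancel hij
      rw [G_spec, act_eul, hs, Equiv.swap_apply_left]
      have := hD i j
      linear_combination (-xv i) * this
    have hlow : ∀ i : Fin N, res (c - 1) (D i.castSucc (Fin.last N)) = 0 := by
      intro i
      ext η
      rw [coeff_res]
      by_contra hne
      have h3 : (xv i.castSucc * D i.castSucc (Fin.last N)).coeff (sn η (c - 1) + Pi.single i.castSucc 1) ≠ 0 := by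
        rw [coeff_xv_mul, add_sub_cancel_right]
        exact hne
      rw [← hGD _ _ (Fin.castSucc_lt_last i).ne] at h3
      have h4 : Dom (sn η (c - 1) + Pi.single i.castSucc 1) χ := by
        apply G_supp (f := eul i.castSucc P) _ _ h3
        intro ζ hζ
        apply h2
        rw [coeff_eul] at hζ
        exact right_ne_zero_of_mul hζ
      have h5 := h4.last_ge
      rw [Pi.add_apply, sn_last, Pi.single_eq_of_ne (Fin.castSucc_lt_last i).ne', add_zero, ← hc] at h5
      omega
    have hx : ∀ i : Fin N, xv i * res c (D i.castSucc (Fin.last N)) = eul i (res c P) - (c : F) • res c P := by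
      intro i
      have h3 := congrArg (res c) (hD i.castSucc (Fin.last N))
      rw [sub_mul, res_sub, res_xv, res_xv_last, hlow, sub_zero, res_sub, res_eul, res_eul_last] at h3
      exact h3
    refine ⟨E - (c : F) ^ 2 + k * (((∑ i : Fin N, χ i.castSucc : ℤ) : F) - N * c),
      fun i j => res c (D i.castSucc j.castSucc), ?_, ?_⟩
    · intro i j
      have h3 := congrArg (res c) (hD i.castSucc j.castSucc)
      rw [sub_mul, res_sub, res_xv, res_xv, res_sub, res_eul, res_eul] at h3
      rw [sub_mul]
      exact h3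
    · have h3 := congrArg (res c) hE
      rw [res_smul, res_sub, res_smul, res_sum, res_sum, Fin.sum_univ_castSucc, Fin.sum_univ_castSucc] at h3
      have e0 : Ioi (Fin.last N) = ∅ := by
        ext m
        simp only [mem_Ioi, notMem_empty, iff_false, not_lt]
        exact Fin.le_last m
      rw [e0, Finset.sum_empty, res_zero, add_zero] at h3
      have e1 : ∀ i : Fin N, res c (eul i.castSucc (eul i.castSucc P)) = eul i (eul i (res c P)) := by
        intro i; rw [res_eul, res_eul]
      have e2 : res c (eul (Fin.last N) (eul (Fin.last N) P)) = ((c : F) ^ 2) • res c P := by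
        rw [res_eul_last, res_eul_last, smul_smul, pow_two]
      have e3 : ∀ i : Fin N, res c (∑ j ∈ Ioi i.castSucc, (xv i.castSucc + xv j) * D i.castSucc j)
          = (eul i (res c P) - (c : F) • res c P) + ∑ j ∈ Ioi i, (xv i + xv j) * res c (D i.castSucc j.castSucc) := by
        intro i
        rw [Ioi_castSucc', Finset.sum_insert, res_add, add_mul, res_add, res_xv, res_xv_last, hlow, add_zero, hx,
          Finset.sum_image (fun a _ b _ h => Fin.castSucc_injective _ h), res_sum]
        · congr 1
          apply Finset.sum_congr rfl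
          intro j _
          rw [add_mul, add_mul, res_add, res_xv, res_xv]
        · rw [mem_image]
          rintro ⟨l, _, hl⟩
          exact (Fin.castSucc_lt_last l).ne hl
      simp only [e1, e2, e3, Finset.sum_add_distrib, Finset.sum_sub_distrib] at h3
      rw [eul_sum_hom hsupp, Finset.sum_const, Finset.card_univ, Fintype.card_fin] at h3
      have h5 : E • res c P = ∑ i, eul i (eul i (res c P)) + (c : F) ^ 2 • res c P
        - k • (((∑ i : Fin N, χ i.castSucc : ℤ) : F) • res c P - (N : F) • (c : F) • res c P +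
          ∑ i, ∑ j ∈ Ioi i, (xv i + xv j) * res c (D i.castSucc j.castSucc)) := by
        rw [h3, Nat.cast_smul_eq_nsmul]
      have h6 : (E - (c : F) ^ 2 + k * (((∑ i : Fin N, χ i.castSucc : ℤ) : F) - N * c)) • res c P
          = E • res c P - (c : F) ^ 2 • res c P + k • (((∑ i : Fin N, χ i.castSucc : ℤ) : F) • res c P - (N : F) • (c : F) • res c P) := by
        rw [add_smul, sub_smul, mul_smul, sub_smul, mul_smul]
      rw [h6, h5]
      simp only [smul_add, smul_sub]
      abel

lemma jackP_res {k : F} (hk : Transcendental ℤ k) [CharZero F] {χ : Fin (N + 1) → ℤ} (hχ : Antitone χ) :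
    res (χ (Fin.last N)) (jackP k χ) = jackP k (fun i => χ i.castSucc) := by
  have h1 := jack_res (jackP_spec hk hχ)
  have h2 : Antitone (fun i : Fin N => χ i.castSucc) := fun i j hij => hχ (by simpa using hij)
  exact jack_unique k hk _ _ _ h1 (jackP_spec hk h2)

lemma jack_res_low {k : F} {χ : Fin (N + 1) → ℤ} {P : Lau F (N + 1)} (h : IsJack k χ P) {c : ℤ}
    (hc : c < χ (Fin.last N)) : res c P = 0 := by
  ext η
  rw [coeff_res]
  by_contra hne
  have h1 := (h.2.2.1 _ hne).last_ge
  rw [sn_last] at h1
  omega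

/-- independence. -/
lemma pieri_indep [CharZero F] {k : F} (hk : Transcendental ℤ k) {ρ : Fin N → ℤ}
    (U : Fin N → F) (h : ∑ i, U i • jackP k (ρ + Pi.single i 1) = 0) (i : Fin N)
    (hi : Antitone (ρ + Pi.single i 1)) : U i = 0 := by
  classical
  have key : ∀ n : ℕ, ∀ j : Fin N, (j : ℕ) = n → Antitone (ρ + Pi.single j 1) → U j = 0 := by
    intro n
    induction n using Nat.strong_induction_on with
    | _ n ih =>
      intro j hjn hj
      have h1 := congrArg (fun f : Lau F N => f.coeff (ρ + Pi.single j 1)) h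
      rw [AddMonoidAlgebra.coeff_sum, Finsupp.finsetSum_apply] at h1
      rw [Finset.sum_eq_single j] at h1
      · rw [AddMonoidAlgebra.coeff_smul, Finsupp.smul_apply, (jackP_spec hk hj).2.1, smul_eq_mul, mul_one] at h1
        exact h1
      · intro i _ hij
        rw [AddMonoidAlgebra.coeff_smul, Finsupp.smul_apply, smul_eq_mul]
        by_cases hai : Antitone (ρ + Pi.single i 1)
        · rcases lt_or_gt_of_ne hij with hlt | hgt
          · rw [ih i (by rw [← hjn]; exact hlt) i rfl hai, zero_mul]
          · have h0 : (jackP k (ρ + Pi.single i 1)).coeff (ρ + Pi.single j 1) = 0 := by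
              by_contra h0
              exact not_dom_of_lt hgt ((jackP_spec hk hai).2.2.1 _ h0)
            rw [h0, mul_zero]
        · rw [jackP_zero hai]; simp
      · intro h; exact absurd (mem_univ j) h
  exact key i i rfl hi

theorem pieri_restrict [CharZero F] (k : F) (hk : Transcendental ℤ k) (χ : Fin (N + 1) → ℤ) (hχ : Antitone χ)
    (V : Fin (N + 1) → F)
    (hV : (∑ l, xv l) * jackP k χ = ∑ i, V i • jackP k (χ + Pi.single i 1))
    (W : Fin N → F)
    (hW : (∑ l, xv l) * jackP k (fun i : Fin N => χ i.castSucc)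
      = ∑ i, W i • jackP k ((fun i : Fin N => χ i.castSucc) + Pi.single i 1))
    (i : Fin N) (hi : Antitone ((fun i : Fin N => χ i.castSucc) + Pi.single i 1)) : V i.castSucc = W i := by
  classical
  set c := χ (Fin.last N) with hc
  have h1 := congrArg (res c) hV
  rw [Fin.sum_univ_castSucc, add_mul, res_add, res_xv_last, jack_res_low (jackP_spec hk hχ) (by omega), add_zero,
    Finset.sum_mul, res_sum, Fin.sum_univ_castSucc, res_add, res_sum] at h1
  have e1 : ∑ i : Fin N, res c (xv i.castSucc * jackP k χ) = (∑ l, xv l) * jackP k (fun i : Fin N => χ i.castSucc) := by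
    rw [Finset.sum_mul]
    apply Finset.sum_congr rfl
    intro i _
    rw [res_xv, hc, jackP_res hk hχ]
  have e2 : res c (V (Fin.last N) • jackP k (χ + Pi.single (Fin.last N) 1)) = 0 := by
    rw [res_smul]
    by_cases ha : Antitone (χ + Pi.single (Fin.last N) 1)
    · rw [jack_res_low (jackP_spec hk ha), smul_zero]
      rw [Pi.add_apply, Pi.single_eq_same]
      omega
    · rw [jackP_zero ha, res_zero, smul_zero]
  have hhat : ∀ i : Fin N, (fun l : Fin N => (χ + Pi.single i.castSucc 1 : Fin (N + 1) → ℤ) l.castSucc)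
      = (fun l : Fin N => χ l.castSucc) + Pi.single i 1 := by
    intro i
    ext l
    rw [Pi.add_apply, Pi.add_apply]
    congr 1
    by_cases h : l = i
    · rw [h, Pi.single_eq_same, Pi.single_eq_same]
    · rw [Pi.single_eq_of_ne h, Pi.single_eq_of_ne (fun h2 => h (Fin.castSucc_injective _ h2))]
  have e3 : ∀ i : Fin N, res c (V i.castSucc • jackP k (χ + Pi.single i.castSucc 1))
      = V i.castSucc • jackP k ((fun l : Fin N => χ l.castSucc) + Pi.single i 1) := by
    intro i
    rw [res_smul]
    congr 1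
    by_cases ha : Antitone (χ + Pi.single i.castSucc 1)
    · have h2 := jackP_res hk ha
      rw [hhat] at h2
      rw [← h2]
      congr 1
      rw [Pi.add_apply, Pi.single_eq_of_ne (Fin.castSucc_lt_last i).ne', add_zero]
    · rw [jackP_zero ha, res_zero, jackP_zero]
      intro hb
      apply ha
      intro a b
      refine Fin.lastCases ?_ (fun b => ?_) b
      · intro _
        rw [Pi.add_apply, Pi.add_apply, Pi.single_eq_of_ne (Fin.castSucc_lt_last i).ne', add_zero]
        have h3 : 0 ≤ (Pi.single i.castSucc 1 : Fin (N + 1) → ℤ) a := by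
          rw [Pi.single_apply]; split_ifs <;> norm_num
        have h4 := hχ (Fin.le_last a)
        linarith
      · refine Fin.lastCases ?_ (fun a => ?_) a
        · intro h5
          exact absurd (Fin.castSucc_lt_last b) (not_lt.2 h5)
        · intro h5
          have h6 := hb (Fin.castSucc_le_castSucc_iff.1 h5)
          rw [← hhat] at h6
          exact h6
  rw [e1, e2, add_zero, Finset.sum_congr rfl (fun i _ => e3 i), hW] at h1
  have h7 : ∑ i : Fin N, (V i.castSucc - W i) • jackP k ((fun l : Fin N => χ l.castSucc) + Pi.single i 1) = 0 := by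
    simp only [sub_smul, Finset.sum_sub_distrib]
    rw [← h1, sub_self]
  have := pieri_indep hk _ h7 i hi
  exact sub_eq_zero.1 this

end Pool.Agent.JL
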