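import Mathlib
import Pool.Agent.JL.Defs
import Pool.Agent.JL.MDefs
import Pool.Agent.JL.N2a
import Pool.Agent.JL.S
import Pool.Agent.JL.N1a
import Pool.Agent.JL.N1b
import Pool.Agent.JL.N1c
import Pool.Agent.JL.N2
import Pool.Agent.JL.N3a
import Pool.Agent.JL.N3b

/-! The basic move. -/

namespace Pool.Agent.JL

open Finset

variable {F : Type*} [Field F] {N : ℕ}

lemma chi_antitone (lam mu : YoungDiagram) (N : ℕ) : Antitone (chi lam mu N) := by
  intro i j hij
  unfold chi
  have h1 : lam.rowLen j ≤ lam.rowLen i := lam.rowLen_anti _ _ hij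
  have h2 : mu.rowLen (N - 1 - i) ≤ mu.rowLen (N - 1 - j) := by
    apply mu.rowLen_anti
    rw [Fin.le_def] at hij
    omega
  omega

lemma rowLen_zero_of_le {mu : YoungDiagram} {m : ℕ} (h : mu.colLen 0 ≤ m) : mu.rowLen m = 0 := by
  by_contra hne
  have h1 : (m, 0) ∈ mu := YoungDiagram.mem_iff_lt_rowLen.2 (Nat.pos_of_ne_zero hne)
  have h2 := YoungDiagram.mem_iff_lt_colLen.1 h1
  omega

lemma AddCell.rowLen_self {lam' lam : YoungDiagram} {r : ℕ} (h : AddCell lam' lam r) :
    lam.rowLen r = lam'.rowLen r + 1 := by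
  have h1 : ∀ j, j < lam.rowLen r ↔ j < lam'.rowLen r + 1 := by
    intro j
    rw [← YoungDiagram.mem_iff_lt_rowLen, ← YoungDiagram.mem_cells, h, mem_insert, YoungDiagram.mem_cells,
      YoungDiagram.mem_iff_lt_rowLen, Prod.mk.injEq]
    omega
  have h2 := h1 (lam'.rowLen r + 1)
  have h3 := h1 (lam.rowLen r)
  omega

lemma AddCell.rowLen_ne {lam' lam : YoungDiagram} {r i : ℕ} (h : AddCell lam' lam r) (hi : i ≠ r) :
    lam.rowLen i = lam'.rowLen i := by
  have h1 : ∀ j, j < lam.rowLen i ↔ j < lam'.rowLen i := by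
    intro j
    rw [← YoungDiagram.mem_iff_lt_rowLen, ← YoungDiagram.mem_cells, h, mem_insert, YoungDiagram.mem_cells,
      YoungDiagram.mem_iff_lt_rowLen, Prod.mk.injEq]
    constructor
    · rintro (⟨h2, _⟩ | h2)
      · exact absurd h2 hi
      · exact h2
    · intro h2; exact Or.inr h2
  have h2 := h1 (lam'.rowLen i)
  have h3 := h1 (lam.rowLen i)
  omega

lemma AddCell.addable {lam' lam : YoungDiagram} {r i : ℕ} (h : AddCell lam' lam r) (hi : i < r) :
    lam'.rowLen r + 1 ≤ lam'.rowLen i := by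
  have h1 := lam.rowLen_anti i r hi.le
  rw [h.rowLen_self, h.rowLen_ne (ne_of_lt hi)] at h1
  exact h1

lemma chi_add {lam' lam mu : YoungDiagram} {r : ℕ} (h : AddCell lam' lam r) (hr : r < N) :
    chi lam mu N = chi lam' mu N + Pi.single ⟨r, hr⟩ 1 := by
  ext i
  unfold chi
  rw [Pi.add_apply]
  by_cases hi : (i : ℕ) = r
  · have : i = ⟨r, hr⟩ := Fin.ext hi
    rw [this, Pi.single_eq_same]
    simp only
    rw [h.rowLen_self]
    push_cast
    ring
  · have : i ≠ ⟨r, hr⟩ := fun h2 => hi (congrArg Fin.val h2)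
    rw [Pi.single_eq_of_ne this, h.rowLen_ne hi]
    ring

/-- `χ + e_i` is non-increasing. -/
lemma anti_add_iff {χ : Fin N → ℤ} (hχ : Antitone χ) (i : Fin N) :
    Antitone (χ + Pi.single i 1) ↔ ∀ a < i, χ i + 1 ≤ χ a := by
  constructor
  · intro h a ha
    have := h ha.le
    rw [Pi.add_apply, Pi.add_apply, Pi.single_eq_same, Pi.single_eq_of_ne (ne_of_lt ha), add_zero] at this
    exact this
  · intro h a b hab
    rw [Pi.add_apply, Pi.add_apply]
    have h0 : 0 ≤ (Pi.single i 1 : Fin N → ℤ) a := by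
      rw [Pi.single_apply]; split_ifs <;> norm_num
    by_cases hb : b = i
    · rw [hb, Pi.single_eq_same]
      by_cases ha : a = i
      · rw [ha, Pi.single_eq_same]
      · have h1 := h a (lt_of_le_of_ne (hb ▸ hab) ha)
        linarith
    · rw [Pi.single_eq_of_ne hb]
      have := hχ hab
      linarith

/-- restriction of Pieri coefficients, several steps. -/
lemma pieri_restrict_many [CharZero F] {k : F} (hk : Transcendental ℤ k) (a : ℕ → ℤ) (r : ℕ) (W : Fin (r + 1) → F)
    (hW : (∑ l, xv l) * jackP k (fun i : Fin (r + 1) => a i)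
      = ∑ i, W i • jackP k ((fun i : Fin (r + 1) => a i) + Pi.single i 1))
    (hr : ∀ i < r, a r + 1 ≤ a i) :
    ∀ M, r + 1 ≤ M → (∀ i j, i ≤ j → j < M → a j ≤ a i) → ∀ (hrM : r < M) (V : Fin M → F),
      (∑ l, xv l) * jackP k (fun i : Fin M => a i)
        = ∑ i, V i • jackP k ((fun i : Fin M => a i) + Pi.single i 1) →
      V ⟨r, hrM⟩ = W ⟨r, Nat.lt_succ_self r⟩ := by
  have hinf : Infinite F := CharZero.infinite F
  intro M hM
  induction M, hM using Nat.le_induction with
  | base =>
    intro ha hrM V hV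
    have hanti : Antitone (fun i : Fin (r + 1) => a i) := fun i j hij => ha i j hij j.2
    have h1 : ∑ i, (V i - W i) • jackP k ((fun i : Fin (r + 1) => a i) + Pi.single i 1) = 0 := by
      simp only [sub_smul, Finset.sum_sub_distrib]
      rw [← hV, ← hW, sub_self]
    have h2 := pieri_indep hk _ h1 ⟨r, hrM⟩ ((anti_add_iff hanti _).2 (fun i hi => hr i hi))
    exact sub_eq_zero.1 h2
  | succ M hM ih =>
    intro ha hrM V hV
    have hanti : Antitone (fun i : Fin (M + 1) => a i) := fun i j hij => ha i j hij j.2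
    have hanti' : Antitone (fun i : Fin M => a i) := fun i j hij => ha i j hij (by omega)
    obtain ⟨V', hV'⟩ := pieri k hk (fun i : Fin M => a i) hanti'
    have hrM' : r < M := hM
    have h1 := ih (fun i j hij hj => ha i j hij (by omega)) hrM' V' hV'
    have h2 := pieri_restrict k hk (fun i : Fin (M + 1) => a i) hanti V hV V' hV' ⟨r, hrM'⟩
      ((anti_add_iff hanti' _).2 (fun i hi => hr i hi))
    rw [← h1, ← h2]
    rfl

lemma IsCMS.zero (k : F) : IsCMS k (0 : Lau F N) 0 := by
  have := IsCMS.const (N := N) k 0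
  rwa [map_zero] at this

lemma IsCMS.sum (k : F) {ι : Type*} (s : Finset ι) (f g : ι → Lau F N) (h : ∀ i ∈ s, IsCMS k (f i) (g i)) :
    IsCMS k (∑ i ∈ s, f i) (∑ i ∈ s, g i) := by
  classical
  induction s using Finset.induction_on with
  | empty => simpa using IsCMS.zero k
  | insert a s ha ih =>
    rw [Finset.sum_insert ha, Finset.sum_insert ha]
    exact (h a (mem_insert_self a s)).add (ih (fun i hi => h i (mem_insert_of_mem hi)))

lemma cms_unique {k : F} {f g g' : Lau F N} (hf : IsSymm f) (h : IsCMS k f g) (h' : IsCMS k f g') : g = g' := by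
  rw [cms_iff_Hop k f hf] at h h'
  rw [h, h']

lemma psum_one : (psum N 1 : Lau F N) = ∑ l, xv l := rfl

/-- iterated application of `L - e`. -/
lemma iterate_L [CharZero F] {k : F} (hk : Transcendental ℤ k) (χ : ∀ N, Fin N → ℤ)
    (V : ∀ N, Fin N → F)
    (hV : ∀ N, (∑ l, xv l) * jackP k (χ N) = ∑ i, V N i • jackP k (χ N + Pi.single i 1))
    (D : Polynomial F) (Q : Stab F) (N₀ : ℕ) (hQ : ∀ N ≥ N₀, phi N Q = (D.eval (N : F)) • jackP k (χ N))
    (es : List (Polynomial F)) :
    ∃ Q' : Stab F, ∀ N ≥ N₀, phi N Q' = ∑ i : Fin N, (D.eval (N : F) * V N i *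
      (es.map (fun e => Ev k (χ N + Pi.single i 1) - e.eval (N : F))).prod) • jackP k (χ N + Pi.single i 1) := by
  induction es with
  | nil =>
    refine ⟨MvPolynomial.X ⟨1, one_ne_zero⟩ * Q, fun N hN => ?_⟩
    rw [map_mul, phi_X, psum_one, hQ N hN, Algebra.mul_smul_comm, hV N, Finset.smul_sum]
    apply Finset.sum_congr rfl
    intro i _
    rw [List.map_nil, List.prod_nil, mul_one, smul_smul]
  | cons e es ih =>
    obtain ⟨Q', hQ'⟩ := ih
    obtain ⟨g, hg⟩ := stable_exists k Q'
    refine ⟨g - MvPolynomial.C e * Q', fun N hN => ?_⟩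
    have h1 := hg N
    have h2 := hQ' N hN
    have h3 : IsCMS k (phi N Q') (∑ i : Fin N, (Ev k (χ N + Pi.single i 1)) • ((D.eval (N : F) * V N i *
      (es.map (fun e => Ev k (χ N + Pi.single i 1) - e.eval (N : F))).prod) • jackP k (χ N + Pi.single i 1))) := by
      rw [h2]
      apply IsCMS.sum
      intro i _
      by_cases ha : Antitone (χ N + Pi.single i 1)
      · have h4 := (jack_eigen k _ _ (jackP_spec hk ha)).smul (D.eval (N : F) * V N i *
          (es.map (fun e => Ev k (χ N + Pi.single i 1) - e.eval (N : F))).prod)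
        rwa [smul_comm] at h4
      · rw [jackP_zero ha]
        simpa using IsCMS.zero k
    have h5 := cms_unique (phi_symm N Q') h1 h3
    rw [map_sub, map_mul, phi_C, h5, h2, ← Algebra.smul_def, Finset.smul_sum, ← Finset.sum_sub_distrib]
    apply Finset.sum_congr rfl
    intro i _
    rw [List.map_cons, List.prod_cons, smul_smul, smul_smul, ← sub_smul]
    congr 1
    ring

lemma Ev_add_single (k : F) (χ : Fin N → ℤ) (i : Fin N) :
    Ev k (χ + Pi.single i 1) = Ev k χ + (2 * (χ i : F) + 1 + k * (2 * ((i : ℕ) : F) + 1 - N)) := by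
  unfold Ev
  rw [← Finset.add_sum_erase univ _ (mem_univ i),
    ← Finset.add_sum_erase univ (fun i : Fin N => (χ i : F) * ((χ i : F) + k * (2 * ((i : ℕ) : F) + 1 - N))) (mem_univ i)]
  have : ∑ x ∈ univ.erase i, ((χ + Pi.single i 1 : Fin N → ℤ) x : F) * (((χ + Pi.single i 1 : Fin N → ℤ) x : F) + k * (2 * ((x : ℕ) : F) + 1 - N))
      = ∑ x ∈ univ.erase i, (χ x : F) * ((χ x : F) + k * (2 * ((x : ℕ) : F) + 1 - N)) := by
    apply Finset.sum_congr rfl
    intro x hx
    rw [Pi.add_apply, Pi.single_eq_of_ne (Finset.ne_of_mem_erase hx), add_zero]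
  rw [this, Pi.add_apply, Pi.single_eq_same]
  push_cast
  ring

/-- the contribution of one partition to the eigenvalue, as a polynomial in `N`. -/
noncomputable def evp (k : F) (lam : YoungDiagram) : Polynomial F :=
  ∑ i ∈ range (lam.colLen 0), Polynomial.C (lam.rowLen i : F) *
    (Polynomial.C ((lam.rowLen i : F) + k * (2 * (i : F) + 1)) - Polynomial.C k * Polynomial.X)

lemma evp_eval (k : F) (lam : YoungDiagram) (N : ℕ) (hN : lam.colLen 0 ≤ N) :
    (evp k lam).eval (N : F) = ∑ i : Fin N, (lam.rowLen i : F) * ((lam.rowLen i : F) + k * (2 * ((i : ℕ) : F) + 1 - N)) := by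
  unfold evp
  rw [Polynomial.eval_finsetSum]
  simp only [Polynomial.eval_mul, Polynomial.eval_C, Polynomial.eval_sub, Polynomial.eval_X]
  rw [Fin.sum_univ_eq_sum_range (fun i => (lam.rowLen i : F) * ((lam.rowLen i : F) + k * (2 * (i : F) + 1 - N))) N]
  rw [← Finset.sum_subset (Finset.range_mono hN)]
  · apply Finset.sum_congr rfl
    intro i _
    ring
  · intro i _ hi
    rw [mem_range, not_lt] at hi
    rw [rowLen_zero_of_le hi]
    simp

lemma Ev_chi (k : F) (lam mu : YoungDiagram) (N : ℕ) (hN : lam.colLen 0 + mu.colLen 0 ≤ N) :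
    Ev k (chi lam mu N) = (evp k lam + evp k mu).eval (N : F) := by
  rw [Polynomial.eval_add, evp_eval k lam N (by omega), evp_eval k mu N (by omega),
    ← Equiv.sum_comp Fin.revPerm (fun i : Fin N => (mu.rowLen i : F) * ((mu.rowLen i : F) + k * (2 * ((i : ℕ) : F) + 1 - N))),
    ← Finset.sum_add_distrib]
  unfold Ev chi
  apply Finset.sum_congr rfl
  intro i _
  have hi := i.2
  have e1 : ((Fin.revPerm i : Fin N) : ℕ) = N - 1 - i := by
    rw [Fin.revPerm_apply, Fin.val_rev]; omega
  have e2 : (((Fin.revPerm i : Fin N) : ℕ) : F) = (N : F) - 1 - (i : ℕ) := by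
    rw [e1, Nat.cast_sub (by omega), Nat.cast_sub (by omega)]
    simp
  rw [e2, e1]
  by_cases h : (i : ℕ) < lam.colLen 0
  · rw [rowLen_zero_of_le (mu := mu) (m := N - 1 - i) (by omega)]
    push_cast
    ring
  · rw [rowLen_zero_of_le (mu := lam) (m := i) (by omega)]
    push_cast
    ring

/-- M1: the move. -/
theorem rep_move [CharZero F] (k : F) (hk : Transcendental ℤ k) (lam' lam mu : YoungDiagram) (r : ℕ)
    (h : AddCell lam' lam r) (D : Polynomial F) (hD : Rep k lam' mu D) :
    Rep k lam mu ((∏ j ∈ cornerCols mu, lf k ((lam.rowLen r : ℤ) + j) ((r : ℤ) + mu.colLen j)) * D) := by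
  classical
  have hinf : Infinite F := CharZero.infinite F
  obtain ⟨Q, N₀, hQ⟩ := hD
  have hanti : ∀ N, Antitone (chi lam' mu N) := chi_antitone lam' mu
  choose V hV using fun N => pieri k hk (chi lam' mu N) (hanti N)
  -- the constant Pieri coefficient
  have hb : Antitone (fun i : Fin (r + 1) => (lam'.rowLen i : ℤ)) := by
    intro i j hij
    have := lam'.rowLen_anti _ _ hij
    show (lam'.rowLen j : ℤ) ≤ (lam'.rowLen i : ℤ)
    exact_mod_cast this
  obtain ⟨W, hW⟩ := pieri k hk (fun i : Fin (r + 1) => (lam'.rowLen i : ℤ)) hb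
  have haddr : ∀ i < r, (lam'.rowLen r : ℤ) + 1 ≤ lam'.rowLen i := by
    intro i hi
    exact_mod_cast h.addable hi
  set w := W ⟨r, Nat.lt_succ_self r⟩ with hw
  have hw0 : w ≠ 0 := by
    apply pieri_ne_zero k hk _ hb W hW
    rw [anti_add_iff hb]
    intro a ha
    exact haddr a ha
  -- the list of eigenvalues
  set e1 : ℕ → Polynomial F := fun i => (evp k lam' + evp k mu) +
    (Polynomial.C (2 * (lam'.rowLen i : F) + 1 + k * (2 * (i : F) + 1)) - Polynomial.C k * Polynomial.X) with he1
  set e2 : ℕ → Polynomial F := fun j => (evp k lam' + evp k mu) +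
    (Polynomial.C (-2 * (j : F) - 1 - k * (2 * (mu.colLen j : F) - 1)) + Polynomial.C k * Polynomial.X) with he2
  set I1 := (range (lam'.colLen 0 + 1)).erase r with hI1
  set es : List (Polynomial F) := I1.toList.map e1 ++ (cornerCols mu).toList.map e2 with hes
  have hQ' : ∀ N ≥ N₀, phi N Q = (D.eval (N : F)) • jackP k (chi lam' mu N) :=
    fun N hN => hQ N hN _ (jackP_spec hk (hanti N))
  obtain ⟨Q', hQ''⟩ := iterate_L hk (fun N => chi lam' mu N) V hV D Q N₀ hQ' es
  set cst : F := w * (∏ i ∈ I1, (2 * ((lam'.rowLen r : F) - lam'.rowLen i) + 2 * k * ((r : F) - i))) *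
    (2 : F) ^ (cornerCols mu).card with hcst
  have hcst0 : cst ≠ 0 := by
    rw [hcst]
    refine mul_ne_zero (mul_ne_zero hw0 ?_) (pow_ne_zero _ two_ne_zero)
    rw [Finset.prod_ne_zero_iff]
    intro i hi
    rw [hI1, mem_erase] at hi
    intro h0
    have h1 : ((2 * ((lam'.rowLen r : ℤ) - lam'.rowLen i) : ℤ) : F) + k * ((2 * ((r : ℤ) - i) : ℤ) : F) = 0 := by
      push_cast
      linear_combination h0
    have h2 := (trans_zero hk h1).2
    apply hi.1
    omega
  refine ⟨MvPolynomial.C (Polynomial.C cst⁻¹) * Q', max N₀ (lam'.colLen 0 + mu.colLen 0 + r + 2), fun N hN P hP => ?_⟩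
  have hN0 : N₀ ≤ N := le_trans (le_max_left _ _) hN
  have hN1 : lam'.colLen 0 + mu.colLen 0 + r + 2 ≤ N := le_trans (le_max_right _ _) hN
  have hrN : r < N := by omega
  have hchi := chi_add (mu := mu) (N := N) h hrN
  have hlanti : Antitone (chi lam' mu N + Pi.single ⟨r, hrN⟩ 1) := by
    rw [← hchi]; exact chi_antitone _ _ _
  have hPeq : P = jackP k (chi lam' mu N + Pi.single ⟨r, hrN⟩ 1) := by
    apply jack_unique k hk _ _ _ hP
    rw [hchi]
    exact jackP_spec hk hlanti
  have hEv := Ev_chi k lam' mu N (by omega)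
  have hE1 : ∀ i : ℕ, (e1 i).eval (N : F) = Ev k (chi lam' mu N) + (2 * (lam'.rowLen i : F) + 1 + k * (2 * (i : F) + 1 - N)) := by
    intro i
    rw [hEv, he1]
    simp only [Polynomial.eval_add, Polynomial.eval_C, Polynomial.eval_sub, Polynomial.eval_mul, Polynomial.eval_X]
    ring
  have hE2 : ∀ j : ℕ, (e2 j).eval (N : F) = Ev k (chi lam' mu N) + (-2 * (j : F) - 1 - k * (2 * (mu.colLen j : F) - 1) + k * N) := by
    intro j
    rw [hEv, he2]
    simp only [Polynomial.eval_add, Polynomial.eval_C, Polynomial.eval_mul, Polynomial.eval_X]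
  have hmu0 : ∀ i : ℕ, i ≤ lam'.colLen 0 + r → mu.rowLen (N - 1 - i) = 0 := by
    intro i hi
    exact rowLen_zero_of_le (by omega)
  -- value at r
  have hEr : Ev k (chi lam' mu N + Pi.single ⟨r, hrN⟩ 1) = Ev k (chi lam' mu N) + (2 * (lam'.rowLen r : F) + 1 + k * (2 * (r : F) + 1 - N)) := by
    rw [Ev_add_single]
    unfold chi
    simp only
    rw [hmu0 r (by omega)]
    push_cast
    ring
  have hprod : (es.map (fun e => Ev k (chi lam' mu N + Pi.single ⟨r, hrN⟩ 1) - e.eval (N : F))).prod
      = (∏ i ∈ I1, (2 * ((lam'.rowLen r : F) - lam'.rowLen i) + 2 * k * ((r : F) - i))) *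
        ((2 : F) ^ (cornerCols mu).card * (∏ j ∈ cornerCols mu, lf k ((lam.rowLen r : ℤ) + j) ((r : ℤ) + mu.colLen j)).eval (N : F)) := by
    rw [hes, List.map_append, List.prod_append, List.map_map, List.map_map, Finset.prod_map_toList, Finset.prod_map_toList]
    congr 1
    · apply Finset.prod_congr rfl
      intro i _
      simp only [Function.comp_apply]
      rw [hE1, hEr]
      ring
    · rw [Polynomial.eval_prod, ← Finset.prod_const, ← Finset.prod_mul_distrib]
      apply Finset.prod_congr rfl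
      intro j _
      simp only [Function.comp_apply]
      rw [hE2, hEr, h.rowLen_self]
      unfold lf
      simp only [Polynomial.eval_sub, Polynomial.eval_C, Polynomial.eval_mul, Polynomial.eval_X]
      push_cast
      ring
  -- the other terms vanish
  have hvan : ∀ i : Fin N, i ≠ ⟨r, hrN⟩ → Antitone (chi lam' mu N + Pi.single i 1) →
      (es.map (fun e => Ev k (chi lam' mu N + Pi.single i 1) - e.eval (N : F))).prod = 0 := by
    intro i hir hai
    rw [List.prod_eq_zero_iff, List.mem_map]
    by_cases hi : (i : ℕ) ≤ lam'.colLen 0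
    · refine ⟨e1 i, ?_, ?_⟩
      · rw [hes, List.mem_append, List.mem_map]
        left
        refine ⟨i, ?_, rfl⟩
        rw [Finset.mem_toList, hI1, mem_erase, mem_range]
        exact ⟨fun h2 => hir (Fin.ext h2), by omega⟩
      · rw [hE1, Ev_add_single]
        unfold chi
        rw [hmu0 i (by omega)]
        push_cast
        ring
    · have hi2 := i.2
      have hprev : (i : ℕ) - 1 < N := by omega
      have h1 := (anti_add_iff (hanti N) i).1 hai ⟨(i : ℕ) - 1, hprev⟩ (by rw [Fin.lt_def]; simp only; omega)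
      set m := N - 1 - (i : ℕ) with hm
      have hl1 : lam'.rowLen i = 0 := rowLen_zero_of_le (by omega)
      have hl2 : lam'.rowLen ((i : ℕ) - 1) = 0 := rowLen_zero_of_le (by omega)
      have hm1 : N - 1 - ((i : ℕ) - 1) = m + 1 := by omega
      unfold chi at h1
      simp only at h1
      rw [hl1, hl2, hm1, ← hm] at h1
      have hlt : mu.rowLen (m + 1) < mu.rowLen m := by
        push_cast at h1
        omega
      obtain ⟨j, hj⟩ : ∃ j, mu.rowLen m = j + 1 := ⟨mu.rowLen m - 1, by omega⟩
      have hmem : (m, j) ∈ mu := YoungDiagram.mem_iff_lt_rowLen.2 (by omega)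
      have hnm : (m + 1, j) ∉ mu := by
        intro h2
        have := YoungDiagram.mem_iff_lt_rowLen.1 h2
        omega
      have hnm2 : (m, j + 1) ∉ mu := by
        intro h2
        have := YoungDiagram.mem_iff_lt_rowLen.1 h2
        omega
      have hcol : mu.colLen j = m + 1 := by
        have h2 := YoungDiagram.mem_iff_lt_colLen.1 hmem
        have h3 : ¬ m + 1 < mu.colLen j := fun h4 => hnm (YoungDiagram.mem_iff_lt_colLen.2 h4)
        omega
      have hcol2 : mu.colLen (j + 1) ≤ m := by
        by_contra h4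
        exact hnm2 (YoungDiagram.mem_iff_lt_colLen.2 (by omega))
      have hjr : j < mu.rowLen 0 := by
        have := mu.rowLen_anti 0 m (Nat.zero_le m)
        omega
      refine ⟨e2 j, ?_, ?_⟩
      · rw [hes, List.mem_append, List.mem_map, List.mem_map]
        right
        refine ⟨j, ?_, rfl⟩
        rw [Finset.mem_toList]
        unfold cornerCols
        rw [mem_filter, mem_range]
        exact ⟨hjr, by omega⟩
      · rw [hE2, Ev_add_single]
        unfold chi
        rw [hl1, ← hm, hj, hcol]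
        have hiF : ((i : ℕ) : F) = (N : F) - 1 - m := by
          have : (i : ℕ) = N - 1 - m := by omega
          rw [this, Nat.cast_sub (by omega), Nat.cast_sub (by omega)]
          simp
        rw [hiF]
        push_cast
        ring
  have hVr : V N ⟨r, hrN⟩ = w := by
    set a : ℕ → ℤ := fun i => (lam'.rowLen i : ℤ) - (mu.rowLen (N - 1 - i) : ℤ) with ha
    have hWa : (∑ l, xv l) * jackP k (fun i : Fin (r + 1) => a i)
      = ∑ i, W i • jackP k ((fun i : Fin (r + 1) => a i) + Pi.single i 1) := by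
      have : (fun i : Fin (r + 1) => a i) = (fun i : Fin (r + 1) => (lam'.rowLen i : ℤ)) := by
        ext i
        have := i.2
        rw [ha]
        simp only
        rw [hmu0 i (by omega)]
        simp
      rw [this]
      exact hW
    apply pieri_restrict_many hk a r W hWa _ N (by omega) _ hrN (V N)
    · exact hV N
    · intro i hi
      rw [ha]
      simp only
      rw [hmu0 i (by omega), hmu0 r (by omega)]
      have := haddr i hi
      simpa using this
    · intro i j hij hj
      exact hanti N (show (⟨i, by omega⟩ : Fin N) ≤ ⟨j, hj⟩ from hij)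
  rw [map_mul, phi_C, Polynomial.eval_C, hQ'' N hN0, ← Algebra.smul_def, Finset.sum_eq_single ⟨r, hrN⟩]
  · rw [hPeq, smul_smul, hprod, hVr, Polynomial.eval_mul]
    congr 1
    rw [hcst] at hcst0 ⊢
    set A := (∏ i ∈ I1, (2 * ((lam'.rowLen r : F) - lam'.rowLen i) + 2 * k * ((r : F) - i)))
    set B := (∏ j ∈ cornerCols mu, lf k ((lam.rowLen r : ℤ) + j) ((r : ℤ) + mu.colLen j)).eval (N : F)
    calc (w * A * 2 ^ (cornerCols mu).card)⁻¹ * (Polynomial.eval (N : F) D * w * (A * (2 ^ (cornerCols mu).card * B)))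
        = ((w * A * 2 ^ (cornerCols mu).card)⁻¹ * (w * A * 2 ^ (cornerCols mu).card)) * (B * Polynomial.eval (N : F) D) := by ring
      _ = B * Polynomial.eval (N : F) D := by rw [inv_mul_cancel₀ hcst0, one_mul]
  · intro i _ hi
    by_cases hai : Antitone (chi lam' mu N + Pi.single i 1)
    · rw [hvan i hi hai, mul_zero, zero_smul]
    · rw [jackP_zero hai, smul_zero]
  · intro h0; exact absurd (mem_univ _) h0

end Pool.Agent.JL
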