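import Mathlib
import Pool.Agent.JL.MDefs

/-!
# Jack–Laurent symmetric functions: module M2 (algebra of the moves)
-/

namespace Pool.Agent.JL

open Finset

variable {F : Type*} [Field F] {N : ℕ}

lemma rowLen_eq_of {μ : YoungDiagram} {i n : ℕ} (h : ∀ j, (i, j) ∈ μ ↔ j < n) : μ.rowLen i = n := by
  have h1 : ∀ j, j < μ.rowLen i ↔ j < n := fun j => by
    rw [← YoungDiagram.mem_iff_lt_rowLen, h]
  by_contra hne
  rcases lt_or_gt_of_ne hne with h2 | h2
  · exact absurd ((h1 _).mpr h2) (lt_irrefl _)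
  · exact absurd ((h1 _).mp h2) (lt_irrefl _)

lemma colLen_eq_of {μ : YoungDiagram} {j n : ℕ} (h : ∀ i, (i, j) ∈ μ ↔ i < n) : μ.colLen j = n := by
  have h1 : ∀ i, i < μ.colLen j ↔ i < n := fun i => by
    rw [← YoungDiagram.mem_iff_lt_colLen, h]
  by_contra hne
  rcases lt_or_gt_of_ne hne with h2 | h2
  · exact absurd ((h1 _).mpr h2) (lt_irrefl _)
  · exact absurd ((h1 _).mp h2) (lt_irrefl _)

/-- removing a corner cell. -/
lemma exists_remove (lam : YoungDiagram) (r c : ℕ) (h0 : (r, c) ∈ lam) (h1 : (r + 1, c) ∉ lam)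
    (h2 : (r, c + 1) ∉ lam) :
    ∃ lam' : YoungDiagram, AddCell lam' lam r ∧ lam'.card + 1 = lam.card ∧
      lam'.rowLen r = c ∧ (∀ i, i ≠ r → lam'.rowLen i = lam.rowLen i) ∧
      lam'.colLen c = r ∧ (∀ j, j ≠ c → lam'.colLen j = lam.colLen j) := by
  let lam' : YoungDiagram :=
    { cells := lam.cells.erase (r, c)
      isLowerSet := by
        rintro ⟨i, j⟩ ⟨i', j'⟩ hle hmem
        simp only [Finset.coe_erase, Set.mem_sdiff, Finset.mem_coe, YoungDiagram.mem_cells,
          Set.mem_singleton_iff, Prod.mk.injEq] at hmem ⊢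
        obtain ⟨hi, hj⟩ := Prod.mk_le_mk.mp hle
        refine ⟨lam.up_left_mem hi hj hmem.1, ?_⟩
        rintro ⟨rfl, rfl⟩
        rcases Nat.lt_or_ge i' i with h | h
        · exact h1 (lam.up_left_mem h hj hmem.1)
        · rcases Nat.lt_or_ge j' j with h' | h'
          · exact h2 (lam.up_left_mem hi h' hmem.1)
          · exact hmem.2 ⟨le_antisymm h hi, le_antisymm h' hj⟩ }
  have hmem : ∀ i j, (i, j) ∈ lam' ↔ (i, j) ∈ lam ∧ ¬ (i = r ∧ j = c) := by
    intro i j
    rw [← YoungDiagram.mem_cells]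
    simp only [lam', Finset.mem_erase, YoungDiagram.mem_cells, ne_eq, Prod.mk.injEq]
    tauto
  have hr : lam.rowLen r = c + 1 := by
    apply rowLen_eq_of
    intro j
    rw [YoungDiagram.mem_iff_lt_rowLen] at h0 h2 ⊢
    omega
  have hc : lam.colLen c = r + 1 := by
    apply colLen_eq_of
    intro i
    rw [YoungDiagram.mem_iff_lt_colLen] at h0 h1 ⊢
    omega
  have hr' : lam'.rowLen r = c := by
    apply rowLen_eq_of
    intro j
    rw [hmem, YoungDiagram.mem_iff_lt_rowLen, hr]
    constructor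
    · rintro ⟨h3, h4⟩
      have : j ≠ c := fun h => h4 ⟨rfl, h⟩
      omega
    · intro h3
      exact ⟨by omega, by rintro ⟨-, h4⟩; omega⟩
  refine ⟨lam', ?_, ?_, hr', ?_, ?_, ?_⟩
  · unfold AddCell
    rw [hr']
    exact (Finset.insert_erase ((YoungDiagram.mem_cells _).mpr h0)).symm
  · exact Finset.card_erase_add_one ((YoungDiagram.mem_cells _).mpr h0)
  · intro i hi
    apply rowLen_eq_of
    intro j
    rw [hmem, YoungDiagram.mem_iff_lt_rowLen]
    constructor
    · exact fun h => h.1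
    · exact fun h => ⟨h, fun h' => hi h'.1⟩
  · apply colLen_eq_of
    intro i
    rw [hmem, YoungDiagram.mem_iff_lt_colLen, hc]
    constructor
    · rintro ⟨h3, h4⟩
      have : i ≠ r := fun h => h4 ⟨h, rfl⟩
      omega
    · intro h3
      exact ⟨by omega, by rintro ⟨h4, -⟩; omega⟩
  · intro j hj
    apply colLen_eq_of
    intro i
    rw [hmem, YoungDiagram.mem_iff_lt_colLen]
    constructor
    · exact fun h => h.1
    · exact fun h => ⟨h, fun h' => hj h'.2⟩

lemma starts_ends {M : Type*} [CommMonoid M] (c : ℕ → ℕ) (hc : Antitone c) (n : ℕ)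
    (hn : ∀ j, 0 < c j ↔ j < n) (f : ℕ → ℕ → M) :
    (∏ j ∈ range n, f j (c j)) * ∏ t ∈ (range n).filter (fun t => c (t + 1) < c t), f (t + 1) (c t)
      = (∏ j ∈ range n, f (j + 1) (c j)) *
        ∏ s ∈ (range n).filter (fun s => s = 0 ∨ c s < c (s - 1)), f s (c s) := by
  have e1 := Finset.prod_filter_mul_prod_filter_not (range n) (fun s => s = 0 ∨ c s < c (s - 1))
    (fun s => f s (c s))
  have e2 := Finset.prod_filter_mul_prod_filter_not (range n) (fun t => c (t + 1) < c t)
    (fun t => f (t + 1) (c t))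
  have e3 : ∏ s ∈ (range n).filter (fun s => ¬ (s = 0 ∨ c s < c (s - 1))), f s (c s)
      = ∏ t ∈ (range n).filter (fun t => ¬ (c (t + 1) < c t)), f (t + 1) (c t) := by
    refine Finset.prod_nbij' (fun s => s - 1) (fun t => t + 1) ?_ ?_ ?_ ?_ ?_
    · intro s hs
      simp only [Finset.mem_filter, Finset.mem_range, not_or, not_lt] at hs ⊢
      obtain ⟨h1, h2, h3⟩ := hs
      have h4 : s - 1 + 1 = s := Nat.succ_pred_eq_of_ne_zero h2
      rw [h4]
      exact ⟨by omega, h3⟩
    · intro t ht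
      simp only [Finset.mem_filter, Finset.mem_range, not_or, not_lt, Nat.add_sub_cancel] at ht ⊢
      obtain ⟨h1, h2⟩ := ht
      refine ⟨?_, by omega, h2⟩
      have := (hn t).mpr h1
      exact (hn (t + 1)).mp (by omega)
    · intro s hs
      simp only [Finset.mem_filter, Finset.mem_range, not_or, not_lt] at hs
      exact Nat.succ_pred_eq_of_ne_zero hs.2.1
    · intro t ht
      simp
    · intro s hs
      simp only [Finset.mem_filter, Finset.mem_range, not_or, not_lt] at hs
      have h4 : s - 1 + 1 = s := Nat.succ_pred_eq_of_ne_zero hs.2.1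
      have h5 : c s = c (s - 1) := le_antisymm (hc (Nat.sub_le _ _)) hs.2.2
      rw [h4, ← h5]
  rw [← e1, ← e2, e3]
  ac_rfl

lemma corner_bij {M : Type*} [CommMonoid M] (lam : YoungDiagram) (g : ℕ → ℕ → M) :
    ∏ t ∈ cornerCols lam, g (t + 1) (lam.colLen t)
      = ∏ i ∈ (range (lam.colLen 0)).filter (fun i => lam.rowLen (i + 1) < lam.rowLen i),
          g (lam.rowLen i) (i + 1) := by
  have key1 : ∀ t, t ∈ cornerCols lam → 0 < lam.colLen t ∧ lam.rowLen (lam.colLen t - 1) = t + 1 ∧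
      lam.rowLen (lam.colLen t) ≤ t := by
    intro t ht
    simp only [cornerCols, Finset.mem_filter, Finset.mem_range] at ht
    have h0 : 0 < lam.colLen t := by omega
    refine ⟨h0, ?_, ?_⟩
    · apply rowLen_eq_of
      intro j
      rw [YoungDiagram.mem_iff_lt_colLen]
      constructor
      · intro h
        by_contra hcon
        push Not at hcon
        have := lam.colLen_anti (t + 1) j hcon
        omega
      · intro h
        have := lam.colLen_anti j t (by omega)
        omega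
    · by_contra hcon
      push Not at hcon
      rw [← YoungDiagram.mem_iff_lt_rowLen, YoungDiagram.mem_iff_lt_colLen] at hcon
      exact absurd hcon (lt_irrefl _)
  have key2 : ∀ i, i < lam.colLen 0 → lam.rowLen (i + 1) < lam.rowLen i →
      0 < lam.rowLen i ∧ lam.colLen (lam.rowLen i - 1) = i + 1 ∧ lam.colLen (lam.rowLen i) ≤ i := by
    intro i hi h
    have h0 : 0 < lam.rowLen i := by omega
    refine ⟨h0, ?_, ?_⟩
    · apply colLen_eq_of
      intro j
      rw [YoungDiagram.mem_iff_lt_rowLen]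
      constructor
      · intro h
        by_contra hcon
        push Not at hcon
        have := lam.rowLen_anti (i + 1) j hcon
        omega
      · intro h
        have := lam.rowLen_anti j i (by omega)
        omega
    · by_contra hcon
      push Not at hcon
      rw [← YoungDiagram.mem_iff_lt_colLen, YoungDiagram.mem_iff_lt_rowLen] at hcon
      exact absurd hcon (lt_irrefl _)
  refine Finset.prod_nbij' (fun t => lam.colLen t - 1) (fun i => lam.rowLen i - 1) ?_ ?_ ?_ ?_ ?_
  · intro t ht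
    obtain ⟨h1, h2, h3⟩ := key1 t ht
    simp only [Finset.mem_filter, Finset.mem_range]
    have h4 := lam.colLen_anti 0 t (Nat.zero_le _)
    refine ⟨by omega, ?_⟩
    rw [h2, Nat.sub_add_cancel h1]
    omega
  · intro i hi
    simp only [Finset.mem_filter, Finset.mem_range] at hi
    obtain ⟨h1, h2, h3⟩ := key2 i hi.1 hi.2
    simp only [cornerCols, Finset.mem_filter, Finset.mem_range]
    have h4 := lam.rowLen_anti 0 i (Nat.zero_le _)
    refine ⟨by omega, ?_⟩
    rw [h2, Nat.sub_add_cancel h1]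
    omega
  · intro t ht
    obtain ⟨h1, h2, h3⟩ := key1 t ht
    rw [h2]; rfl
  · intro i hi
    simp only [Finset.mem_filter, Finset.mem_range] at hi
    obtain ⟨h1, h2, h3⟩ := key2 i hi.1 hi.2
    rw [h2]; rfl
  · intro t ht
    obtain ⟨h1, h2, h3⟩ := key1 t ht
    rw [h2, Nat.sub_add_cancel h1]

lemma lf_sub (k : F) (a b a' b' : ℤ) :
    lf k a b - lf k a' b' = Polynomial.C (((a - a' : ℤ) : F) + k * ((b - b' : ℤ) : F)) := by
  simp only [lf]
  push_cast
  simp only [map_add, map_sub, map_mul]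
  ring

lemma lf_coprime [CharZero F] (k : F) (hk : Transcendental ℤ k) (a b a' b' : ℤ) (hb : b ≠ b') :
    IsCoprime (lf k a b) (lf k a' b') := by
  have hc : ((a - a' : ℤ) : F) + k * ((b - b' : ℤ) : F) ≠ 0 := by
    intro h
    apply hk
    refine ⟨Polynomial.C (a - a') + Polynomial.C (b - b') * Polynomial.X, ?_, ?_⟩
    · intro h0
      have := congrArg (fun p => Polynomial.coeff p 1) h0
      simp only [Polynomial.coeff_add, Polynomial.coeff_C, Polynomial.coeff_C_mul,
        Polynomial.coeff_X_one, Polynomial.coeff_zero, one_ne_zero, if_false, zero_add, mul_one] at this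
      exact hb (sub_eq_zero.mp this)
    · simp only [map_add, map_mul, Polynomial.aeval_C, Polynomial.aeval_X]
      rw [mul_comm] at h
      simpa using h
  refine ⟨Polynomial.C (((a - a' : ℤ) : F) + k * ((b - b' : ℤ) : F))⁻¹,
    - Polynomial.C (((a - a' : ℤ) : F) + k * ((b - b' : ℤ) : F))⁻¹, ?_⟩
  have h1 : Polynomial.C (((a - a' : ℤ) : F) + k * ((b - b' : ℤ) : F))⁻¹ * lf k a b +
      - Polynomial.C (((a - a' : ℤ) : F) + k * ((b - b' : ℤ) : F))⁻¹ * lf k a' b'
      = Polynomial.C (((a - a' : ℤ) : F) + k * ((b - b' : ℤ) : F))⁻¹ * (lf k a b - lf k a' b') := by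
    ring
  rw [h1, lf_sub, ← Polynomial.C_mul, inv_mul_cancel₀ hc, Polynomial.C_1]

lemma prod_mem_of_filter {R : Ideal (Polynomial F)} {ι : Type*} [DecidableEq ι] (s : Finset ι) (p : ι → Prop)
    [DecidablePred p] (f : ι → Polynomial F) (A B C : Polynomial F)
    (hB : B = A * ∏ j ∈ s, f j) (h : (∏ j ∈ s.filter p, f j) * A ∈ R) : B * C ∈ R := by
  rw [hB, ← Finset.prod_filter_mul_prod_filter_not s p f]
  have : A * ((∏ j ∈ s.filter p, f j) * ∏ j ∈ s.filter (fun j => ¬ p j), f j) * C
      = ((∏ j ∈ s.filter (fun j => ¬ p j), f j) * C) * ((∏ j ∈ s.filter p, f j) * A) := by ring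
  rw [this]
  exact R.mul_mem_left _ h

lemma lam_move (k : F) (R : YoungDiagram → YoungDiagram → Ideal (Polynomial F))
    (hmove : ∀ (lam' lam mu : YoungDiagram) (r : ℕ), AddCell lam' lam r → ∀ D ∈ R lam' mu,
      (∏ j ∈ cornerCols mu, lf k ((lam.rowLen r : ℤ) + j) ((r : ℤ) + mu.colLen j)) * D ∈ R lam mu)
    (lam mu : YoungDiagram) (l m : ℕ) (hl : lam.colLen 0 = l + 1) (hm : lam.rowLen l = m + 1)
    (ih : ∀ lam' : YoungDiagram, lam'.card < lam.card → A2 k lam' mu ∈ R lam' mu) :
    A2 k lam mu * ∏ s ∈ (range (mu.rowLen 0)).filter (fun s => s = 0 ∨ mu.colLen s < mu.colLen (s - 1)),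
      lf k ((m : ℤ) + s) ((l : ℤ) + mu.colLen s) ∈ R lam mu := by
  have hmem : (l, m) ∈ lam := by rw [YoungDiagram.mem_iff_lt_rowLen]; omega
  have hn1 : (l + 1, m) ∉ lam := by
    rw [YoungDiagram.mem_iff_lt_colLen]
    have := lam.colLen_anti 0 m (Nat.zero_le _)
    omega
  have hn2 : (l, m + 1) ∉ lam := by rw [YoungDiagram.mem_iff_lt_rowLen]; omega
  obtain ⟨lam', hadd, hcard, hr, hri, hc, hci⟩ := exists_remove lam l m hmem hn1 hn2
  have hD := hmove lam' lam mu l hadd _ (ih lam' (by omega))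
  rw [hm] at hD
  have hprod : ∏ i ∈ range l, ∏ j ∈ range (mu.rowLen 0),
      lf k ((lam'.rowLen i : ℤ) + j) ((i : ℤ) + mu.colLen j) = ∏ i ∈ range l, ∏ j ∈ range (mu.rowLen 0),
      lf k ((lam.rowLen i : ℤ) + j) ((i : ℤ) + mu.colLen j) := by
    refine Finset.prod_congr rfl ?_
    intro i hi
    rw [hri i (by have := Finset.mem_range.mp hi; omega)]
  have hA : A2 k lam mu = (∏ i ∈ range l, ∏ j ∈ range (mu.rowLen 0),
      lf k ((lam.rowLen i : ℤ) + j) ((i : ℤ) + mu.colLen j)) * ∏ j ∈ range (mu.rowLen 0),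
      lf k (((m + 1 : ℕ) : ℤ) + j) ((l : ℤ) + mu.colLen j) := by
    rw [A2, hl, Finset.prod_range_succ, hm]
  by_cases h0 : m = 0
  · subst h0
    have hA' : A2 k lam' mu = ∏ i ∈ range l, ∏ j ∈ range (mu.rowLen 0),
      lf k ((lam.rowLen i : ℤ) + j) ((i : ℤ) + mu.colLen j) := by
      rw [A2, hc, hprod]
    rw [← hA'] at hA
    exact prod_mem_of_filter _ _ _ _ _ _ hA hD
  · have hA' : A2 k lam' mu = (∏ i ∈ range l, ∏ j ∈ range (mu.rowLen 0),
      lf k ((lam.rowLen i : ℤ) + j) ((i : ℤ) + mu.colLen j)) * ∏ j ∈ range (mu.rowLen 0),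
      lf k ((m : ℤ) + j) ((l : ℤ) + mu.colLen j) := by
      rw [A2, hci 0 (Ne.symm h0), hl, Finset.prod_range_succ, hprod, hr]
    have hse := starts_ends mu.colLen (fun a b h => mu.colLen_anti a b h) (mu.rowLen 0)
      (fun j => by rw [← YoungDiagram.mem_iff_lt_colLen, YoungDiagram.mem_iff_lt_rowLen])
      (fun j b => lf k ((m : ℤ) + j) ((l : ℤ) + b))
    have hc1 : ∏ j ∈ cornerCols mu, lf k (((m + 1 : ℕ) : ℤ) + j) ((l : ℤ) + mu.colLen j)
        = ∏ t ∈ (range (mu.rowLen 0)).filter (fun t => mu.colLen (t + 1) < mu.colLen t),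
          lf k ((m : ℤ) + ((t + 1 : ℕ) : ℤ)) ((l : ℤ) + mu.colLen t) := by
      refine Finset.prod_congr rfl ?_
      intro j _
      congr 1
      push_cast; ring
    have hc2 : ∏ j ∈ range (mu.rowLen 0), lf k (((m + 1 : ℕ) : ℤ) + j) ((l : ℤ) + mu.colLen j)
        = ∏ j ∈ range (mu.rowLen 0), lf k ((m : ℤ) + ((j + 1 : ℕ) : ℤ)) ((l : ℤ) + mu.colLen j) := by
      refine Finset.prod_congr rfl ?_
      intro j _
      congr 1
      push_cast; ring
    rw [hA', hc1] at hD
    rw [hA, hc2, mul_assoc, ← hse]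
    convert hD using 1
    ring

lemma mu_move (k : F) (R : YoungDiagram → YoungDiagram → Ideal (Polynomial F))
    (hswap : ∀ lam mu, R lam mu = R mu lam)
    (hmove : ∀ (lam' lam mu : YoungDiagram) (r : ℕ), AddCell lam' lam r → ∀ D ∈ R lam' mu,
      (∏ j ∈ cornerCols mu, lf k ((lam.rowLen r : ℤ) + j) ((r : ℤ) + mu.colLen j)) * D ∈ R lam mu)
    (lam mu : YoungDiagram) (J h : ℕ) (hJ : mu.rowLen 0 = J + 1) (hh : mu.colLen J = h + 1)
    (ih : ∀ mu' : YoungDiagram, mu'.card < mu.card → A2 k lam mu' ∈ R lam mu') :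
    A2 k lam mu * ∏ i ∈ (range (lam.colLen 0)).filter (fun i => i = 0 ∨ lam.rowLen i < lam.rowLen (i - 1)),
      lf k ((J : ℤ) + lam.rowLen i) ((h : ℤ) + i) ∈ R lam mu := by
  have hmem : (h, J) ∈ mu := by rw [YoungDiagram.mem_iff_lt_colLen]; omega
  have hn1 : (h + 1, J) ∉ mu := by rw [YoungDiagram.mem_iff_lt_colLen]; omega
  have hn2 : (h, J + 1) ∉ mu := by
    rw [YoungDiagram.mem_iff_lt_rowLen]
    have := mu.rowLen_anti 0 h (Nat.zero_le _)
    omega
  have hrow : mu.rowLen h = J + 1 := by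
    rw [YoungDiagram.mem_iff_lt_rowLen] at hmem hn2
    omega
  obtain ⟨mu', hadd, hcard, hr, hri, hc, hci⟩ := exists_remove mu h J hmem hn1 hn2
  have hD := hmove mu' mu lam h hadd _ (by rw [hswap]; exact ih mu' (by omega))
  rw [hrow, hswap] at hD
  have hcb := corner_bij lam (fun a b => lf k ((J : ℤ) + a) ((h : ℤ) + b))
  have hcb1 : ∏ j ∈ cornerCols lam, lf k (((J + 1 : ℕ) : ℤ) + j) ((h : ℤ) + lam.colLen j)
      = ∏ i ∈ (range (lam.colLen 0)).filter (fun i => lam.rowLen (i + 1) < lam.rowLen i),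
        lf k ((J : ℤ) + lam.rowLen i) ((h : ℤ) + ((i + 1 : ℕ) : ℤ)) := by
    rw [← hcb]
    refine Finset.prod_congr rfl ?_
    intro j _
    congr 1
    push_cast; ring
  rw [hcb1] at hD
  have hA : A2 k lam mu = (∏ i ∈ range (lam.colLen 0), ∏ j ∈ range J,
      lf k ((lam.rowLen i : ℤ) + j) ((i : ℤ) + mu.colLen j)) * ∏ i ∈ range (lam.colLen 0),
      lf k ((J : ℤ) + lam.rowLen i) ((h : ℤ) + ((i + 1 : ℕ) : ℤ)) := by
    rw [A2, hJ, ← Finset.prod_mul_distrib]
    refine Finset.prod_congr rfl ?_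
    intro i _
    rw [Finset.prod_range_succ, hh]
    congr 2
    · ring
    · push_cast; ring
  have hprod : ∏ i ∈ range (lam.colLen 0), ∏ j ∈ range J,
      lf k ((lam.rowLen i : ℤ) + j) ((i : ℤ) + mu'.colLen j) = ∏ i ∈ range (lam.colLen 0), ∏ j ∈ range J,
      lf k ((lam.rowLen i : ℤ) + j) ((i : ℤ) + mu.colLen j) := by
    refine Finset.prod_congr rfl ?_
    intro i _
    refine Finset.prod_congr rfl ?_
    intro j hj
    rw [hci j (by have := Finset.mem_range.mp hj; omega)]
  by_cases h0 : h = 0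
  · subst h0
    have hA' : A2 k lam mu' = ∏ i ∈ range (lam.colLen 0), ∏ j ∈ range J,
        lf k ((lam.rowLen i : ℤ) + j) ((i : ℤ) + mu.colLen j) := by
      rw [A2, hr, hprod]
    rw [← hA'] at hA
    exact prod_mem_of_filter _ _ _ _ _ _ hA hD
  · have hA' : A2 k lam mu' = (∏ i ∈ range (lam.colLen 0), ∏ j ∈ range J,
        lf k ((lam.rowLen i : ℤ) + j) ((i : ℤ) + mu.colLen j)) * ∏ i ∈ range (lam.colLen 0),
        lf k ((J : ℤ) + lam.rowLen i) ((h : ℤ) + (i : ℤ)) := by
      rw [A2, hri 0 (Ne.symm h0), hJ, ← hprod, ← Finset.prod_mul_distrib]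
      refine Finset.prod_congr rfl ?_
      intro i _
      rw [Finset.prod_range_succ, hc]
      congr 2
      · ring
      · ring
    have hse := starts_ends lam.rowLen (fun a b h => lam.rowLen_anti a b h) (lam.colLen 0)
      (fun j => by rw [← YoungDiagram.mem_iff_lt_rowLen, YoungDiagram.mem_iff_lt_colLen])
      (fun i b => lf k ((J : ℤ) + b) ((h : ℤ) + i))
    rw [hA'] at hD
    rw [hA, mul_assoc, ← hse]
    convert hD using 1
    ring

/-- M2: pure algebra in `F[X]`. -/
theorem A2_mem_of_moves [CharZero F] (k : F) (hk : Transcendental ℤ k)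
    (R : YoungDiagram → YoungDiagram → Ideal (Polynomial F)) (h0 : R ⊥ ⊥ = ⊤)
    (hswap : ∀ lam mu, R lam mu = R mu lam)
    (hmove : ∀ (lam' lam mu : YoungDiagram) (r : ℕ), AddCell lam' lam r → ∀ D ∈ R lam' mu,
      (∏ j ∈ cornerCols mu, lf k ((lam.rowLen r : ℤ) + j) ((r : ℤ) + mu.colLen j)) * D ∈ R lam mu)
    (lam mu : YoungDiagram) : A2 k lam mu ∈ R lam mu := by
  have main : ∀ n : ℕ, ∀ lam mu : YoungDiagram, lam.card + mu.card = n → A2 k lam mu ∈ R lam mu := by
    intro n
    induction n using Nat.strong_induction_on with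
    | _ n ih =>
      intro lam mu hn
      have bot_of : ∀ ν : YoungDiagram, ν.colLen 0 = 0 → ν = ⊥ := by
        intro ν h
        apply YoungDiagram.ext
        rw [YoungDiagram.cells_bot, Finset.eq_empty_iff_forall_notMem]
        rintro ⟨i, j⟩ hij
        rw [YoungDiagram.mem_cells, YoungDiagram.mem_iff_lt_colLen] at hij
        have := ν.colLen_anti 0 j (Nat.zero_le _)
        omega
      have row_col : ∀ ν : YoungDiagram, ν.rowLen 0 = 0 ↔ ν.colLen 0 = 0 := by
        intro ν
        have h1 : 0 < ν.rowLen 0 ↔ 0 < ν.colLen 0 := by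
          rw [← YoungDiagram.mem_iff_lt_rowLen, YoungDiagram.mem_iff_lt_colLen]
        omega
      have ih1 : ∀ lam' : YoungDiagram, lam'.card < lam.card → A2 k lam' mu ∈ R lam' mu :=
        fun lam' h => ih (lam'.card + mu.card) (by omega) lam' mu rfl
      have ih2 : ∀ mu' : YoungDiagram, mu'.card < mu.card → A2 k lam mu' ∈ R lam mu' :=
        fun mu' h => ih (lam.card + mu'.card) (by omega) lam mu' rfl
      -- the lambda move
      have hL : lam.colLen 0 ≠ 0 → ∃ l m : ℕ, lam.colLen 0 = l + 1 ∧ lam.rowLen l = m + 1 := by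
        intro h
        obtain ⟨l, hl⟩ := Nat.exists_eq_succ_of_ne_zero h
        have : 0 < lam.rowLen l := by
          rw [← YoungDiagram.mem_iff_lt_rowLen, YoungDiagram.mem_iff_lt_colLen]; omega
        obtain ⟨m, hm⟩ := Nat.exists_eq_succ_of_ne_zero this.ne'
        exact ⟨l, m, hl, hm⟩
      have hM : mu.rowLen 0 ≠ 0 → ∃ J h : ℕ, mu.rowLen 0 = J + 1 ∧ mu.colLen J = h + 1 := by
        intro h
        obtain ⟨J, hJ⟩ := Nat.exists_eq_succ_of_ne_zero h
        have : 0 < mu.colLen J := by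
          rw [← YoungDiagram.mem_iff_lt_colLen, YoungDiagram.mem_iff_lt_rowLen]; omega
        obtain ⟨m, hm⟩ := Nat.exists_eq_succ_of_ne_zero this.ne'
        exact ⟨J, m, hJ, hm⟩
      by_cases hlam : lam.colLen 0 = 0
      · by_cases hmu : mu.rowLen 0 = 0
        · have e1 := bot_of lam hlam
          have e2 := bot_of mu ((row_col mu).mp hmu)
          rw [e1, e2, h0]
          exact Submodule.mem_top
        · obtain ⟨J, h, hJ, hh⟩ := hM hmu
          have := mu_move k R hswap hmove lam mu J h hJ hh ih2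
          rw [hlam] at this
          simpa using this
      · obtain ⟨l, m, hl, hm⟩ := hL hlam
        have h1 := lam_move k R hmove lam mu l m hl hm ih1
        by_cases hmu : mu.rowLen 0 = 0
        · rw [hmu] at h1
          simpa using h1
        · obtain ⟨J, h, hJ, hh⟩ := hM hmu
          have h2 := mu_move k R hswap hmove lam mu J h hJ hh ih2
          have hcop : IsCoprime (∏ s ∈ (range (mu.rowLen 0)).filter (fun s => s = 0 ∨ mu.colLen s < mu.colLen (s - 1)),
              lf k ((m : ℤ) + s) ((l : ℤ) + mu.colLen s))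
            (∏ i ∈ (range (lam.colLen 0)).filter (fun i => i = 0 ∨ lam.rowLen i < lam.rowLen (i - 1)),
              lf k ((J : ℤ) + lam.rowLen i) ((h : ℤ) + i)) := by
            refine IsCoprime.prod_left ?_
            intro s hs
            refine IsCoprime.prod_right ?_
            intro i hi
            apply lf_coprime k hk
            simp only [Finset.mem_filter, Finset.mem_range] at hs hi
            have h3 := mu.colLen_anti s J (by omega)
            omega
          obtain ⟨u, v, huv⟩ := hcop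
          have h3 : A2 k lam mu = u * (A2 k lam mu * ∏ s ∈ (range (mu.rowLen 0)).filter (fun s => s = 0 ∨ mu.colLen s < mu.colLen (s - 1)),
              lf k ((m : ℤ) + s) ((l : ℤ) + mu.colLen s)) + v * (A2 k lam mu *
              ∏ i ∈ (range (lam.colLen 0)).filter (fun i => i = 0 ∨ lam.rowLen i < lam.rowLen (i - 1)),
              lf k ((J : ℤ) + lam.rowLen i) ((h : ℤ) + i)) := by
            linear_combination (- A2 k lam mu) * huv
          rw [h3]
          exact (R lam mu).add_mem ((R lam mu).mul_mem_left _ h1) ((R lam mu).mul_mem_left _ h2)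
  exact main _ lam mu rfl

end Pool.Agent.JL
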